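import Mathlib

/-!
Feynman checkers: the amplitude as a sum over checker paths, and its description by integer arrays.
-/

namespace Pool.Agent.Lib.MP_0d3661_nt

open Finset

/-- The abscissa of the end point of the path with steps `s`
(`true` is the step `(1,1)`, `false` is the step `(-1,1)`), starting at `(0,0)`. -/
def endX {t : ℕ} (s : Fin t → Bool) : ℤ := ∑ i, if s i then 1 else -1

/-- The number of interior points of the path at which the direction changes. -/
def turns {t : ℕ} (s : Fin t → Bool) : ℕ :=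
  (univ.filter fun i : Fin t => ∃ h : (i : ℕ) + 1 < t, s i ≠ s ⟨(i : ℕ) + 1, h⟩).card

/-- The steps `s` form a checker path from `(0,0)` to `(x,t)` whose second point is `(1,1)`. -/
def IsPath (x : ℤ) (t : ℕ) (s : Fin t → Bool) : Prop :=
  (∀ i : Fin t, (i : ℕ) = 0 → s i = true) ∧ endX s = x

open Classical in
/-- The Feynman checkers amplitude `a(x,t)`. -/
noncomputable def amp (x : ℤ) (t : ℕ) : ℂ :=
  (((2 : ℝ) ^ ((1 - (t : ℝ)) / 2) : ℝ) : ℂ) * Complex.I *
    ∑ s ∈ (univ : Finset (Fin t → Bool)).filter (IsPath x t), (-Complex.I) ^ turns s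

/-- number of left steps -/
def nf {t : ℕ} (s : Fin t → Bool) : ℕ := (univ.filter fun i : Fin t => s i = false).card

theorem endX_eq {t : ℕ} (s : Fin t → Bool) : endX s = (t : ℤ) - 2 * (nf s : ℤ) := by
  unfold endX nf
  rw [Finset.card_filter]
  push_cast
  rw [Finset.mul_sum]
  have : (t : ℤ) = ∑ _i : Fin t, (1 : ℤ) := by simp
  rw [this, ← Finset.sum_sub_distrib]
  refine Finset.sum_congr rfl fun i _ => ?_
  cases s i <;> simp

theorem turns_snoc {m : ℕ} (s : Fin (m + 1) → Bool) (c : Bool) :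
    turns (Fin.snoc (α := fun _ => Bool) s c : Fin (m + 2) → Bool) =
      turns s + if s (Fin.last m) = c then 0 else 1 := by
  unfold turns
  rw [Finset.card_filter, Finset.card_filter, Fin.sum_univ_castSucc, Fin.sum_univ_castSucc,
    Fin.sum_univ_castSucc (n := m)]
  have h1 : ∀ i : Fin m, (∃ h : ((i.castSucc.castSucc : Fin (m + 2)) : ℕ) + 1 < m + 1 + 1,
      (Fin.snoc (α := fun _ => Bool) s c : Fin (m + 2) → Bool) i.castSucc.castSucc ≠
        (Fin.snoc (α := fun _ => Bool) s c : Fin (m + 2) → Bool)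
          ⟨((i.castSucc.castSucc : Fin (m + 2)) : ℕ) + 1, h⟩) ↔
      ∃ h : ((i.castSucc : Fin (m + 1)) : ℕ) + 1 < m + 1,
        s i.castSucc ≠ s ⟨((i.castSucc : Fin (m + 1)) : ℕ) + 1, h⟩ := by
    intro i
    have hi := i.isLt
    have e1 : (Fin.snoc (α := fun _ => Bool) s c : Fin (m + 2) → Bool) i.castSucc.castSucc
        = s i.castSucc := Fin.snoc_castSucc (α := fun _ => Bool) c s i.castSucc
    have e2 : ∀ h : ((i.castSucc.castSucc : Fin (m + 2)) : ℕ) + 1 < m + 1 + 1,
        (Fin.snoc (α := fun _ => Bool) s c : Fin (m + 2) → Bool)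
          ⟨((i.castSucc.castSucc : Fin (m + 2)) : ℕ) + 1, h⟩ =
          s ⟨((i.castSucc : Fin (m + 1)) : ℕ) + 1, by simp⟩ := by
      intro h
      have := Fin.snoc_castSucc (α := fun _ => Bool) c s
        ⟨((i.castSucc : Fin (m + 1)) : ℕ) + 1, by simp⟩
      exact this
    constructor
    · rintro ⟨h, hne⟩
      rw [e1, e2] at hne
      exact ⟨_, hne⟩
    · rintro ⟨h, hne⟩
      refine ⟨by simp, ?_⟩
      rw [e1, e2]
      exact hne
  have h2 : (∃ h : (((Fin.last m).castSucc : Fin (m + 2)) : ℕ) + 1 < m + 1 + 1,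
      (Fin.snoc (α := fun _ => Bool) s c : Fin (m + 2) → Bool) (Fin.last m).castSucc ≠
        (Fin.snoc (α := fun _ => Bool) s c : Fin (m + 2) → Bool)
          ⟨(((Fin.last m).castSucc : Fin (m + 2)) : ℕ) + 1, h⟩) ↔ s (Fin.last m) ≠ c := by
    have e1 : (Fin.snoc (α := fun _ => Bool) s c : Fin (m + 2) → Bool) (Fin.last m).castSucc
        = s (Fin.last m) := Fin.snoc_castSucc (α := fun _ => Bool) c s (Fin.last m)
    have e2 : ∀ h : (((Fin.last m).castSucc : Fin (m + 2)) : ℕ) + 1 < m + 1 + 1,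
        (Fin.snoc (α := fun _ => Bool) s c : Fin (m + 2) → Bool)
          ⟨(((Fin.last m).castSucc : Fin (m + 2)) : ℕ) + 1, h⟩ = c := by
      intro h
      exact Fin.snoc_last (α := fun _ => Bool) c s
    constructor
    · rintro ⟨h, hne⟩
      rwa [e1, e2] at hne
    · intro hne
      refine ⟨by simp, ?_⟩
      rw [e1, e2]
      exact hne
  have h3 : ¬ (∃ h : ((Fin.last (m + 1) : Fin (m + 2)) : ℕ) + 1 < m + 1 + 1,
      (Fin.snoc (α := fun _ => Bool) s c : Fin (m + 2) → Bool) (Fin.last (m + 1)) ≠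
        (Fin.snoc (α := fun _ => Bool) s c : Fin (m + 2) → Bool)
          ⟨((Fin.last (m + 1) : Fin (m + 2)) : ℕ) + 1, h⟩) := by
    rintro ⟨h, -⟩
    simp at h
  have h4 : ¬ (∃ h : ((Fin.last m : Fin (m + 1)) : ℕ) + 1 < m + 1,
      s (Fin.last m) ≠ s ⟨((Fin.last m : Fin (m + 1)) : ℕ) + 1, h⟩) := by
    rintro ⟨h, -⟩
    simp at h
  simp only [h1, h2, if_neg h3, if_neg h4, add_zero]
  congr 1
  by_cases h : s (Fin.last m) = c <;> simp [h]

theorem nf_snoc {m : ℕ} (s : Fin (m + 1) → Bool) (c : Bool) :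
    nf (Fin.snoc (α := fun _ => Bool) s c : Fin (m + 2) → Bool) =
      nf s + if c = false then 1 else 0 := by
  unfold nf
  rw [Finset.card_filter, Finset.card_filter, Fin.sum_univ_castSucc]
  congr 1
  · refine Finset.sum_congr rfl fun i _ => ?_
    rw [Fin.snoc_castSucc (α := fun _ => Bool) c s i]
  · rw [Fin.snoc_last (α := fun _ => Bool) c s]

/-- contribution of the paths with `m + 1` steps, `k` of them to the left, last step `b` -/
noncomputable def G (b : Bool) (k m : ℕ) : ℂ :=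
  ∑ s : Fin (m + 1) → Bool, if s 0 = true ∧ nf s = k ∧ s (Fin.last m) = b then
    (-Complex.I) ^ turns s else 0

theorem G_sum (b : Bool) (k m : ℕ) : G b k (m + 1) =
    ∑ s : Fin (m + 1) → Bool, if s 0 = true ∧ nf s + (if b = false then 1 else 0) = k then
      (-Complex.I) ^ turns s * (if s (Fin.last m) = b then 1 else -Complex.I) else 0 := by
  unfold G
  rw [← (Fin.snocEquiv (fun _ : Fin (m + 2) => Bool)).sum_comp, Fintype.sum_prod_type]
  rw [Finset.sum_eq_single b]
  · refine Finset.sum_congr rfl fun s _ => ?_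
    have e1 : (Fin.snocEquiv (fun _ : Fin (m + 2) => Bool)) (b, s)
        = (Fin.snoc (α := fun _ => Bool) s b : Fin (m + 2) → Bool) := rfl
    have e2 : (Fin.snoc (α := fun _ => Bool) s b : Fin (m + 2) → Bool) 0 = s 0 :=
      Fin.snoc_castSucc (α := fun _ => Bool) b s 0
    have e3 : (Fin.snoc (α := fun _ => Bool) s b : Fin (m + 2) → Bool) (Fin.last (m + 1)) = b :=
      Fin.snoc_last (α := fun _ => Bool) b s
    rw [e1, e2, e3, nf_snoc, turns_snoc, pow_add]
    by_cases h : s (Fin.last m) = b <;> simp [h]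
  · intro c _ hc
    refine Finset.sum_eq_zero fun s _ => ?_
    have e1 : (Fin.snocEquiv (fun _ : Fin (m + 2) => Bool)) (c, s)
        = (Fin.snoc (α := fun _ => Bool) s c : Fin (m + 2) → Bool) := rfl
    have e3 : (Fin.snoc (α := fun _ => Bool) s c : Fin (m + 2) → Bool) (Fin.last (m + 1)) = c :=
      Fin.snoc_last (α := fun _ => Bool) c s
    rw [e1, if_neg]
    rintro ⟨-, -, h⟩
    rw [e3] at h
    exact hc h
  · intro h; exact absurd (Finset.mem_univ _) h

theorem G_split (b : Bool) (k m : ℕ) :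
    (∑ s : Fin (m + 1) → Bool, if s 0 = true ∧ nf s = k then
      (-Complex.I) ^ turns s * (if s (Fin.last m) = b then 1 else -Complex.I) else 0)
      = G b k m + (-Complex.I) * G (!b) k m := by
  unfold G
  rw [Finset.mul_sum, ← Finset.sum_add_distrib]
  refine Finset.sum_congr rfl fun s _ => ?_
  by_cases h1 : s 0 = true ∧ nf s = k
  · by_cases h2 : s (Fin.last m) = b
    · have h3 : ¬ s (Fin.last m) = !b := by rw [h2]; cases b <;> simp
      simp [h1, h2]
    · have h3 : s (Fin.last m) = !b := by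
        cases hb : b <;> cases hs : s (Fin.last m) <;> simp_all
      rw [if_pos h1, if_neg h2, if_neg, if_pos ⟨h1.1, h1.2, h3⟩]
      · ring
      · rintro ⟨-, -, h⟩; exact h2 h
  · rw [if_neg h1, if_neg, if_neg]
    · simp
    · rintro ⟨a, b, -⟩; exact h1 ⟨a, b⟩
    · rintro ⟨a, b, -⟩; exact h1 ⟨a, b⟩

theorem G_true (k m : ℕ) : G true k (m + 1) = G true k m + (-Complex.I) * G false k m := by
  rw [G_sum]
  have := G_split true k m
  simpa using this

theorem G_false_succ (k m : ℕ) :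
    G false (k + 1) (m + 1) = G false k m + (-Complex.I) * G true k m := by
  rw [G_sum]
  have := G_split false k m
  simpa using this

theorem G_false_zero (m : ℕ) : G false 0 (m + 1) = 0 := by
  rw [G_sum]
  refine Finset.sum_eq_zero fun s _ => ?_
  rw [if_neg]
  rintro ⟨-, h⟩
  simp at h

theorem G_zero (b : Bool) (k : ℕ) : G b k 0 = if b = true ∧ k = 0 then 1 else 0 := by
  unfold G
  have h1 : ∀ s : Fin 1 → Bool, turns s = 0 := by
    intro s
    unfold turns
    rw [Finset.card_eq_zero, Finset.filter_eq_empty_iff]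
    rintro i - ⟨h, -⟩
    omega
  have h2 : ∀ s : Fin 1 → Bool, nf s = if s 0 = false then 1 else 0 := by
    intro s
    unfold nf
    rw [Finset.card_filter, Fin.sum_univ_one]
  rw [← (Equiv.funUnique (Fin 1) Bool).symm.sum_comp]
  simp only [h1, h2, pow_zero]
  rw [Fintype.sum_bool]
  cases b <;> simp [Equiv.funUnique, eq_comm]

/-- the two integer arrays: `(rl m k).1` counts paths ending to the right, `(rl m k).2` to the left -/
def rl : ℕ → ℕ → ℤ × ℤ
  | 0, k => (if k = 0 then 1 else 0, 0)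
  | m + 1, 0 => ((rl m 0).1 - (rl m 0).2, 0)
  | m + 1, k + 1 => ((rl m (k + 1)).1 - (rl m (k + 1)).2, (rl m k).1 + (rl m k).2)

theorem rl_fst_succ (m k : ℕ) : (rl (m + 1) k).1 = (rl m k).1 - (rl m k).2 := by
  cases k <;> simp [rl]

theorem G_eq (m : ℕ) : ∀ k, G true k m = ((rl m k).1 : ℂ) ∧
    G false k m = -Complex.I * ((rl m k).2 : ℂ) := by
  induction m with
  | zero =>
    intro k
    rw [G_zero, G_zero]
    by_cases hk : k = 0 <;> simp [rl, hk]
  | succ m ih =>
    intro k
    constructor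
    · rw [G_true, (ih k).1, (ih k).2, rl_fst_succ]
      push_cast
      linear_combination (-((rl m k).2 : ℂ)) * (by
        have := Complex.I_mul_I
        linear_combination -this : -(Complex.I * Complex.I) = 1)
    · cases k with
      | zero => rw [G_false_zero]; simp [rl]
      | succ k =>
        rw [G_false_succ, (ih k).1, (ih k).2]
        simp only [rl]
        push_cast
        ring

open Classical in
theorem amp_eq (m k : ℕ) : amp ((m : ℤ) + 1 - 2 * k) (m + 1) =
    (((2 : ℝ) ^ ((1 - ((m + 1 : ℕ) : ℝ)) / 2) : ℝ) : ℂ) *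
      (((rl m k).2 : ℂ) + ((rl m k).1 : ℂ) * Complex.I) := by
  have h1 : (∑ s ∈ (univ : Finset (Fin (m + 1) → Bool)).filter
      (IsPath ((m : ℤ) + 1 - 2 * k) (m + 1)), (-Complex.I) ^ turns s) = G true k m + G false k m := by
    unfold G
    rw [Finset.sum_filter, ← Finset.sum_add_distrib]
    refine Finset.sum_congr rfl fun s _ => ?_
    have h2 : IsPath ((m : ℤ) + 1 - 2 * k) (m + 1) s ↔ s 0 = true ∧ nf s = k := by
      unfold IsPath
      rw [endX_eq]
      constructor
      · rintro ⟨ha, hb⟩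
        refine ⟨ha 0 rfl, ?_⟩
        push_cast at hb
        omega
      · rintro ⟨ha, hb⟩
        refine ⟨fun i hi => ?_, ?_⟩
        · have : i = 0 := Fin.ext hi
          rw [this]; exact ha
        · rw [hb]; push_cast; ring
    by_cases h : s 0 = true ∧ nf s = k
    · rw [if_pos (h2.2 h)]
      cases hs : s (Fin.last m) <;> simp [h]
    · rw [if_neg (fun h' => h (h2.1 h')), if_neg, if_neg]
      · simp
      · rintro ⟨a, b, -⟩; exact h ⟨a, b⟩
      · rintro ⟨a, b, -⟩; exact h ⟨a, b⟩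
  unfold amp
  rw [h1, (G_eq m k).1, (G_eq m k).2]
  have hI := Complex.I_mul_I
  linear_combination (-(((2 : ℝ) ^ ((1 - ((m + 1 : ℕ) : ℝ)) / 2) : ℝ) : ℂ) * ((rl m k).2 : ℂ)) * hI

theorem amp_re (m k : ℕ) : (amp ((m : ℤ) + 1 - 2 * k) (m + 1)).re =
    (2 : ℝ) ^ ((1 - ((m + 1 : ℕ) : ℝ)) / 2) * ((rl m k).2 : ℝ) := by
  rw [amp_eq, Complex.re_ofReal_mul]
  simp

theorem amp_im (m k : ℕ) : (amp ((m : ℤ) + 1 - 2 * k) (m + 1)).im =
    (2 : ℝ) ^ ((1 - ((m + 1 : ℕ) : ℝ)) / 2) * ((rl m k).1 : ℝ) := by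
  rw [amp_eq, Complex.im_ofReal_mul]
  simp

end Pool.Agent.Lib.MP_0d3661_nt
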