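import Pool.Agent.Lib.MP_0d3661_nt.Norm

/-!
Non-vanishing of `V n q q` and `V n q (q + 1)` under conditions on the 2-adic valuations of the
binomial coefficients `n.choose j`.
-/

namespace Pool.Agent.Lib.MP_0d3661_nt

open Finset Polynomial

/-! ### symmetries -/

theorem f_symm (n a b : ℕ) : f n a b = f n b a := by
  unfold f
  refine Finset.sum_congr rfl fun j _ => ?_
  ring

theorem coeff_comp_neg_X (p : ℤ[X]) (k : ℕ) : (p.comp (-X)).coeff k = (-1) ^ k * p.coeff k := by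
  induction p using Polynomial.induction_on' with
  | add p q hp hq => rw [add_comp, coeff_add, coeff_add, hp, hq]; ring
  | monomial n a =>
    rw [monomial_comp, neg_pow, coeff_C_mul]
    have h1 : ((-1 : ℤ[X]) ^ n) = C ((-1) ^ n) := by simp
    rw [h1, coeff_C_mul, coeff_X_pow, coeff_monomial]
    by_cases h : k = n
    · subst h; simp; ring
    · rw [if_neg h, if_neg (Ne.symm h)]; simp

theorem V_rev {n q : ℕ} (hq : q ≤ n) (k : ℕ) : V n (n - q) k = (-1) ^ k * V n q k := by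
  unfold V
  rw [← coeff_comp_neg_X]
  congr 1
  rw [mul_comp, pow_comp, pow_comp, add_comp, sub_comp, one_comp, X_comp, Nat.sub_sub_self hq,
    sub_neg_eq_add, ← sub_eq_add_neg, mul_comm]

theorem f_rev {n q k : ℕ} (hq : q ≤ n) (hk : k ≤ n) : f n (n - q) k = (-1) ^ k * f n q k := by
  have h1 := V_eq_f (k := k) hq
  have h2 := V_eq_f (k := k) (Nat.sub_le n q)
  rw [V_rev hq] at h2
  push_cast at h2
  rw [h1] at h2
  have h3 : (n.choose k : ℚ) ≠ 0 := by exact_mod_cast (Nat.choose_pos hk).ne'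
  have h4 : (n.choose k : ℚ) * ((-1) ^ k * f n q k) = (n.choose k : ℚ) * f n (n - q) k := by
    rw [← h2]; ring
  exact (mul_left_cancel₀ h3 h4).symm

theorem V_ne_of_f {n q k : ℕ} (hq : q ≤ n) (hk : k ≤ n) (h : f n q k ≠ 0) : V n q k ≠ 0 := by
  intro h0
  have h1 := V_eq_f (k := k) hq
  rw [h0] at h1
  have h3 : (n.choose k : ℚ) ≠ 0 := by exact_mod_cast (Nat.choose_pos hk).ne'
  push_cast at h1
  exact (mul_ne_zero h3 h) h1.symm

theorem f_ne_of_rev {n q k : ℕ} (hq : q ≤ n) (hk : k ≤ n) (h : f n (n - q) k ≠ 0) :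
    f n q k ≠ 0 := by
  intro h0
  rw [f_rev hq hk, h0, mul_zero] at h
  exact h rfl

/-- the middle value with odd index vanishes -/
theorem f_mid {m k : ℕ} (hk : Odd k) (hk' : k ≤ 2 * m) : f (2 * m) m k = 0 := by
  have h1 := f_rev (n := 2 * m) (q := m) (k := k) (by omega) hk'
  rw [show 2 * m - m = m by omega, hk.neg_one_pow] at h1
  linarith

/-! ### the general domination statement -/

theorem dom {n : ℕ} (x : ℕ → ℚ) {c : ℚ} (hc : 0 < c) (e : ℤ) {j₀ : ℕ} (hj₀ : j₀ ≤ n)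
    (h0 : N2 (x j₀) = c * (2 : ℚ) ^ (e + j₀ - vv n j₀))
    (h : ∀ j ≤ n, j ≠ j₀ → ∃ B : ℤ, N2 (x j) ≤ c * (2 : ℚ) ^ B ∧ B + vv n j < e + j) :
    ∑ j ∈ range (n + 1), (-2) ^ j * x j / (n.choose j : ℚ) ≠ 0 := by
  refine sum_ne_zero_of_dom (j₀ := j₀) (Finset.mem_range.2 (by omega)) (c := c * (2 : ℚ) ^ e)
    (by positivity) ?_ ?_
  · rw [N2_term hj₀, h0, mul_assoc, ← zpow_add₀ (by norm_num)]
    congr 2
    ring
  · intro j hj hne
    have hj' : j ≤ n := Nat.lt_succ_iff.1 (Finset.mem_range.1 hj)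
    obtain ⟨B, hB, hlt⟩ := h j hj' hne
    exact N2_term_lt hj' hc hB hlt

theorem f_eq (n a b : ℕ) : f n a b = ∑ j ∈ range (n + 1),
    (-2) ^ j * ((a.choose j : ℚ) * (b.choose j : ℚ)) / (n.choose j : ℚ) := by
  unfold f
  refine Finset.sum_congr rfl fun j _ => ?_
  ring

theorem vv_zero (n : ℕ) : vv n 0 = 0 := by simp [vv]

/-- domination by the term `j = 0` -/
theorem dom0 {n a b : ℕ} (h : ∀ j ≤ n, 1 ≤ j → ∃ B : ℤ,
    N2 ((a.choose j : ℚ) * (b.choose j : ℚ)) ≤ (2 : ℚ) ^ B ∧ B + vv n j < j) : f n a b ≠ 0 := by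
  rw [f_eq]
  refine dom (fun j => (a.choose j : ℚ) * (b.choose j : ℚ)) one_pos 0 (Nat.zero_le n) ?_ ?_
  · simp [vv_zero, N2]
  · intro j hj hne
    obtain ⟨B, h1, h2⟩ := h j hj (by omega)
    exact ⟨B, by rw [one_mul]; exact h1, by omega⟩

theorem N2_prod_le (a b j : ℕ) : N2 ((a.choose j : ℚ) * (b.choose j : ℚ)) ≤ (2 : ℚ) ^ (0 : ℤ) := by
  rw [N2_mul, zpow_zero]
  exact mul_le_one₀ (N2_nat_le _) (N2_nonneg _) (N2_nat_le _)

/-- odd `n` -/
theorem class_odd {n : ℕ} (h : ∀ j ≤ n, 1 ≤ j → vv n j < j) (a b : ℕ) : f n a b ≠ 0 :=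
  dom0 fun j hj hj1 => ⟨0, N2_prod_le a b j, by have := h j hj hj1; omega⟩

theorem N2_dvd {m e : ℕ} (h : 2 ^ e ∣ m) : N2 (m : ℚ) ≤ (2 : ℚ) ^ (-(e : ℤ)) := by
  have h1 : ((2 ^ e : ℕ) : ℤ) ∣ (m : ℤ) := by exact_mod_cast h
  have := (padicNorm.dvd_iff_norm_le (p := 2) (n := e) (z := (m : ℤ))).1 h1
  simpa [N2] using this

theorem N2_odd {m : ℕ} (h : ¬ 2 ∣ m) : N2 (m : ℚ) = 1 := (padicNorm.nat_eq_one_iff m).2 h

theorem N2_int_odd {m : ℤ} (h : ¬ 2 ∣ m) : N2 (m : ℚ) = 1 :=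
  (padicNorm.int_eq_one_iff m).2 (by exact_mod_cast h)

theorem choose_three_cast (n : ℕ) : (n.choose 3 : ℚ) = n * (n - 1) * (n - 2) / 6 := by
  induction n with
  | zero => simp
  | succ n ih =>
    rw [Nat.choose_succ_succ' n 2]
    push_cast
    rw [ih, Nat.cast_choose_two]
    ring

end Pool.Agent.Lib.MP_0d3661_nt
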