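import Pool.Agent.Lib.MP_0d3661_nt.Classes

/-!
Non-vanishing for even `n`.
-/

namespace Pool.Agent.Lib.MP_0d3661_nt

open Finset

theorem N2_sub_comm (x y : ℚ) : N2 (x - y) = N2 (y - x) := by
  rw [N2, N2, ← padicNorm.neg, neg_sub]

theorem N2_diff (P Q j : ℕ) : N2 ((P.choose j : ℚ) - (Q.choose j : ℚ)) ≤
    N2 ((P : ℚ) - (Q : ℚ)) * 2 ^ (Nat.log 2 j) := by
  rcases le_total Q P with h | h
  · obtain ⟨w, rfl⟩ := Nat.exists_eq_add_of_le h
    have := N2_diff_add Q w j
    push_cast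
    rwa [add_sub_cancel_left]
  · obtain ⟨w, rfl⟩ := Nat.exists_eq_add_of_le h
    have := N2_diff_add P w j
    rw [N2_sub_comm, N2_sub_comm (P : ℚ)]
    push_cast
    rwa [add_sub_cancel_left]

theorem four_dvd_choose_three {q : ℕ} (hq : 2 ∣ q) : 4 ∣ q.choose 3 := by
  obtain ⟨s, rfl⟩ := hq
  have h1 := Nat.choose_succ_right_eq (2 * s) 2
  have h2 := Nat.choose_succ_right_eq (2 * s) 1
  rw [Nat.choose_one_right] at h2
  norm_num at h1 h2
  obtain ⟨r, hr⟩ := Nat.even_mul_pred_self s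
  have h3 : (2 * s).choose 2 = s * (2 * s - 1) := by
    have : (2 * s).choose 2 * 2 = (s * (2 * s - 1)) * 2 := by rw [h2]; ring
    exact Nat.eq_of_mul_eq_mul_right (by norm_num) this
  have h4 : (2 * s).choose 3 * 3 = 4 * (r * (2 * s - 1)) := by
    rw [h1, h3]
    have : 2 * s - 2 = 2 * (s - 1) := by omega
    rw [this]
    calc s * (2 * s - 1) * (2 * (s - 1)) = 2 * (s * (s - 1)) * (2 * s - 1) := by ring
      _ = 4 * (r * (2 * s - 1)) := by rw [hr]; ring
  have h5 : 4 ∣ (2 * s).choose 3 * 3 := ⟨_, h4⟩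
  exact Nat.Coprime.dvd_of_dvd_mul_right (by norm_num) h5

theorem four_dvd_mul (q : ℕ) : 4 ∣ q.choose 3 * (q + 1).choose 3 := by
  rcases Nat.even_or_odd q with h | h
  · exact Dvd.dvd.mul_right (four_dvd_choose_three h.two_dvd) _
  · exact Dvd.dvd.mul_left (four_dvd_choose_three (h.add_one).two_dvd) _

theorem N2_prod_dvd {a b j e : ℕ} (h : 2 ^ e ∣ a.choose j * b.choose j) :
    N2 ((a.choose j : ℚ) * (b.choose j : ℚ)) ≤ (2 : ℚ) ^ (-(e : ℤ)) := by
  have := N2_dvd h
  push_cast at this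
  exact this

/-- hypotheses on the valuations for `n = 2 mod 4` -/
structure HypA (n : ℕ) : Prop where
  h3n : 3 ≤ n
  h1 : vv n 1 ≤ 1
  h2 : vv n 2 = 0
  h3 : 2 ≤ vv n 3
  h3' : vv n 3 ≤ 4
  hj : ∀ j ≤ n, 4 ≤ j → vv n j < j
  hj' : ∀ j ≤ n, 4 ≤ j → vv n j + 2 * Nat.log 2 j + 2 ≤ vv n 3 + j

theorem classA_im {n : ℕ} (H : HypA n) (q : ℕ) : f n q (q + 1) ≠ 0 := by
  refine dom0 fun j hj hj1 => ?_
  rcases Nat.lt_or_ge j 4 with h4 | h4
  · interval_cases j
    · refine ⟨-(1 : ℕ), N2_prod_dvd ?_, ?_⟩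
      · rw [Nat.choose_one_right, Nat.choose_one_right, pow_one]
        exact (Nat.even_mul_succ_self q).two_dvd
      · have := H.h1; push_cast; omega
    · exact ⟨0, N2_prod_le _ _ _, by have := H.h2; push_cast; omega⟩
    · refine ⟨-(2 : ℕ), N2_prod_dvd (four_dvd_mul q), ?_⟩
      have := H.h3'; push_cast; omega
  · exact ⟨0, N2_prod_le _ _ _, by have := H.hj j hj h4; omega⟩

theorem classA_re_even {n : ℕ} (H : HypA n) {q : ℕ} (hq : 2 ∣ q) : f n q q ≠ 0 := by
  refine dom0 fun j hj hj1 => ?_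
  rcases Nat.lt_or_ge j 4 with h4 | h4
  · interval_cases j
    · refine ⟨-(2 : ℕ), N2_prod_dvd ?_, ?_⟩
      · rw [Nat.choose_one_right, pow_two]
        exact mul_dvd_mul hq hq
      · have := H.h1; push_cast; omega
    · exact ⟨0, N2_prod_le _ _ _, by have := H.h2; push_cast; omega⟩
    · refine ⟨-(4 : ℕ), N2_prod_dvd ?_, ?_⟩
      · exact mul_dvd_mul (a := 4) (c := 4) (four_dvd_choose_three hq) (four_dvd_choose_three hq)
      · have := H.h3'; push_cast; omega
  · exact ⟨0, N2_prod_le _ _ _, by have := H.hj j hj h4; omega⟩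

theorem f_sub {n a b a' b' : ℕ} (h : f n a' b' = 0) : f n a b = ∑ j ∈ range (n + 1),
    (-2) ^ j * ((a.choose j : ℚ) * (b.choose j : ℚ) - (a'.choose j : ℚ) * (b'.choose j : ℚ)) /
      (n.choose j : ℚ) := by
  have h1 : f n a b = f n a b - f n a' b' := by rw [h, sub_zero]
  rw [h1, f_eq n a b, f_eq n a' b', ← Finset.sum_sub_distrib]
  refine Finset.sum_congr rfl fun j _ => ?_
  ring

theorem N2_zero : N2 0 = 0 := padicNorm.zero

theorem classA_re_odd_aux {M y : ℕ} (H : HypA (2 * (M + y))) (hM : ¬ 2 ∣ M) (hy : 2 ∣ y)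
    (hy0 : y ≠ 0) : f (2 * (M + y)) (M + 2 * y) M ≠ 0 := by
  have hmid : f (2 * (M + y)) (M + y) (M + y) = 0 := by
    refine f_mid ?_ (by omega)
    rw [← Nat.not_even_iff_odd, even_iff_two_dvd]
    omega
  rw [f_sub hmid]
  have hyq : (y : ℚ) ≠ 0 := by exact_mod_cast hy0
  have hc : 0 < N2 (y : ℚ) ^ 2 := pow_pos (N2_pos hyq) 2
  have hx : ∀ j, N2 (((M + 2 * y).choose j : ℚ) * (M.choose j : ℚ) -
      ((M + y).choose j : ℚ) * ((M + y).choose j : ℚ)) ≤
      N2 (y : ℚ) ^ 2 * (2 : ℚ) ^ ((2 * Nat.log 2 j : ℕ) : ℤ) := by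
    intro j
    have := N2_second M y j
    rw [sq (((M + y).choose j : ℕ) : ℚ)] at this
    rw [zpow_natCast]
    exact this
  refine dom (fun j => ((M + 2 * y).choose j : ℚ) * (M.choose j : ℚ) -
      ((M + y).choose j : ℚ) * ((M + y).choose j : ℚ)) hc ((vv (2 * (M + y)) 3 : ℤ) - 1)
      (j₀ := 3) H.h3n ?_ ?_
  · -- the term j = 3
    have h36 : N2 (36 : ℚ) = 1 / 4 := by
      have h9 : N2 ((9 : ℕ) : ℚ) = 1 := N2_odd (by norm_num)
      have h4 : N2 ((4 : ℕ) : ℚ) = 1 / 4 := by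
        rw [N2_nat (by norm_num)]
        have : padicValNat 2 4 = 2 := by
          rw [show (4 : ℕ) = 2 ^ 2 by norm_num, padicValNat.prime_pow]
        rw [this]; norm_num
      have : (36 : ℚ) = ((9 : ℕ) : ℚ) * ((4 : ℕ) : ℚ) := by norm_num
      rw [this, N2_mul, h9, h4, one_mul]
    have hkey : (36 : ℚ) * (((M + 2 * y).choose 3 : ℚ) * (M.choose 3 : ℚ) -
        ((M + y).choose 3 : ℚ) * ((M + y).choose 3 : ℚ)) = (y : ℚ) * y * ((-(
          (((M : ℤ) + y) * (M + y - 1)) ^ 2 + ((M + y - 1) * (M + y - 2)) ^ 2 +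
          ((M + y - 2) * (M + y)) ^ 2 - y ^ 2 * ((M + y) ^ 2 + (M + y - 1) ^ 2 + (M + y - 2) ^ 2) +
          y ^ 4) : ℤ) : ℚ) := by
      rw [choose_three_cast, choose_three_cast, choose_three_cast]
      push_cast
      ring
    have hodd : ¬ (2 : ℤ) ∣ -((((M : ℤ) + y) * (M + y - 1)) ^ 2 +
          ((M + y - 1) * (M + y - 2)) ^ 2 +
          ((M + y - 2) * (M + y)) ^ 2 - y ^ 2 * ((M + y) ^ 2 + (M + y - 1) ^ 2 + (M + y - 2) ^ 2) +
          y ^ 4) := by
      obtain ⟨z, rfl⟩ := hy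
      obtain ⟨s, hs⟩ : ∃ s, M = 2 * s + 1 := ⟨M / 2, by omega⟩
      subst hs
      rw [dvd_neg]
      intro hdvd
      push_cast at hdvd
      have h1 : ((2 * (s : ℤ) + 1 + 2 * z) * (2 * s + 1 + 2 * z - 1)) ^ 2 +
          ((2 * s + 1 + 2 * z - 1) * (2 * s + 1 + 2 * z - 2)) ^ 2 +
          ((2 * s + 1 + 2 * z - 2) * (2 * s + 1 + 2 * z)) ^ 2 -
          (2 * z) ^ 2 * ((2 * s + 1 + 2 * z) ^ 2 + (2 * s + 1 + 2 * z - 1) ^ 2 +
            (2 * s + 1 + 2 * z - 2) ^ 2) + (2 * z) ^ 4 =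
          2 * (2 * (((s : ℤ) + z) * (2 * s + 1 + 2 * z)) ^ 2 +
            2 * ((s + z) * (2 * s + 2 * z - 1)) ^ 2 +
            8 * (s + z) ^ 4 - 4 * (s + z) ^ 2 - 2 * z ^ 2 * ((2 * s + 1 + 2 * z) ^ 2 +
              (2 * s + 2 * z) ^ 2 + (2 * s + 2 * z - 1) ^ 2) + 8 * z ^ 4) + 1 := by ring
      omega
    have h1 := congrArg N2 hkey
    rw [N2_mul, N2_mul, N2_mul, N2_int_odd hodd, h36, mul_one] at h1
    have h2 : N2 (((M + 2 * y).choose 3 : ℚ) * (M.choose 3 : ℚ) -
        ((M + y).choose 3 : ℚ) * ((M + y).choose 3 : ℚ)) = 4 * (N2 (y : ℚ) * N2 (y : ℚ)) := by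
      linarith
    rw [h2]
    have h3 : (vv (2 * (M + y)) 3 : ℤ) - 1 + ((3 : ℕ) : ℤ) - vv (2 * (M + y)) 3 = 2 := by
      push_cast; ring
    rw [h3]
    norm_num
    ring
  · intro j hj hne
    rcases Nat.lt_or_ge j 4 with h4 | h4
    · have h1 := H.h1
      have h2 := H.h2
      have h3 := H.h3
      interval_cases j
      · refine ⟨(vv (2 * (M + y)) 3 : ℤ) - 2, ?_, ?_⟩
        · simp only [Nat.choose_zero_right, Nat.cast_one, mul_one, sub_self, N2_zero]
          positivity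
        · rw [vv_zero]; push_cast; omega
      · exact ⟨_, hx 1, by norm_num; omega⟩
      · refine ⟨_, hx 2, ?_⟩
        have : Nat.log 2 2 = 1 := by norm_num
        rw [this]; push_cast; omega
      · exact absurd rfl hne
    · refine ⟨_, hx j, ?_⟩
      have := H.hj' j hj h4
      push_cast
      omega

theorem classA_re {n m : ℕ} (H : HypA n) (hn : n = 2 * m) (hm : ¬ 2 ∣ m) {q : ℕ} (hq : q ≤ n)
    (hqm : q ≠ m) : f n q q ≠ 0 := by
  by_cases h2 : 2 ∣ q
  · exact classA_re_even H h2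
  · apply f_ne_of_rev hq hq
    subst hn
    rcases Nat.lt_or_ge q m with h | h
    · obtain ⟨y, rfl⟩ := Nat.exists_eq_add_of_lt h
      have := classA_re_odd_aux (M := q) (y := y + 1) (by rw [← add_assoc]; exact H) h2
        (by omega) (by omega)
      rw [← add_assoc] at this
      rw [show 2 * (q + y + 1) - q = q + 2 * (y + 1) by omega]
      exact this
    · obtain ⟨y, hy⟩ := Nat.exists_eq_add_of_le (show 2 * m - q ≤ m by omega)
      have e1 : 2 * m - q + 2 * y = q := by omega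
      have := classA_re_odd_aux (M := 2 * m - q) (y := y) (by rw [← hy]; exact H) (by omega)
        (by omega) (by omega)
      rw [← hy, e1, f_symm] at this
      exact this

/-- hypotheses on the valuations for `n = 0 mod 4` -/
structure HypB (n : ℕ) : Prop where
  h1 : vv n 1 = 2 ∨ vv n 1 = 3
  h2 : vv n 2 + 1 ≤ vv n 1
  h3 : vv n 3 ≤ 6
  hj : ∀ j ≤ n, 4 ≤ j → vv n j < j
  hj' : ∀ j ≤ n, 2 ≤ j → j ≠ 5 → vv n j + Nat.log 2 j + 2 ≤ vv n 1 + j
  h5 : 5 ≤ n → vv n 5 + 3 ≤ vv n 1 + 5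

theorem classB_re_odd {n : ℕ} (H : HypB n) (hn : 1 ≤ n) {q : ℕ} (hq : ¬ 2 ∣ q) : f n q q ≠ 0 := by
  rw [f_eq]
  refine dom (fun j => (q.choose j : ℚ) * (q.choose j : ℚ)) one_pos ((vv n 1 : ℤ) - 1)
    (j₀ := 1) hn ?_ ?_
  · simp only [Nat.choose_one_right]
    rw [N2_mul, N2_odd hq]
    simp
  · intro j hj hne
    refine ⟨0, by rw [one_mul]; exact N2_prod_le _ _ _, ?_⟩
    have h1 := H.h1
    rcases Nat.eq_zero_or_pos j with h0 | h0
    · subst h0; rw [vv_zero]; push_cast; omega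
    · by_cases h5 : j = 5
      · subst h5
        have := H.h5 hj
        push_cast; omega
      · have := H.hj' j hj (by omega) h5
        push_cast; omega

theorem choose_two_even {q : ℕ} (hq : 4 ∣ q) : 2 ∣ q.choose 2 := by
  obtain ⟨s, rfl⟩ := hq
  have h2 := Nat.choose_succ_right_eq (4 * s) 1
  rw [Nat.choose_one_right] at h2
  norm_num at h2
  have h3 : (4 * s).choose 2 * 2 = (2 * (s * (4 * s - 1))) * 2 := by rw [h2]; ring
  exact ⟨_, Nat.eq_of_mul_eq_mul_right (by norm_num) h3⟩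

theorem classB_re_even {n : ℕ} (H : HypB n) {q : ℕ} (hq : 2 ∣ q)
    (h : vv n 1 = 2 ∨ 4 ∣ q) : f n q q ≠ 0 := by
  refine dom0 fun j hj hj1 => ?_
  have h1 := H.h1
  rcases Nat.lt_or_ge j 4 with h4 | h4
  · interval_cases j
    · by_cases hq4 : 4 ∣ q
      · refine ⟨-(4 : ℕ), N2_prod_dvd ?_, ?_⟩
        · rw [Nat.choose_one_right]
          exact mul_dvd_mul (a := 4) (c := 4) hq4 hq4
        · push_cast; omega
      · refine ⟨-(2 : ℕ), N2_prod_dvd ?_, ?_⟩
        · rw [Nat.choose_one_right, pow_two]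
          exact mul_dvd_mul hq hq
        · have := h.resolve_right hq4
          push_cast; omega
    · have h2 := H.h2
      by_cases hq4 : 4 ∣ q
      · refine ⟨-(2 : ℕ), N2_prod_dvd ?_, ?_⟩
        · rw [pow_two]
          exact mul_dvd_mul (choose_two_even hq4) (choose_two_even hq4)
        · push_cast; omega
      · refine ⟨0, N2_prod_le _ _ _, ?_⟩
        have := h.resolve_right hq4
        push_cast; omega
    · refine ⟨-(4 : ℕ), N2_prod_dvd ?_, ?_⟩
      · exact mul_dvd_mul (a := 4) (c := 4) (four_dvd_choose_three hq) (four_dvd_choose_three hq)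
      · have := H.h3; push_cast; omega
  · exact ⟨0, N2_prod_le _ _ _, by have := H.hj j hj h4; omega⟩

/-- the case of three terms of norm one -/
theorem classB_re_special {n n' q' : ℕ} (H : HypB n) (hn : n = 8 * n') (hn' : ¬ 2 ∣ n') : f n (2 * q') (2 * q') ≠ 0 := by
  rw [f_eq]
  set F : ℕ → ℚ := fun j => (-2) ^ j * (((2 * q').choose j : ℚ) * ((2 * q').choose j : ℚ)) /
      (n.choose j : ℚ) with hF
  have hn2 : 2 ≤ n := by omega
  have hsum : ∑ j ∈ range (n + 1), F j =
      ∑ j ∈ range (n + 1), (if j = 1 then F 1 + F 2 else if j = 2 then 0 else F j) := by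
    have m1 : 1 ∈ range (n + 1) := Finset.mem_range.2 (by omega)
    have m2 : 2 ∈ (range (n + 1)).erase 1 :=
      Finset.mem_erase.2 ⟨by norm_num, Finset.mem_range.2 (by omega)⟩
    rw [← Finset.add_sum_erase _ _ m1, ← Finset.add_sum_erase _ _ m2,
      ← Finset.add_sum_erase (range (n + 1)) _ m1, ← Finset.add_sum_erase ((range (n + 1)).erase 1) _ m2]
    simp only [if_true, if_neg (show ¬ (2 : ℕ) = 1 by norm_num)]
    rw [zero_add, ← add_assoc]
    congr 1
    refine Finset.sum_congr rfl fun j hj => ?_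
    have h1 := Finset.ne_of_mem_erase hj
    have h2 := Finset.ne_of_mem_erase (Finset.mem_of_mem_erase hj)
    rw [if_neg h2, if_neg h1]
  rw [hsum]
  refine sum_ne_zero_of_dom (j₀ := 0) (Finset.mem_range.2 (by omega)) one_pos ?_ ?_
  · simp [hF, N2]
  · intro j hj hne
    have hj' : j ≤ n := Nat.lt_succ_iff.1 (Finset.mem_range.1 hj)
    by_cases h1 : j = 1
    · rw [if_pos h1]
      -- the sum of the terms one and two
      have hN0 : (n' : ℚ) ≠ 0 := by
        intro h; apply hn'; have : n' = 0 := by exact_mod_cast h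
        rw [this]; exact dvd_zero 2
      have hpos : 1 ≤ n' := by
        rcases Nat.eq_zero_or_pos n' with h | h
        · rw [h] at hn'; exact absurd (dvd_zero 2) hn'
        · exact h
      have h8 : ((8 * n' - 1 : ℕ) : ℚ) = 8 * (n' : ℚ) - 1 := by
        rw [Nat.cast_sub (by omega)]; push_cast; ring
      have h8' : ((8 * n' - 1 : ℕ) : ℚ) ≠ 0 := by
        have : 8 * n' - 1 ≠ 0 := by omega
        exact_mod_cast this
      have hkey : (F 1 + F 2) * ((n' * (8 * n' - 1) : ℕ) : ℚ) =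
          ((2 * (q' ^ 2 * (2 * q' ^ 2 - 2 * q' + 1 - 4 * n')) : ℤ) : ℚ) := by
        simp only [hF, Nat.choose_one_right]
        rw [hn, Nat.cast_choose_two, Nat.cast_choose_two]
        push_cast [h8]
        rw [h8] at h8'
        field_simp
        ring
      have h2 := congrArg N2 hkey
      rw [N2_mul] at h2
      have h3 : N2 ((n' * (8 * n' - 1) : ℕ) : ℚ) = 1 := by
        apply N2_odd
        rw [Nat.Prime.dvd_mul Nat.prime_two]
        omega
      rw [h3, mul_one] at h2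
      rw [h2]
      exact (padicNorm.int_lt_one_iff _).2 ⟨_, rfl⟩
    · rw [if_neg h1]
      by_cases h2 : j = 2
      · rw [if_pos h2, N2_zero]; exact one_pos
      · rw [if_neg h2]
        have h3 : 3 ≤ j := by omega
        have key : ∀ B : ℤ, N2 (((2 * q').choose j : ℚ) * ((2 * q').choose j : ℚ)) ≤ (2 : ℚ) ^ B →
            B + vv n j < j → N2 (F j) < 1 := by
          intro B hB hlt
          have := N2_term_lt (c := 1) (e := 0) hj' one_pos (by rw [one_mul]; exact hB)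
            (by rw [zero_add]; exact hlt)
          rw [one_mul, zpow_zero] at this
          exact this
        rcases Nat.lt_or_ge j 4 with h4 | h4
        · obtain rfl : j = 3 := by omega
          refine key (-(4 : ℕ)) (N2_prod_dvd ?_) ?_
          · exact mul_dvd_mul (a := 4) (c := 4) (four_dvd_choose_three ⟨q', rfl⟩)
              (four_dvd_choose_three ⟨q', rfl⟩)
          · have := H.h3; push_cast; omega
        · exact key 0 (N2_prod_le _ _ _) (by have := H.hj j hj' h4; omega)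

theorem choose_four_cast (n : ℕ) :
    (n.choose 4 : ℚ) = n * (n - 1) * (n - 2) * (n - 3) / 24 := by
  induction n with
  | zero => simp
  | succ n ih =>
    rw [Nat.choose_succ_succ' n 3]
    push_cast
    rw [ih, choose_three_cast]
    ring

theorem choose_five_cast (n : ℕ) :
    (n.choose 5 : ℚ) = n * (n - 1) * (n - 2) * (n - 3) * (n - 4) / 120 := by
  induction n with
  | zero => simp
  | succ n ih =>
    rw [Nat.choose_succ_succ' n 4]
    push_cast
    rw [ih, choose_four_cast]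
    ring

theorem N2_diff_five {a m : ℕ} (ha : 2 ∣ a) (hm : 2 ∣ m) :
    N2 ((a.choose 5 : ℚ) - (m.choose 5 : ℚ)) ≤ N2 ((a : ℚ) - m) * 2 := by
  obtain ⟨x, rfl⟩ := ha
  obtain ⟨y, rfl⟩ := hm
  have hkey : ((15 : ℕ) : ℚ) * (((2 * x).choose 5 : ℚ) - ((2 * y).choose 5 : ℚ)) =
      ((x : ℚ) - y) * ((4 * ((x : ℤ) ^ 4 + x ^ 3 * y + x ^ 2 * y ^ 2 + x * y ^ 3 + y ^ 4) -
        20 * (x ^ 3 + x ^ 2 * y + x * y ^ 2 + y ^ 3) + 35 * (x ^ 2 + x * y + y ^ 2) -
        25 * (x + y) + 6 : ℤ) : ℚ) := by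
    rw [choose_five_cast, choose_five_cast]
    push_cast
    ring
  have h1 := congrArg N2 hkey
  rw [N2_mul, N2_mul, N2_odd (by norm_num), one_mul] at h1
  have h2 : N2 (((2 * x : ℕ) : ℚ) - ((2 * y : ℕ) : ℚ)) * 2 = N2 ((x : ℚ) - y) := by
    have : ((2 * x : ℕ) : ℚ) - ((2 * y : ℕ) : ℚ) = ((2 : ℕ) : ℚ) * ((x : ℚ) - y) := by
      push_cast; ring
    rw [this, N2_mul, N2_nat (by norm_num)]
    have : padicValNat 2 2 = 1 := by simp
    rw [this]; norm_num
    ring
  rw [h1, h2]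
  calc _ ≤ N2 ((x : ℚ) - y) * 1 :=
        mul_le_mul_of_nonneg_left (padicNorm.of_int _) (N2_nonneg _)
    _ = _ := mul_one _

theorem classB_im {n m a b : ℕ} (H : HypB n) (hn : n = 2 * m) (hn1 : 1 ≤ n) (hm : 2 ∣ m)
    (ha : 2 ∣ a) (hab : a + b = 2 * m + 1) (ham : a ≠ m) : f n a b ≠ 0 := by
  have hmid : f n m (m + 1) = 0 := by
    subst hn
    refine f_mid ?_ (by omega)
    rw [← Nat.not_even_iff_odd, even_iff_two_dvd]
    omega
  rw [f_sub hmid]
  have haq : (a : ℚ) - m ≠ 0 := by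
    intro h
    apply ham
    have : (a : ℚ) = m := by linarith
    exact_mod_cast this
  set c : ℚ := N2 ((a : ℚ) - m) with hc
  have hc0 : 0 < c := N2_pos haq
  have hb : (b : ℚ) - ((m + 1 : ℕ) : ℚ) = -((a : ℚ) - m) := by
    have : (a : ℚ) + b = 2 * m + 1 := by exact_mod_cast hab
    push_cast
    linarith
  have hcb : N2 ((b : ℚ) - ((m + 1 : ℕ) : ℚ)) = c := by rw [hb, N2, padicNorm.neg]
  have hsplit : ∀ j, (a.choose j : ℚ) * (b.choose j : ℚ) -
      (m.choose j : ℚ) * ((m + 1).choose j : ℚ) =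
      ((a.choose j : ℚ) - (m.choose j : ℚ)) * (b.choose j : ℚ) +
        (m.choose j : ℚ) * ((b.choose j : ℚ) - ((m + 1).choose j : ℚ)) := fun j => by ring
  have hx : ∀ j, N2 ((a.choose j : ℚ) * (b.choose j : ℚ) -
      (m.choose j : ℚ) * ((m + 1).choose j : ℚ)) ≤ c * (2 : ℚ) ^ ((Nat.log 2 j : ℕ) : ℤ) := by
    intro j
    rw [hsplit, zpow_natCast]
    refine N2_add_le ?_ ?_
    · rw [N2_mul]
      calc _ ≤ (c * 2 ^ (Nat.log 2 j)) * 1 :=
            mul_le_mul (N2_diff a m j) (N2_nat_le _) (N2_nonneg _) (by positivity)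
        _ = _ := mul_one _
    · rw [N2_mul]
      calc _ ≤ 1 * (c * 2 ^ (Nat.log 2 j)) :=
            mul_le_mul (N2_nat_le _) (hcb ▸ N2_diff b (m + 1) j) (N2_nonneg _) (by norm_num)
        _ = _ := one_mul _
  refine dom (fun j => (a.choose j : ℚ) * (b.choose j : ℚ) -
      (m.choose j : ℚ) * ((m + 1).choose j : ℚ)) hc0 ((vv n 1 : ℤ) - 1) (j₀ := 1) hn1 ?_ ?_
  · simp only [Nat.choose_one_right]
    have h1 : (a : ℚ) * b - m * ((m + 1 : ℕ) : ℚ) =
        -(((a : ℚ) - m) * (((a : ℤ) - m - 1 : ℤ) : ℚ)) := by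
      have : (b : ℚ) = 2 * m + 1 - a := by
        have : (a : ℚ) + b = 2 * m + 1 := by exact_mod_cast hab
        linarith
      rw [this]
      push_cast
      ring
    have h2 : N2 ((((a : ℤ) - m - 1 : ℤ)) : ℚ) = 1 := by
      apply N2_int_odd
      omega
    rw [h1, N2, padicNorm.neg, ← N2, N2_mul, h2, mul_one, ← hc]
    simp
  · intro j hj hne
    have h1 := H.h1
    rcases Nat.eq_zero_or_pos j with h0 | h0
    · subst h0
      refine ⟨0, ?_, by rw [vv_zero]; push_cast; omega⟩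
      simp only [Nat.choose_zero_right, Nat.cast_one, mul_one, sub_self, N2_zero]
      positivity
    · by_cases h5 : j = 5
      · subst h5
        refine ⟨1, ?_, by have := H.h5 hj; push_cast; omega⟩
        show N2 ((a.choose 5 : ℚ) * (b.choose 5 : ℚ) -
          (m.choose 5 : ℚ) * ((m + 1).choose 5 : ℚ)) ≤ c * (2 : ℚ) ^ (1 : ℤ)
        rw [hsplit, zpow_one]
        refine N2_add_le ?_ ?_
        · rw [N2_mul]
          calc _ ≤ (c * 2) * 1 :=
                mul_le_mul (N2_diff_five ha hm) (N2_nat_le _) (N2_nonneg _) (by positivity)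
            _ = _ := mul_one _
        · rw [N2_mul]
          have h6 : N2 (m.choose 5 : ℚ) ≤ 1 / 2 := by
            have h7 : 2 ∣ m.choose 5 := by
              cases m with
              | zero => exact dvd_zero 2
              | succ m =>
                have h8 := Nat.add_one_mul_choose_eq m 4
                have h9 : 2 ∣ (m + 1).choose 5 * 5 := by
                  rw [show (4 : ℕ) + 1 = 5 by norm_num] at h8
                  rw [← h8]
                  exact Dvd.dvd.mul_right hm _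
                exact Nat.Coprime.dvd_of_dvd_mul_right (by norm_num) h9
            have := N2_dvd (m := m.choose 5) (e := 1) (by rw [pow_one]; exact h7)
            refine this.trans ?_
            norm_num
          have h7 : Nat.log 2 5 = 2 := by decide
          have h8 := N2_diff b (m + 1) 5
          rw [h7, hcb] at h8
          calc _ ≤ (1 / 2) * (c * 2 ^ 2) := mul_le_mul h6 h8 (N2_nonneg _) (by norm_num)
            _ = c * 2 := by ring
      · refine ⟨_, hx j, ?_⟩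
        have := H.hj' j hj (by omega) h5
        push_cast
        omega

end Pool.Agent.Lib.MP_0d3661_nt
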