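import Pool.Agent.Lib.MP_0d3661_nt.Amp

/-!
The integer arrays are coefficients of `(1+X)^(n-q) (1-X)^q`; expansion in powers of `-2`.
-/

namespace Pool.Agent.Lib.MP_0d3661_nt

open Finset Polynomial

/-- the coefficient of `X^k` in `(1+X)^(n-q) (1-X)^q` -/
noncomputable def V (n q k : ℕ) : ℤ := ((1 + X) ^ (n - q) * (1 - X) ^ q : ℤ[X]).coeff k

theorem V_succ_succ (n q k : ℕ) : V (n + 1) (q + 1) (k + 1) = V n q (k + 1) - V n q k := by
  unfold V
  rw [Nat.add_sub_add_right, pow_succ (1 - X : ℤ[X]) q, ← mul_assoc, mul_sub, mul_one, coeff_sub,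
    coeff_mul_X]

theorem V_succ_left {n q : ℕ} (h : q ≤ n) (k : ℕ) : V (n + 1) q (k + 1) = V n q (k + 1) + V n q k := by
  unfold V
  have : (1 + X : ℤ[X]) ^ (n + 1 - q) * (1 - X) ^ q = (1 + X) ^ (n - q) * (1 - X) ^ q * (1 + X) := by
    rw [Nat.sub_add_comm h, pow_succ]; ring
  rw [this, mul_add, mul_one, coeff_add, coeff_mul_X]

theorem V_zero (n q : ℕ) : V n q 0 = 1 := by
  unfold V
  rw [coeff_zero_eq_eval_zero]
  simp

theorem rl_zero (m : ℕ) : rl m 0 = (1, 0) := by
  induction m with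
  | zero => simp [rl]
  | succ m ih => simp [rl, ih]

theorem rl_big (m : ℕ) : ∀ k, m < k → rl m k = (0, 0) := by
  induction m with
  | zero => intro k hk; simp [rl]; omega
  | succ m ih =>
    intro k hk
    cases k with
    | zero => omega
    | succ k => simp [rl, ih (k + 1) (by omega), ih k (by omega)]

theorem V_top (n : ℕ) : V n n (n + 1) = 0 := by
  unfold V
  apply coeff_eq_zero_of_natDegree_lt
  refine lt_of_le_of_lt (natDegree_mul_le) ?_
  rw [Nat.sub_self, pow_zero, natDegree_one, zero_add]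
  refine lt_of_le_of_lt natDegree_pow_le ?_
  have : (1 - X : ℤ[X]).natDegree ≤ 1 := by
    refine (natDegree_sub_le _ _).trans ?_
    simp
  nlinarith

theorem rl_eq (n : ℕ) : ∀ q ≤ n, (rl (n + 1) (q + 1)).2 = (-1) ^ q * V n q q ∧
    (rl (n + 1) (q + 1)).1 = (-1) ^ (q + 1) * V n q (q + 1) := by
  induction n with
  | zero =>
    intro q hq
    obtain rfl : q = 0 := by omega
    rw [V_zero, V_top]
    simp [rl]
  | succ n ih =>
    intro q hq
    constructor
    · cases q with
      | zero =>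
        rw [V_zero]
        simp only [rl]
        rw [rl_zero]
        simp
      | succ q =>
        have h := ih q (by omega)
        have : (rl (n + 1 + 1) (q + 1 + 1)).2 = (rl (n + 1) (q + 1)).1 + (rl (n + 1) (q + 1)).2 := by
          simp only [rl]
        rw [this, h.1, h.2, V_succ_succ]
        ring
    · rw [rl_fst_succ]
      rcases Nat.lt_or_ge n q with h | h
      · obtain rfl : q = n + 1 := by omega
        rw [rl_big _ _ (by omega), V_top]
        simp
      · have h' := ih q h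
        rw [h'.1, h'.2, V_succ_left h]
        ring

/-- expansion in powers of `-2` -/
theorem V_expand {n q : ℕ} (hq : q ≤ n) (k : ℕ) :
    V n q k = ∑ j ∈ range (q + 1), (-2) ^ j * (q.choose j : ℤ) *
      (if j ≤ k then ((n - j).choose (k - j) : ℤ) else 0) := by
  unfold V
  have h1 : (1 - X : ℤ[X]) ^ q = ∑ j ∈ range (q + 1),
      (-2 * X) ^ j * (1 + X) ^ (q - j) * (q.choose j : ℤ[X]) := by
    have : (1 - X : ℤ[X]) = (-2 * X) + (1 + X) := by ring
    rw [this, add_pow]
  rw [h1, Finset.mul_sum, finsetSum_coeff]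
  refine Finset.sum_congr rfl fun j hj => ?_
  have hj' : j ≤ q := Nat.lt_succ_iff.1 (Finset.mem_range.1 hj)
  have h2 : (1 + X : ℤ[X]) ^ (n - q) * ((-2 * X) ^ j * (1 + X) ^ (q - j) * (q.choose j : ℤ[X]))
      = C ((-2) ^ j * (q.choose j : ℤ)) * ((1 + X) ^ (n - j) * X ^ j) := by
    have : n - j = (n - q) + (q - j) := by omega
    rw [this, pow_add, mul_pow]
    simp only [map_mul, map_pow, map_neg, map_natCast]
    have : (C 2 : ℤ[X]) = 2 := rfl
    rw [this]
    ring
  rw [h2, coeff_C_mul, coeff_mul_X_pow']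
  by_cases hjk : j ≤ k
  · rw [if_pos hjk, if_pos hjk, coeff_one_add_X_pow]
  · rw [if_neg hjk, if_neg hjk]

/-- the normalised sum -/
noncomputable def f (n q k : ℕ) : ℚ :=
  ∑ j ∈ range (n + 1), (-2) ^ j * (q.choose j : ℚ) * (k.choose j : ℚ) / (n.choose j : ℚ)

theorem V_eq_f {n q k : ℕ} (hq : q ≤ n) :
    (V n q k : ℚ) = (n.choose k : ℚ) * f n q k := by
  rw [V_expand hq, f, Finset.mul_sum]
  push_cast
  rw [← Finset.sum_subset (Finset.range_subset_range.2 (Nat.succ_le_succ hq))]
  · refine Finset.sum_congr rfl fun j hj => ?_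
    have hj' : j ≤ q := Nat.lt_succ_iff.1 (Finset.mem_range.1 hj)
    have hn : (n.choose j : ℚ) ≠ 0 := by
      exact_mod_cast (Nat.choose_pos (hj'.trans hq)).ne'
    by_cases hjk : j ≤ k
    · rw [if_pos hjk]
      have h1 : (n.choose k * k.choose j : ℚ) = n.choose j * (n - j).choose (k - j) := by
        exact_mod_cast Nat.choose_mul hjk
      rw [mul_div_assoc', eq_div_iff hn]
      linear_combination (-(-2) ^ j * (q.choose j : ℚ)) * h1
    · rw [if_neg hjk, Nat.choose_eq_zero_of_lt (not_le.1 hjk)]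
      simp
  · intro j _ hj
    rw [Finset.mem_range, not_lt] at hj
    rw [Nat.choose_eq_zero_of_lt (by omega : q < j)]
    simp

end Pool.Agent.Lib.MP_0d3661_nt
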