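import Pool.Agent.Lib.MP_0d3661_nt.Zeros

/-!
Assembly of the four residue classes.
-/

namespace Pool.Agent.Lib.MP_0d3661_nt

open Finset

theorem f_small {n r k : ℕ} (hn : 3 ≤ n) (hr : r ≤ 3) : f n r k =
    ∑ j ∈ range 4, (-2) ^ j * (r.choose j : ℚ) * (k.choose j : ℚ) / (n.choose j : ℚ) := by
  unfold f
  symm
  refine Finset.sum_subset (Finset.range_subset_range.2 (by omega)) ?_
  intro j _ hj
  rw [Finset.mem_range, not_lt] at hj
  rw [Nat.choose_eq_zero_of_lt (by omega : r < j)]
  simp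

theorem choose_two_q (n : ℕ) : (n.choose 2 : ℚ) = n * (n - 1) / 2 := by
  have h := prod_range_sub n 2
  rw [Finset.prod_range_succ, Finset.prod_range_succ, Finset.prod_range_zero] at h
  have h' : ((1 : ℚ) * ((n : ℚ) - (0 : ℕ)) * ((n : ℚ) - (1 : ℕ))) = (Nat.factorial 2 : ℚ) * n.choose 2 := by
    exact_mod_cast congrArg (Int.cast : ℤ → ℚ) h
  have e : (Nat.factorial 2 : ℚ) = 2 := by norm_num [Nat.factorial]
  rw [e] at h'
  push_cast at h'
  linarith

theorem choose_three_q (n : ℕ) : (n.choose 3 : ℚ) = n * (n - 1) * (n - 2) / 6 := by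
  have h := prod_range_sub n 3
  rw [Finset.prod_range_succ, Finset.prod_range_succ, Finset.prod_range_succ,
    Finset.prod_range_zero] at h
  have h' : ((1 : ℚ) * ((n : ℚ) - (0 : ℕ)) * ((n : ℚ) - (1 : ℕ)) * ((n : ℚ) - (2 : ℕ))) =
      (Nat.factorial 3 : ℚ) * n.choose 3 := by
    exact_mod_cast congrArg (Int.cast : ℤ → ℚ) h
  have e : (Nat.factorial 3 : ℚ) = 6 := by norm_num [Nat.factorial]
  rw [e] at h'
  push_cast at h'
  linarith

/-- the base values -/
theorem base {n : ℕ} (hn : 10 ≤ n) (δ : ℕ) (hδ : δ < 2) (r : ℕ) (hr : r < 4) :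
    ∃ (A : ℤ) (B : ℕ), A ≠ 0 ∧ |A| ≤ (n : ℤ) ^ r ∧ (B : ℚ) * f n r (r + δ) = A := by
  have hnq : (10 : ℚ) ≤ n := by exact_mod_cast hn
  have hnz : (10 : ℤ) ≤ n := by exact_mod_cast hn
  have h0 : (n : ℚ) ≠ 0 := by positivity
  have h1 : (n : ℚ) - 1 ≠ 0 := by
    have : (0 : ℚ) < n - 1 := by linarith
    exact this.ne'
  have h2 : (n : ℚ) - 2 ≠ 0 := by
    have : (0 : ℚ) < n - 2 := by linarith
    exact this.ne'
  have c1 : ((n - 1 : ℕ) : ℚ) = (n : ℚ) - 1 := by
    rw [Nat.cast_sub (by omega)]; simp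
  have c2 : ((n - 2 : ℕ) : ℚ) = (n : ℚ) - 2 := by
    rw [Nat.cast_sub (by omega)]; simp
  have hf := @f_small n r (r + δ) (by omega) (by omega)
  rw [Finset.sum_range_succ, Finset.sum_range_succ, Finset.sum_range_succ, Finset.sum_range_succ,
    Finset.sum_range_zero, Nat.choose_zero_right, Nat.choose_zero_right, Nat.choose_zero_right,
    Nat.choose_one_right, Nat.choose_one_right, Nat.choose_one_right, choose_two_q n,
    choose_three_q n] at hf
  interval_cases r <;> interval_cases δ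
  · exact ⟨1, 1, by norm_num, by simp, by rw [hf]; norm_num [Nat.choose]⟩
  · exact ⟨1, 1, by norm_num, by simp, by rw [hf]; norm_num [Nat.choose]⟩
  · refine ⟨(n : ℤ) - 2, n, by omega, by rw [abs_of_pos (by omega)]; simp, ?_⟩
    rw [hf]
    norm_num [Nat.choose]
    field_simp
    ring
  · refine ⟨(n : ℤ) - 4, n, by omega, by rw [abs_of_pos (by omega)]; simp, ?_⟩
    rw [hf]
    norm_num [Nat.choose]
    field_simp
    ring
  · refine ⟨(n : ℤ) ^ 2 - 9 * n + 16, n * (n - 1), by nlinarith, ?_, ?_⟩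
    · rw [abs_le]; constructor <;> nlinarith
    · rw [hf]
      norm_num [Nat.choose, c1]
      field_simp
      ring
  · refine ⟨(n : ℤ) ^ 2 - 13 * n + 36, n * (n - 1), ?_, ?_, ?_⟩
    · have : (n : ℤ) ^ 2 - 13 * n + 36 = (n - 4) * (n - 9) := by ring
      rw [this]
      exact mul_ne_zero (by omega) (by omega)
    · rw [abs_le]; constructor <;> nlinarith
    · rw [hf]
      norm_num [Nat.choose, c1]
      field_simp
      ring
  · refine ⟨(n : ℤ) ^ 3 - 21 * n ^ 2 + 128 * n - 228, n * (n - 1) * (n - 2), ?_, ?_, ?_⟩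
    · have : (n : ℤ) ^ 3 - 21 * n ^ 2 + 128 * n - 228 = (n - 6) * (n ^ 2 - 15 * n + 38) := by ring
      rw [this]
      refine mul_ne_zero (by omega) ?_
      rcases Nat.lt_or_ge n 12 with h | h
      · interval_cases n <;> norm_num
      · have : (12 : ℤ) ≤ n := by exact_mod_cast h
        nlinarith
    · rw [abs_le]
      constructor
      · nlinarith [mul_nonneg (by omega : (0 : ℤ) ≤ n) (sq_nonneg ((4 : ℤ) * n - 21))]
      · nlinarith [sq_nonneg ((42 : ℤ) * n - 128)]
    · rw [hf]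
      norm_num [Nat.choose, c1, c2]
      field_simp
      ring
  · refine ⟨(n : ℤ) ^ 3 - 27 * n ^ 2 + 218 * n - 528, n * (n - 1) * (n - 2), ?_, ?_, ?_⟩
    · have : (n : ℤ) ^ 3 - 27 * n ^ 2 + 218 * n - 528 = (n - 8) * (n ^ 2 - 19 * n + 66) := by ring
      rw [this]
      refine mul_ne_zero (by omega) ?_
      rcases Nat.lt_or_ge n 15 with h | h
      · interval_cases n <;> norm_num
      · have : (15 : ℤ) ≤ n := by exact_mod_cast h
        nlinarith
    · rw [abs_le]
      constructor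
      · nlinarith [mul_nonneg (by omega : (0 : ℤ) ≤ n) (sq_nonneg ((4 : ℤ) * n - 27))]
      · nlinarith [sq_nonneg ((54 : ℤ) * n - 218)]
    · rw [hf]
      norm_num [Nat.choose, c1, c2]
      field_simp
      ring

/-- number of zeros on one line -/
theorem count_zeros {n : ℕ} (hn : 10 ≤ n) (δ : ℕ) (hδ : δ < 2) :
    2 ^ ((range n).filter fun q => V n q (q + δ) = 0).card ≤ n ^ 10 := by
  set Z := (range n).filter fun q => V n q (q + δ) = 0 with hZ
  have hf : ∀ q ∈ Z, f n q (q + δ) = 0 := by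
    intro q hq
    rw [hZ, Finset.mem_filter, Finset.mem_range] at hq
    have h := V_eq_f (n := n) (q := q) (k := q + δ) hq.1.le
    rw [hq.2] at h
    have hc : (n.choose (q + δ) : ℚ) ≠ 0 := by
      exact_mod_cast (Nat.choose_pos (by omega : q + δ ≤ n)).ne'
    have := h.symm
    rw [Int.cast_zero] at this
    exact (mul_eq_zero.1 this).resolve_left hc
  have hclass : ∀ r ∈ range 4, 2 ^ (Z.filter fun q => q % 4 = r).card ≤ n * n ^ r := by
    intro r hr
    rw [Finset.mem_range] at hr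
    obtain ⟨A, B, hA, hAb, hBf⟩ := base hn δ hδ r hr
    have h := class_bound A B hA hBf (Z.filter fun q => q % 4 = r) (by
      intro q hq
      rw [Finset.mem_filter] at hq
      refine ⟨?_, hf q hq.1⟩
      rw [Int.ModEq]
      have := hq.2
      omega)
    have h2 : (2 : ℤ) ^ Nat.log 2 n ≤ n := by
      exact_mod_cast Nat.pow_log_le_self 2 (by omega)
    have h3 : (2 : ℤ) ^ (Z.filter fun q => q % 4 = r).card ≤ n * (n : ℤ) ^ r := by
      refine h.trans ?_
      exact mul_le_mul h2 hAb (abs_nonneg _) (by positivity)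
    exact_mod_cast h3
  have hcard : Z.card = ∑ r ∈ range 4, (Z.filter fun q => q % 4 = r).card :=
    Finset.card_eq_sum_card_fiberwise (f := fun q => q % 4) (t := range 4)
      (fun q _ => by simp; omega)
  rw [hcard, ← Finset.prod_pow_eq_pow_sum]
  refine (Finset.prod_le_prod' hclass).trans (le_of_eq ?_)
  simp only [Finset.prod_range_succ, Finset.prod_range_zero]
  ring

theorem count_zeros' {n : ℕ} (hn : 1 ≤ n) (δ : ℕ) (hδ : δ < 2) :
    2 ^ ((range n).filter fun q => V n q (q + δ) = 0).card ≤ (n + 2) ^ 10 := by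
  rcases Nat.lt_or_ge n 10 with h | h
  · have h1 : ((range n).filter fun q => V n q (q + δ) = 0).card ≤ n := by
      refine (Finset.card_filter_le _ _).trans ?_
      simp
    refine (Nat.pow_le_pow_right (by norm_num) h1).trans ?_
    interval_cases n <;> norm_num
  · exact (count_zeros h δ hδ).trans (Nat.pow_le_pow_left (by omega) 10)

end Pool.Agent.Lib.MP_0d3661_nt
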