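import Pool.Agent.Lib.MP_0d3661_nt.ClassesEven

/-!
2-adic valuations of binomial coefficients `n.choose j` from the binary digits of `n`, and the
arithmetic conditions on `n` which imply the hypotheses of the non-vanishing theorems.
-/

namespace Pool.Agent.Lib.MP_0d3661_nt

open Finset

theorem carry_iff {n k P : ℕ} (hk : k ≤ n) (hP : 0 < P) :
    P ≤ k % P + (n - k) % P ↔ n % P < k % P := by
  have h1 : n % P = (k % P + (n - k) % P) % P := by
    rw [← Nat.add_mod]
    congr 1
    omega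
  have hx := Nat.mod_lt k hP
  have hy := Nat.mod_lt (n - k) hP
  generalize k % P = x at *
  generalize (n - k) % P = y at *
  generalize n % P = z at *
  rcases Nat.lt_or_ge (x + y) P with h | h
  · rw [Nat.mod_eq_of_lt h] at h1
    omega
  · have h2 : (x + y) % P = x + y - P := by
      rw [Nat.mod_eq_sub_mod h, Nat.mod_eq_of_lt (by omega)]
    rw [h2] at h1
    omega

theorem vv_eq {n j b : ℕ} (hj : j ≤ n) (hb : Nat.log 2 n < b) :
    vv n j = ((Ico 1 b).filter fun i => n % 2 ^ i < j % 2 ^ i).card := by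
  unfold vv
  rw [padicValNat_choose hj hb]
  congr 1
  ext i
  rw [Finset.mem_filter, Finset.mem_filter, carry_iff hj (by positivity)]

/-- carries at the seven lowest positions -/
def cc (r j : ℕ) : ℕ :=
  (if r % 2 < j % 2 then 1 else 0) + (if r % 4 < j % 4 then 1 else 0) +
  (if r % 8 < j % 8 then 1 else 0) + (if r % 16 < j % 16 then 1 else 0) +
  (if r % 32 < j % 32 then 1 else 0) + (if r % 64 < j % 64 then 1 else 0) +
  (if r % 128 < j % 128 then 1 else 0)

theorem card_low (n j : ℕ) :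
    ((Ico 1 8).filter fun i => n % 2 ^ i < j % 2 ^ i).card = cc (n % 128) j := by
  rw [Finset.card_filter, Finset.sum_Ico_eq_sum_range]
  simp only [Finset.sum_range_succ, Finset.sum_range_zero]
  unfold cc
  rw [Nat.mod_mod_of_dvd n (show 2 ∣ 128 by norm_num),
    Nat.mod_mod_of_dvd n (show 4 ∣ 128 by norm_num),
    Nat.mod_mod_of_dvd n (show 8 ∣ 128 by norm_num),
    Nat.mod_mod_of_dvd n (show 16 ∣ 128 by norm_num),
    Nat.mod_mod_of_dvd n (show 32 ∣ 128 by norm_num),
    Nat.mod_mod_of_dvd n (show 64 ∣ 128 by norm_num),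
    Nat.mod_mod_of_dvd n (show 128 ∣ 128 by norm_num)]
  norm_num

/-- no long blocks of zeros in the binary expansion -/
def ZZ (n : ℕ) : Prop := ∀ a, 7 ≤ a → 2 ^ a ≤ n → (n / 2 ^ a) % 2 ^ a ≠ 0

theorem carry_le {n j a i : ℕ} (hn : ZZ n) (ha : 7 ≤ a) (hj : j ≤ n) (hja : j < 2 ^ a)
    (h : n % 2 ^ i < j % 2 ^ i) : i < 2 * a := by
  by_contra hi
  push Not at hi
  have h1 : n % 2 ^ i < 2 ^ a := h.trans_le ((Nat.mod_le _ _).trans hja.le)
  have h2 : 2 ^ a ≤ n := by
    by_contra hlt
    push Not at hlt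
    have h3 : n % 2 ^ i = n := Nat.mod_eq_of_lt (hlt.trans_le (Nat.pow_le_pow_right (by norm_num)
      (by omega)))
    rw [h3] at h
    have := Nat.mod_le j (2 ^ i)
    omega
  apply hn a ha h2
  have h4 : (n / 2 ^ a) % 2 ^ a = n % (2 ^ a * 2 ^ a) / 2 ^ a := by
    rw [Nat.mod_mul_right_div_self]
  rw [h4]
  apply Nat.div_eq_of_lt
  have h5 : 2 ^ a * 2 ^ a ∣ 2 ^ i := by
    rw [← pow_add]
    exact pow_dvd_pow 2 (by omega)
  have h6 : n % (2 ^ a * 2 ^ a) = (n % 2 ^ i) % (2 ^ a * 2 ^ a) :=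
    (Nat.mod_mod_of_dvd n h5).symm
  rw [h6]
  exact (Nat.mod_le _ _).trans_lt h1

theorem split_card (n j b : ℕ) (hb : 8 ≤ b) :
    ((Ico 1 b).filter fun i => n % 2 ^ i < j % 2 ^ i).card =
      cc (n % 128) j + ((Ico 8 b).filter fun i => n % 2 ^ i < j % 2 ^ i).card := by
  rw [← card_low, ← Finset.Ico_union_Ico_eq_Ico (show 1 ≤ 8 by norm_num) hb,
    Finset.filter_union, Finset.card_union_of_disjoint]
  exact Finset.disjoint_filter_filter (Finset.Ico_disjoint_Ico_consecutive 1 8 b)

/-- valuations for `j ≤ n % 128` -/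
theorem vv_small {n j : ℕ} (hj : j ≤ n % 128) : vv n j = cc (n % 128) j := by
  have hjn : j ≤ n := hj.trans (Nat.mod_le _ _)
  rw [vv_eq (b := Nat.log 2 n + 8) hjn (by omega), split_card n j _ (by omega)]
  have h0 : ((Ico 8 (Nat.log 2 n + 8)).filter fun i => n % 2 ^ i < j % 2 ^ i) = ∅ := by
    rw [Finset.filter_eq_empty_iff]
    intro i hi
    rw [Finset.mem_Ico] at hi
    have h1 : (n % 2 ^ i) % 128 = n % 128 :=
      Nat.mod_mod_of_dvd n (show 2 ^ 7 ∣ 2 ^ i from pow_dvd_pow 2 (by omega))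
    have h2 := Nat.mod_le (n % 2 ^ i) 128
    have h3 := Nat.mod_le j (2 ^ i)
    omega
  rw [h0, Finset.card_empty, add_zero]

/-- valuations for `j < 128` -/
theorem vv_mid {n j : ℕ} (hn : ZZ n) (hj : j ≤ n) (hj' : j < 128) :
    vv n j ≤ cc (n % 128) j + 6 := by
  rw [vv_eq (b := Nat.log 2 n + 8) hj (by omega), split_card n j _ (by omega)]
  have h0 : ((Ico 8 (Nat.log 2 n + 8)).filter fun i => n % 2 ^ i < j % 2 ^ i) ⊆ Ico 8 14 := by
    intro i hi
    rw [Finset.mem_filter, Finset.mem_Ico] at hi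
    have := carry_le (a := 7) hn le_rfl hj (by norm_num; exact hj') hi.2
    rw [Finset.mem_Ico]
    omega
  have h1 := Finset.card_le_card h0
  rw [Nat.card_Ico] at h1
  omega

/-- valuations for large `j` -/
theorem vv_large {n j : ℕ} (hn : ZZ n) (hj : j ≤ n) (hj' : 128 ≤ j) :
    vv n j ≤ 2 * Nat.log 2 j + 1 := by
  rw [vv_eq (b := Nat.log 2 n + 8) hj (by omega)]
  have hL : 7 ≤ Nat.log 2 j := by
    have := Nat.log_mono_right (b := 2) hj'
    have h7 : Nat.log 2 128 = 7 := by
      rw [show (128 : ℕ) = 2 ^ 7 by norm_num, Nat.log_pow (by norm_num)]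
    omega
  have h0 : ((Ico 1 (Nat.log 2 n + 8)).filter fun i => n % 2 ^ i < j % 2 ^ i) ⊆
      Ico 1 (2 * Nat.log 2 j + 2) := by
    intro i hi
    rw [Finset.mem_filter, Finset.mem_Ico] at hi
    have := carry_le (a := Nat.log 2 j + 1) hn (by omega) hj
      (Nat.lt_pow_succ_log_self (by norm_num) j) hi.2
    rw [Finset.mem_Ico]
    omega
  have h1 := Finset.card_le_card h0
  rw [Nat.card_Ico] at h1
  omega

theorem log_bound {j : ℕ} (hj : 128 ≤ j) : 4 * Nat.log 2 j + 3 ≤ j := by
  have hL : 7 ≤ Nat.log 2 j := by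
    have := Nat.log_mono_right (b := 2) hj
    have h7 : Nat.log 2 128 = 7 := by
      rw [show (128 : ℕ) = 2 ^ 7 by norm_num, Nat.log_pow (by norm_num)]
    omega
  have h1 : ∀ L, 7 ≤ L → 4 * L + 3 ≤ 2 ^ L := by
    intro L hL
    induction L, hL using Nat.le_induction with
    | base => norm_num
    | succ L hL ih => rw [pow_succ]; omega
  exact (h1 _ hL).trans (Nat.pow_log_le_self 2 (by omega))

/-! ### the residues modulo 128 -/

/-- upper bound of the valuation -/
def ub (r j : ℕ) : ℕ := cc r j + if r < j then 6 else 0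

/-- upper bound of the binary logarithm for `j < 128` -/
def lg (j : ℕ) : ℕ :=
  if j < 2 then 0 else if j < 4 then 1 else if j < 8 then 2 else if j < 16 then 3 else
    if j < 32 then 4 else if j < 64 then 5 else 6

theorem log_le_lg {j : ℕ} (h0 : 1 ≤ j) (hj : j < 128) : Nat.log 2 j ≤ lg j := by
  unfold lg
  split_ifs with h1 h2 h3 h4 h5 h6
  · have := Nat.log_lt_of_lt_pow (b := 2) (x := 1) (by omega : j ≠ 0) (by norm_num; omega); omega
  · have := Nat.log_lt_of_lt_pow (b := 2) (x := 2) (by omega : j ≠ 0) (by norm_num; omega); omega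
  · have := Nat.log_lt_of_lt_pow (b := 2) (x := 3) (by omega : j ≠ 0) (by norm_num; omega); omega
  · have := Nat.log_lt_of_lt_pow (b := 2) (x := 4) (by omega : j ≠ 0) (by norm_num; omega); omega
  · have := Nat.log_lt_of_lt_pow (b := 2) (x := 5) (by omega : j ≠ 0) (by norm_num; omega); omega
  · have := Nat.log_lt_of_lt_pow (b := 2) (x := 6) (by omega : j ≠ 0) (by norm_num; omega); omega
  · have := Nat.log_lt_of_lt_pow (b := 2) (x := 7) (by omega : j ≠ 0) (by norm_num; omega); omega

/-- the conditions for odd residues -/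
def goodO (r : ℕ) : Bool :=
  (r % 2 == 1) && (List.range 128).all fun j => (j == 0) || Nat.blt (ub r j) j

/-- the conditions for residues `2 mod 4` -/
def goodA (r : ℕ) : Bool :=
  (r % 4 == 2) && Nat.ble 3 r && Nat.ble (cc r 1) 1 && (cc r 2 == 0) && Nat.ble 2 (cc r 3) &&
    Nat.ble (cc r 3) 4 &&
  (List.range 128).all fun j => Nat.blt j 4 ||
    (Nat.blt (ub r j) j && Nat.ble (ub r j + 2 * lg j + 2) (cc r 3 + j))

/-- the conditions for residues `0 mod 4` -/
def goodB (r : ℕ) : Bool :=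
  (r % 4 == 0) && Nat.ble 3 r && ((cc r 1 == 2) || (cc r 1 == 3)) &&
    Nat.ble (cc r 2 + 1) (cc r 1) && Nat.ble (cc r 3) 6 && Nat.ble (ub r 5 + 3) (cc r 1 + 5) &&
  (List.range 128).all fun j => (Nat.blt j 4 || Nat.blt (ub r j) j) &&
    (Nat.blt j 2 || (j == 5) || Nat.ble (ub r j + lg j + 2) (cc r 1 + j))

/-- good residues -/
def good (r : ℕ) : Bool := goodO r || goodA r || goodB r

theorem good_count : ((List.range 128).filter good).length = 80 := by
  decide +kernel

theorem vv_le_ub {n j : ℕ} (hn : ZZ n) (hj : j ≤ n) (hj' : j < 128) :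
    vv n j ≤ ub (n % 128) j := by
  unfold ub
  split_ifs with h
  · exact vv_mid hn hj hj'
  · rw [vv_small (not_lt.1 h)]
    omega

theorem hypO_of {n : ℕ} (hn : ZZ n) (hg : goodO (n % 128) = true) :
    ∀ j ≤ n, 1 ≤ j → vv n j < j := by
  intro j hj hj1
  rcases Nat.lt_or_ge j 128 with h | h
  · unfold goodO at hg
    rw [Bool.and_eq_true, List.all_eq_true] at hg
    have h1 := hg.2 j (List.mem_range.2 h)
    rw [Bool.or_eq_true] at h1
    rcases h1 with h1 | h1
    · rw [beq_iff_eq] at h1; omega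
    · rw [Nat.blt_eq] at h1
      exact (vv_le_ub hn hj h).trans_lt h1
  · have h1 := vv_large hn hj h
    have h2 := log_bound h
    omega

theorem hypA_of {n : ℕ} (hn : ZZ n) (hg : goodA (n % 128) = true) : HypA n ∧ n % 4 = 2 := by
  unfold goodA at hg
  simp only [Bool.and_eq_true, List.all_eq_true, beq_iff_eq, Nat.ble_eq, Bool.or_eq_true,
    Nat.blt_eq, List.mem_range] at hg
  obtain ⟨⟨⟨⟨⟨⟨g1, g2⟩, g3⟩, g4⟩, g5⟩, g6⟩, g7⟩ := hg
  have e1 : vv n 1 = cc (n % 128) 1 := vv_small (by omega)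
  have e2 : vv n 2 = cc (n % 128) 2 := vv_small (by omega)
  have e3 : vv n 3 = cc (n % 128) 3 := vv_small (by omega)
  refine ⟨⟨g2.trans (Nat.mod_le _ _), by omega, by omega, by omega, by omega, ?_, ?_⟩, by omega⟩
  · intro j hj hj4
    rcases Nat.lt_or_ge j 128 with h | h
    · have h1 := (g7 j h).resolve_left (by omega)
      exact (vv_le_ub hn hj h).trans_lt h1.1
    · have h1 := vv_large hn hj h
      have h2 := log_bound h
      omega
  · intro j hj hj4
    rcases Nat.lt_or_ge j 128 with h | h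
    · have h1 := (g7 j h).resolve_left (by omega)
      have h2 := vv_le_ub hn hj h
      have h3 := log_le_lg (by omega) h
      omega
    · have h1 := vv_large hn hj h
      have h2 := log_bound h
      omega

theorem hypB_of {n : ℕ} (hn : ZZ n) (hg : goodB (n % 128) = true) :
    HypB n ∧ n % 4 = 0 ∧ 3 ≤ n := by
  unfold goodB at hg
  simp only [Bool.and_eq_true, List.all_eq_true, beq_iff_eq, Nat.ble_eq, Bool.or_eq_true,
    Nat.blt_eq, List.mem_range] at hg
  obtain ⟨⟨⟨⟨⟨⟨g1, g2⟩, g3⟩, g4⟩, g5⟩, g6⟩, g7⟩ := hg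
  have e1 : vv n 1 = cc (n % 128) 1 := vv_small (by omega)
  have e2 : vv n 2 = cc (n % 128) 2 := vv_small (by omega)
  have e3 : vv n 3 = cc (n % 128) 3 := vv_small (by omega)
  refine ⟨⟨by omega, by omega, by omega, ?_, ?_, ?_⟩, by omega, g2.trans (Nat.mod_le _ _)⟩
  · intro j hj hj4
    rcases Nat.lt_or_ge j 128 with h | h
    · have h1 := (g7 j h).1.resolve_left (by omega)
      exact (vv_le_ub hn hj h).trans_lt h1
    · have h1 := vv_large hn hj h
      have h2 := log_bound h
      omega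
  · intro j hj hj2 hj5
    rcases Nat.lt_or_ge j 128 with h | h
    · have h1 := (g7 j h).2.resolve_left (by omega)
      have h2 := vv_le_ub hn hj h
      have h3 := log_le_lg (by omega) h
      omega
    · have h1 := vv_large hn hj h
      have h2 := log_bound h
      omega
  · intro h5
    have := vv_le_ub hn h5 (by norm_num)
    omega

/-- the main non-vanishing theorem -/
theorem V_ne_zero {n : ℕ} (hn : ZZ n) (hg : good (n % 128) = true) {q : ℕ} (hq : q ≤ n)
    (h0 : 2 * q ≠ n) :
    V n q q ≠ 0 ∧ (2 * (q + 1) ≠ n → q + 1 ≤ n → V n q (q + 1) ≠ 0) := by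
  unfold good at hg
  rw [Bool.or_eq_true, Bool.or_eq_true] at hg
  rcases hg with (hg | hg) | hg
  · have H := hypO_of hn hg
    exact ⟨V_ne_of_f hq hq (class_odd H _ _), fun _ h => V_ne_of_f hq h (class_odd H _ _)⟩
  · obtain ⟨H, h4⟩ := hypA_of hn hg
    refine ⟨V_ne_of_f hq hq ?_, fun _ h => V_ne_of_f hq h (classA_im H q)⟩
    exact classA_re H (m := n / 2) (by omega) (by omega) hq (by omega)
  · obtain ⟨H, h4, h3⟩ := hypB_of hn hg
    refine ⟨V_ne_of_f hq hq ?_, fun h1 h => V_ne_of_f hq h ?_⟩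
    · by_cases h2 : 2 ∣ q
      · rcases H.h1 with h5 | h5
        · exact classB_re_even H h2 (Or.inl h5)
        · obtain ⟨q', rfl⟩ := h2
          have h8 : padicValNat 2 n = 3 := by
            rw [vv, Nat.choose_one_right] at h5
            exact h5
          have hd : 2 ^ 3 ∣ n := h8 ▸ pow_padicValNat_dvd
          have hnd : ¬ 2 ^ (3 + 1) ∣ n := by
            rw [← h8]
            exact pow_succ_padicValNat_not_dvd (by omega)
          exact classB_re_special H (n' := n / 8) (by omega) (by omega)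
      · exact classB_re_odd H (by omega) h2
    · apply f_ne_of_rev hq h
      by_cases h2 : 2 ∣ q
      · exact classB_im H (m := n / 2) (by omega) (by omega) (by omega) (by omega) (by omega)
          (by omega)
      · rw [f_symm]
        exact classB_im H (m := n / 2) (by omega) (by omega) (by omega) (by omega) (by omega)
          (by omega)

end Pool.Agent.Lib.MP_0d3661_nt
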