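import Pool.Agent.Lib.MP_0d3661_nt.Coeff

/-!
2-adic norms of binomial coefficients, their first and second differences, and the terms of the
normalised sum `f`.
-/

namespace Pool.Agent.Lib.MP_0d3661_nt

open Finset

/-- the 2-adic valuation of `n.choose j` -/
noncomputable def vv (n j : ℕ) : ℕ := padicValNat 2 (n.choose j)

/-- 2-adic norm -/
noncomputable abbrev N2 (x : ℚ) : ℚ := padicNorm 2 x

theorem N2_nat {m : ℕ} (hm : m ≠ 0) : N2 (m : ℚ) = (2 : ℚ) ^ (-(padicValNat 2 m : ℤ)) := by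
  unfold N2
  rw [padicNorm.eq_zpow_of_nonzero (by exact_mod_cast hm)]
  simp [padicValRat.of_nat]

theorem N2_choose {n j : ℕ} (hj : j ≤ n) : N2 (n.choose j : ℚ) = (2 : ℚ) ^ (-(vv n j : ℤ)) :=
  N2_nat (Nat.choose_pos hj).ne'

theorem N2_neg_two_pow (j : ℕ) : N2 ((-2) ^ j : ℚ) = (2 : ℚ) ^ (-(j : ℤ)) := by
  have h : ((-2 : ℚ)) ^ j = (-1) ^ j * ((2 ^ j : ℕ) : ℚ) := by
    push_cast
    rw [← mul_pow]
    norm_num
  have h1 : N2 ((-1 : ℚ) ^ j) = 1 := by
    rcases neg_one_pow_eq_or ℚ j with h | h <;> rw [h]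
    · exact padicNorm.one
    · rw [N2, padicNorm.neg]; exact padicNorm.one
  rw [h, N2, padicNorm.mul]
  rw [show padicNorm 2 ((-1 : ℚ) ^ j) = 1 from h1, one_mul]
  have h2 := N2_nat (m := 2 ^ j) (by positivity)
  rw [N2] at h2
  rw [h2]
  simp

theorem N2_term {n j : ℕ} (hj : j ≤ n) (x : ℚ) :
    N2 ((-2) ^ j * x / (n.choose j : ℚ)) = N2 x * (2 : ℚ) ^ ((vv n j : ℤ) - j) := by
  have h1 := N2_neg_two_pow j
  have h2 := N2_choose hj
  unfold N2 at *
  rw [padicNorm.div, padicNorm.mul, h1, h2, zpow_neg, zpow_neg, zpow_sub₀ (by norm_num)]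
  field_simp

/-- the norm of one term, upper bound -/
theorem N2_term_lt {n j : ℕ} (hj : j ≤ n) {x c : ℚ} {B e : ℤ} (hc : 0 < c)
    (hx : N2 x ≤ c * (2 : ℚ) ^ B) (h : B + vv n j < e + j) :
    N2 ((-2) ^ j * x / (n.choose j : ℚ)) < c * (2 : ℚ) ^ e := by
  rw [N2_term hj]
  calc N2 x * (2 : ℚ) ^ ((vv n j : ℤ) - j) ≤ c * (2 : ℚ) ^ B * (2 : ℚ) ^ ((vv n j : ℤ) - j) :=
        mul_le_mul_of_nonneg_right hx (by positivity)
    _ = c * (2 : ℚ) ^ (B + ((vv n j : ℤ) - j)) := by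
        rw [mul_assoc, ← zpow_add₀ (by norm_num)]
    _ < c * (2 : ℚ) ^ e := by
        refine mul_lt_mul_of_pos_left ?_ hc
        exact zpow_lt_zpow_right₀ (by norm_num) (by omega)

/-- a sum with a dominating term does not vanish -/
theorem sum_ne_zero_of_dom {s : Finset ℕ} {F : ℕ → ℚ} {j₀ : ℕ} (h0 : j₀ ∈ s) {c : ℚ} (hc : 0 < c)
    (h1 : N2 (F j₀) = c) (h2 : ∀ j ∈ s, j ≠ j₀ → N2 (F j) < c) : ∑ j ∈ s, F j ≠ 0 := by
  intro h
  rw [← Finset.add_sum_erase s F h0] at h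
  have h3 : N2 (∑ j ∈ s.erase j₀, F j) < c := by
    refine padicNorm.sum_lt' (fun j hj => ?_) hc
    exact h2 j (Finset.mem_of_mem_erase hj) (Finset.ne_of_mem_erase hj)
  have h4 : F j₀ = -∑ j ∈ s.erase j₀, F j := by linarith
  rw [h4, N2, padicNorm.neg] at h1
  exact absurd h1 (ne_of_lt h3)

theorem N2_nonneg (x : ℚ) : 0 ≤ N2 x := padicNorm.nonneg x

theorem N2_pos {x : ℚ} (hx : x ≠ 0) : 0 < N2 x :=
  lt_of_le_of_ne (N2_nonneg x) (Ne.symm (padicNorm.nonzero hx))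

theorem N2_mul (x y : ℚ) : N2 (x * y) = N2 x * N2 y := padicNorm.mul x y

theorem N2_nat_le (m : ℕ) : N2 (m : ℚ) ≤ 1 := padicNorm.of_nat m

theorem N2_add_le {x y c : ℚ} (hx : N2 x ≤ c) (hy : N2 y ≤ c) : N2 (x + y) ≤ c :=
  padicNorm.nonarchimedean.trans (max_le hx hy)

theorem N2_sub_le {x y c : ℚ} (hx : N2 x ≤ c) (hy : N2 y ≤ c) : N2 (x - y) ≤ c :=
  padicNorm.sub.trans (max_le hx hy)

theorem N2_choose_le (y l : ℕ) (hl : l ≠ 0) :
    N2 (y.choose l : ℚ) ≤ N2 (y : ℚ) * 2 ^ (Nat.log 2 l) := by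
  obtain ⟨l, rfl⟩ := Nat.exists_eq_succ_of_ne_zero hl
  cases y with
  | zero =>
    rw [Nat.choose_zero_succ]
    simp [N2]
  | succ y =>
    have h1 : ((y + 1 : ℕ) : ℚ) * (y.choose l : ℚ) =
        ((y + 1).choose (l + 1) : ℚ) * ((l + 1 : ℕ) : ℚ) := by
      exact_mod_cast Nat.add_one_mul_choose_eq y l
    have h2 := congrArg N2 h1
    rw [N2_mul, N2_mul] at h2
    have h3 : (2 : ℚ) ^ (-(Nat.log 2 (l + 1) : ℤ)) ≤ N2 ((l + 1 : ℕ) : ℚ) := by
      rw [N2_nat (by omega)]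
      apply zpow_le_zpow_right₀ (by norm_num)
      have := padicValNat_le_nat_log (p := 2) (l + 1)
      omega
    have h4 : N2 ((y + 1).choose (l + 1) : ℚ) * (2 : ℚ) ^ (-(Nat.log 2 (l + 1) : ℤ)) ≤
        N2 ((y + 1 : ℕ) : ℚ) := by
      calc _ ≤ N2 ((y + 1).choose (l + 1) : ℚ) * N2 ((l + 1 : ℕ) : ℚ) :=
            mul_le_mul_of_nonneg_left h3 (N2_nonneg _)
        _ = N2 ((y + 1 : ℕ) : ℚ) * N2 (y.choose l : ℚ) := h2.symm
        _ ≤ N2 ((y + 1 : ℕ) : ℚ) * 1 := mul_le_mul_of_nonneg_left (N2_nat_le _) (N2_nonneg _)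
        _ = _ := mul_one _
    rw [zpow_neg, zpow_natCast, ← div_eq_mul_inv, div_le_iff₀ (by positivity)] at h4
    exact h4

/-- first differences -/
theorem N2_diff_add (Q w j : ℕ) :
    N2 (((Q + w).choose j : ℚ) - (Q.choose j : ℚ)) ≤ N2 (w : ℚ) * 2 ^ (Nat.log 2 j) := by
  have h1 : ((Q + w).choose j : ℚ) =
      ∑ ij ∈ antidiagonal j, (Q.choose ij.1 : ℚ) * (w.choose ij.2 : ℚ) := by
    exact_mod_cast Nat.add_choose_eq Q w j
  have h2 : (Q.choose j : ℚ) = (Q.choose (j, 0).1 : ℚ) * (w.choose (j, 0).2 : ℚ) := by simp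
  have h3 : (j, 0) ∈ antidiagonal j := by simp
  rw [h1, h2, ← Finset.add_sum_erase _ _ h3, add_sub_cancel_left]
  refine padicNorm.sum_le' (fun ij hij => ?_) (mul_nonneg (N2_nonneg _) (by positivity))
  obtain ⟨h4, h5⟩ := Finset.mem_erase.1 hij
  rw [HasAntidiagonal.mem_antidiagonal] at h5
  have h6 : ij.2 ≠ 0 := by
    intro h
    apply h4
    ext
    · simp; omega
    · simp [h]
  rw [← N2, N2_mul]
  calc N2 (Q.choose ij.1 : ℚ) * N2 (w.choose ij.2 : ℚ)
      ≤ 1 * (N2 (w : ℚ) * 2 ^ (Nat.log 2 ij.2)) :=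
        mul_le_mul (N2_nat_le _) (N2_choose_le w _ h6) (N2_nonneg _) (by norm_num)
    _ = N2 (w : ℚ) * 2 ^ (Nat.log 2 ij.2) := one_mul _
    _ ≤ N2 (w : ℚ) * 2 ^ (Nat.log 2 j) := by
        refine mul_le_mul_of_nonneg_left ?_ (N2_nonneg _)
        exact pow_le_pow_right₀ (by norm_num) (Nat.log_mono_right (by omega))

/-- second differences -/
theorem N2_second (M y j : ℕ) :
    N2 (((M + 2 * y).choose j : ℚ) * (M.choose j : ℚ) - ((M + y).choose j : ℚ) ^ 2) ≤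
      N2 (y : ℚ) ^ 2 * 2 ^ (2 * Nat.log 2 j) := by
  have hnn : 0 ≤ N2 (y : ℚ) ^ 2 * 2 ^ (2 * Nat.log 2 j) :=
    mul_nonneg (pow_nonneg (N2_nonneg _) 2) (by positivity)
  -- binomial of a double
  have h2y : ∀ i : ℕ, i ≤ j → N2 (((2 * y).choose i : ℚ) - 2 * (y.choose i : ℚ) +
      (if i = 0 then 1 else 0)) ≤ N2 (y : ℚ) ^ 2 * 2 ^ (2 * Nat.log 2 j) := by
    intro i hi
    by_cases h0 : i = 0
    · subst h0
      simp only [Nat.choose_zero_right, if_true]
      norm_num [N2]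
      exact pow_nonneg (padicNorm.nonneg _) 2
    · rw [if_neg h0, add_zero]
      have h1 : ((2 * y).choose i : ℚ) =
          ∑ ij ∈ antidiagonal i, (y.choose ij.1 : ℚ) * (y.choose ij.2 : ℚ) := by
        rw [two_mul]
        exact_mod_cast Nat.add_choose_eq y y i
      have h3 : (i, 0) ∈ antidiagonal i := by simp
      have h4 : (0, i) ∈ (antidiagonal i).erase (i, 0) := by
        rw [Finset.mem_erase]
        refine ⟨?_, by simp⟩
        intro h
        exact h0 (Prod.ext_iff.1 h).2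
      rw [h1, ← Finset.add_sum_erase _ _ h3, ← Finset.add_sum_erase _ _ h4]
      simp only [Nat.choose_zero_right, Nat.cast_one, mul_one, one_mul]
      have h5 : ∀ S : ℚ, (y.choose i : ℚ) + ((y.choose i : ℚ) + S) - 2 * (y.choose i : ℚ) = S :=
        fun S => by ring
      rw [h5]
      refine padicNorm.sum_le' (fun ij hij => ?_) hnn
      obtain ⟨h6, h7⟩ := Finset.mem_erase.1 hij
      obtain ⟨h8, h9⟩ := Finset.mem_erase.1 h7
      rw [HasAntidiagonal.mem_antidiagonal] at h9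
      have h10 : ij.2 ≠ 0 := by
        intro h
        apply h8
        ext
        · simp; omega
        · simp [h]
      have h11 : ij.1 ≠ 0 := by
        intro h
        apply h6
        ext
        · simp [h]
        · simp; omega
      rw [← N2, N2_mul]
      calc N2 (y.choose ij.1 : ℚ) * N2 (y.choose ij.2 : ℚ)
          ≤ (N2 (y : ℚ) * 2 ^ (Nat.log 2 ij.1)) * (N2 (y : ℚ) * 2 ^ (Nat.log 2 ij.2)) :=
            mul_le_mul (N2_choose_le y _ h11) (N2_choose_le y _ h10) (N2_nonneg _)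
              (mul_nonneg (N2_nonneg _) (by positivity))
        _ = N2 (y : ℚ) ^ 2 * 2 ^ (Nat.log 2 ij.1 + Nat.log 2 ij.2) := by
            rw [pow_add]; ring
        _ ≤ N2 (y : ℚ) ^ 2 * 2 ^ (2 * Nat.log 2 j) := by
            refine mul_le_mul_of_nonneg_left ?_ (pow_nonneg (N2_nonneg _) 2)
            refine pow_le_pow_right₀ (by norm_num) ?_
            have e1 : Nat.log 2 ij.1 ≤ Nat.log 2 j := Nat.log_mono_right (by omega)
            have e2 : Nat.log 2 ij.2 ≤ Nat.log 2 j := Nat.log_mono_right (by omega)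
            omega
  -- the second difference
  have hA2 : N2 (((M + 2 * y).choose j : ℚ) - 2 * ((M + y).choose j : ℚ) + (M.choose j : ℚ)) ≤
      N2 (y : ℚ) ^ 2 * 2 ^ (2 * Nat.log 2 j) := by
    have e1 : ((M + 2 * y).choose j : ℚ) =
        ∑ ij ∈ antidiagonal j, (M.choose ij.1 : ℚ) * ((2 * y).choose ij.2 : ℚ) := by
      exact_mod_cast Nat.add_choose_eq M (2 * y) j
    have e2 : ((M + y).choose j : ℚ) =
        ∑ ij ∈ antidiagonal j, (M.choose ij.1 : ℚ) * (y.choose ij.2 : ℚ) := by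
      exact_mod_cast Nat.add_choose_eq M y j
    have e3 : (M.choose j : ℚ) =
        ∑ ij ∈ antidiagonal j, (M.choose ij.1 : ℚ) * (if ij.2 = 0 then 1 else 0) := by
      rw [← Finset.add_sum_erase (antidiagonal j) _ (show (j, 0) ∈ antidiagonal j by simp)]
      rw [Finset.sum_eq_zero]
      · simp
      · intro ij hij
        obtain ⟨h4, h5⟩ := Finset.mem_erase.1 hij
        rw [HasAntidiagonal.mem_antidiagonal] at h5
        have h6 : ij.2 ≠ 0 := by
          intro h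
          apply h4
          ext
          · simp; omega
          · simp [h]
        rw [if_neg h6, mul_zero]
    rw [e1, e2, e3, Finset.mul_sum, ← Finset.sum_sub_distrib, ← Finset.sum_add_distrib]
    refine padicNorm.sum_le' (fun ij hij => ?_) hnn
    rw [HasAntidiagonal.mem_antidiagonal] at hij
    have e4 : (M.choose ij.1 : ℚ) * ((2 * y).choose ij.2 : ℚ) - 2 * ((M.choose ij.1 : ℚ) *
        (y.choose ij.2 : ℚ)) + (M.choose ij.1 : ℚ) * (if ij.2 = 0 then 1 else 0) =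
        (M.choose ij.1 : ℚ) * (((2 * y).choose ij.2 : ℚ) - 2 * (y.choose ij.2 : ℚ) +
          (if ij.2 = 0 then 1 else 0)) := by ring
    rw [e4, ← N2, N2_mul]
    calc _ ≤ 1 * (N2 (y : ℚ) ^ 2 * 2 ^ (2 * Nat.log 2 j)) :=
          mul_le_mul (N2_nat_le _) (h2y _ (by omega)) (N2_nonneg _) (by norm_num)
      _ = _ := one_mul _
  have hD := N2_diff_add M y j
  have e5 : ((M + 2 * y).choose j : ℚ) * (M.choose j : ℚ) - ((M + y).choose j : ℚ) ^ 2 =
      (M.choose j : ℚ) * (((M + 2 * y).choose j : ℚ) - 2 * ((M + y).choose j : ℚ) +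
        (M.choose j : ℚ)) - (((M + y).choose j : ℚ) - (M.choose j : ℚ)) ^ 2 := by ring
  rw [e5]
  refine N2_sub_le ?_ ?_
  · rw [N2_mul]
    calc _ ≤ 1 * (N2 (y : ℚ) ^ 2 * 2 ^ (2 * Nat.log 2 j)) :=
          mul_le_mul (N2_nat_le _) hA2 (N2_nonneg _) (by norm_num)
      _ = _ := one_mul _
  · rw [sq, N2_mul]
    calc _ ≤ (N2 (y : ℚ) * 2 ^ (Nat.log 2 j)) * (N2 (y : ℚ) * 2 ^ (Nat.log 2 j)) :=
          mul_le_mul hD hD (N2_nonneg _) (mul_nonneg (N2_nonneg _) (by positivity))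
      _ = _ := by rw [two_mul, pow_add]; ring

end Pool.Agent.Lib.MP_0d3661_nt
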