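import Pool.Agent.Lib.MP_0d3661_nt.Sums

/-!
Feynman checkers: along a line `(t - x) / 2 = const` the pair (real part, imaginary part) turns
monotonically against the uniform rotation by `π / 4` per step; as long as the accumulated angle is
below `π / 4` no coordinate vanishes.
-/

namespace Pool.Agent.Lib.MP_0d3661_nt

open Finset

/-- The four shapes of the pair, with scale `c` and slope `r`. -/
def Shape (j : ℕ) (c r u v : ℝ) : Prop :=
  (j = 0 ∧ u = c ∧ v = -(c * r)) ∨ (j = 1 ∧ u = c * (1 + r) ∧ v = c * (1 - r)) ∨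
  (j = 2 ∧ u = c * r ∧ v = c) ∨ (j = 3 ∧ u = c * (r - 1) ∧ v = c * (1 + r))

/-- The correction used to average the speed over four steps. -/
noncomputable def wt (j : ℕ) (x : ℝ) : ℝ := if j = 1 ∨ j = 2 then x else 0

theorem wt_nonneg (j : ℕ) {x : ℝ} (hx : 0 ≤ x) : 0 ≤ wt j x := by
  unfold wt
  split_ifs
  · exact hx
  · exact le_rfl

theorem bd0 {B x e r d : ℝ} (hB : 0 ≤ B) (hx : 0 ≤ x) (he0 : 0 ≤ e) (he1 : e < 1)
    (hxe : x = e * (B + x + 1)) (hr : 0 ≤ r) (hr1 : r < 1) (hd : d = e * (1 - r) / 2) :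
    (r + d) / (1 + d) * (B + 1 + (x + 1)) ≤ r * (B + 1 + 0) + (x + 2) := by
  have hd0 : 0 ≤ d := by rw [hd]; apply div_nonneg (mul_nonneg he0 (by linarith)) (by norm_num)
  have hd1 : 0 < 1 + d := by linarith
  have h1r : 0 ≤ 1 - r := by linarith
  have h3 : (r + d) / (1 + d) ≤ r + d * (1 - r) := by
    rw [div_le_iff₀ hd1]
    have h7 : (r + d * (1 - r)) * (1 + d) = r + d + d * d * (1 - r) := by ring
    rw [h7]
    have := mul_nonneg (mul_nonneg hd0 hd0) h1r
    linarith
  have h4 : (r + d) / (1 + d) * (B + 1 + (x + 1)) ≤ (r + d * (1 - r)) * (B + 1 + (x + 1)) :=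
    mul_le_mul_of_nonneg_right h3 (by linarith)
  have h8 : (r + d * (1 - r)) * (B + 1 + (x + 1)) = r * (B + 1) + r * x + r +
      (e * (B + x + 1)) * ((1 - r) * (1 - r)) / 2 + e * ((1 - r) * (1 - r)) / 2 := by
    rw [hd]; ring
  rw [h8, ← hxe] at h4
  have h9 : (1 - r) * (1 - r) ≤ 1 := mul_le_one₀ (by linarith) h1r (by linarith)
  have h10 : e * ((1 - r) * (1 - r)) ≤ 1 * 1 :=
    mul_le_mul he1.le h9 (mul_nonneg h1r h1r) (by norm_num)
  have h11 : 0 ≤ x * (1 - r * r) := by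
    apply mul_nonneg hx
    have : r * r ≤ 1 := mul_le_one₀ hr1.le hr hr1.le
    linarith
  have h12 : r * x + x * ((1 - r) * (1 - r)) / 2 = x - x * (1 - r * r) / 2 := by ring
  linarith

theorem bd1 {B x e r : ℝ} (he1 : e < 1) (hxe : x = e * (B + x + 1)) (hr1 : r < 1) :
    (r + e) * (B + 1 + (x + 1)) ≤ r * (B + 1 + x) + (x + 2) := by
  have h8 : (r + e) * (B + 1 + (x + 1)) = r * (B + 1 + x) + r + (e * (B + x + 1)) + e := by ring
  rw [h8, ← hxe]
  linarith

theorem bd2 {B x e r d : ℝ} (hB : 0 ≤ B) (hx : 0 ≤ x) (he0 : 0 ≤ e) (he1 : e < 1)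
    (hxe : x = e * (B + x + 1)) (hr : 0 ≤ r) (hr1 : r < 1) (hd : d = e * (1 + r) / 2) :
    (r + d) / (1 - d) * (B + 1 + 0) ≤ r * (B + 1 + x) + (x + 2) := by
  have hd0 : 0 ≤ d := by rw [hd]; apply div_nonneg (mul_nonneg he0 (by linarith)) (by norm_num)
  have he1' : 0 < 1 - e := by linarith
  have hde : d ≤ e := by
    rw [hd]
    have := mul_nonneg he0 (by linarith : (0 : ℝ) ≤ 1 - r)
    linarith
  have hd1 : 0 < 1 - d := by linarith
  have h3 : (r + d) / (1 - d) = r + d * (1 + r) / (1 - d) := by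
    field_simp; ring
  have h4 : d * (1 + r) / (1 - d) ≤ e * ((1 + r) * (1 + r) / 2) / (1 - e) := by
    apply div_le_div₀ (by positivity) (le_of_eq (by rw [hd]; ring)) he1' (by linarith)
  have h6 : d * (1 + r) / (1 - d) * (B + 1) ≤ x * ((1 + r) * (1 + r) / 2) := by
    have hB1 : B + 1 = (1 - e) * (B + x + 1) := by
      have : (1 - e) * (B + x + 1) = B + x + 1 - e * (B + x + 1) := by ring
      rw [this, ← hxe]; ring
    calc d * (1 + r) / (1 - d) * (B + 1) ≤ e * ((1 + r) * (1 + r) / 2) / (1 - e) * (B + 1) :=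
          mul_le_mul_of_nonneg_right h4 (by linarith)
      _ = (e * (B + x + 1)) * ((1 + r) * (1 + r) / 2) := by
          conv_lhs => rw [hB1]
          field_simp
      _ = x * ((1 + r) * (1 + r) / 2) := by rw [← hxe]
  rw [h3]
  have h11 : 0 ≤ x * (1 - r * r) := by
    apply mul_nonneg hx
    have : r * r ≤ 1 := mul_le_one₀ hr1.le hr hr1.le
    linarith
  have h12 : x * ((1 + r) * (1 + r) / 2) = r * x + x - x * (1 - r * r) / 2 := by ring
  have h13 : (r + d * (1 + r) / (1 - d)) * (B + 1 + 0) =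
      r * (B + 1) + d * (1 + r) / (1 - d) * (B + 1) := by ring
  rw [h13]
  linarith

theorem bd3 {B x e r : ℝ} (hB : 0 ≤ B) (hx : 0 ≤ x) (he0 : 0 ≤ e) (he1 : e < 1)
    (hxe : x = e * (B + x + 1)) (hr : 0 ≤ r) (hr1 : r < 1) :
    r / (1 - e * r) * (B + 1 + 0) ≤ r * (B + 1 + 0) + (x + 2) := by
  have he1' : 0 < 1 - e := by linarith
  have her : e * r ≤ e := by
    have := mul_nonneg he0 (by linarith : (0 : ℝ) ≤ 1 - r)
    linarith
  have hd1 : 0 < 1 - e * r := by linarith
  have h3 : r / (1 - e * r) = r + e * (r * r) / (1 - e * r) := by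
    rw [div_eq_iff hd1.ne', add_mul, div_mul_cancel₀ _ hd1.ne']
    ring
  have h7 : r * r ≤ 1 := mul_le_one₀ hr1.le hr hr1.le
  have h4 : e * (r * r) / (1 - e * r) ≤ e / (1 - e) := by
    apply div_le_div₀ he0 ?_ he1' (by linarith)
    have := mul_nonneg he0 (by linarith : (0 : ℝ) ≤ 1 - r * r)
    linarith
  have h6 : e * (r * r) / (1 - e * r) * (B + 1) ≤ x := by
    have hB1 : B + 1 = (1 - e) * (B + x + 1) := by
      have : (1 - e) * (B + x + 1) = B + x + 1 - e * (B + x + 1) := by ring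
      rw [this, ← hxe]; ring
    calc e * (r * r) / (1 - e * r) * (B + 1) ≤ e / (1 - e) * (B + 1) :=
          mul_le_mul_of_nonneg_right h4 (by linarith)
      _ = e * (B + x + 1) := by
          conv_lhs => rw [hB1]
          field_simp
      _ = x := hxe.symm
  rw [h3]
  have h13 : (r + e * (r * r) / (1 - e * r)) * (B + 1 + 0) =
      r * (B + 1) + e * (r * r) / (1 - e * r) * (B + 1) := by ring
  rw [h13]
  linarith

/-- One step. -/
theorem shape_step {B x : ℝ} (hB : 0 ≤ B) (hx : 0 ≤ x) {j : ℕ} {c r u v u' v' : ℝ} (hc : c ≠ 0)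
    (hr : 0 ≤ r) (hr1 : r < 1) (h : Shape j c r u v)
    (hu : (B + x + 1) * u' = (B + 2 * x + 1) * u - (B + 1) * v) (hv : v' = u + v) :
    ∃ c' r' : ℝ, c' ≠ 0 ∧ r ≤ r' ∧
      r' * (B + 1 + wt ((j + 1) % 4) (x + 1)) ≤ r * (B + 1 + wt j x) + (x + 2) ∧
      (j = 1 → 0 < x → r < r') ∧ (j = 0 → 0 < x → r < r') ∧ Shape ((j + 1) % 4) c' r' u' v' := by
  obtain ⟨e, he0, he1, hxe, hepos⟩ : ∃ e : ℝ, 0 ≤ e ∧ e < 1 ∧ x = e * (B + x + 1) ∧
      (0 < x → 0 < e) := by
    have hDpos : 0 < B + x + 1 := by positivity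
    refine ⟨x / (B + x + 1), div_nonneg hx hDpos.le, ?_, ?_, fun h => div_pos h hDpos⟩
    · rw [div_lt_one hDpos]; linarith
    · field_simp
  have hu' : u' = u - v + e * (u + v) := by
    have hDpos : 0 < B + x + 1 := by positivity
    have h1 : (B + x + 1) * u' = (B + x + 1) * (u - v + e * (u + v)) := by
      rw [hu]
      linear_combination (u + v) * hxe
    exact mul_left_cancel₀ hDpos.ne' h1
  have he1' : 0 < 1 - e := by linarith
  rcases h with ⟨rfl, h1, h2⟩ | ⟨rfl, h1, h2⟩ | ⟨rfl, h1, h2⟩ | ⟨rfl, h1, h2⟩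
  · -- shape 0 to shape 1
    obtain ⟨d, hd⟩ : ∃ d, d = e * (1 - r) / 2 := ⟨_, rfl⟩
    have hd0 : 0 ≤ d := by rw [hd]; apply div_nonneg (mul_nonneg he0 (by linarith)) (by norm_num)
    have hd1 : 0 < 1 + d := by linarith
    refine ⟨c * (1 + d), (r + d) / (1 + d), mul_ne_zero hc hd1.ne', ?_, ?_, by simp, ?_, ?_⟩
    · rw [le_div_iff₀ hd1]; nlinarith
    · have w1 : wt ((0 + 1) % 4) (x + 1) = x + 1 := by simp [wt]
      have w0 : wt 0 x = 0 := by simp [wt]
      rw [w1, w0]
      exact bd0 hB hx he0 he1 hxe hr hr1 hd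
    · intro _ hx0
      have he2 : 0 < e := hepos hx0
      have hd2 : 0 < d := by rw [hd]; apply div_pos (mul_pos he2 (by linarith)) (by norm_num)
      rw [lt_div_iff₀ hd1]; nlinarith
    · right; left
      refine ⟨by norm_num, ?_, ?_⟩
      · rw [hu', h1, h2, mul_assoc, mul_add (1 + d), mul_div_cancel₀ _ hd1.ne', hd]; ring
      · rw [hv, h1, h2, mul_assoc, mul_sub (1 + d), mul_div_cancel₀ _ hd1.ne', hd]; ring
  · -- shape 1 to shape 2
    refine ⟨2 * c, r + e, by simpa using hc, by linarith, ?_, ?_, by simp, ?_⟩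
    · have w1 : wt ((1 + 1) % 4) (x + 1) = x + 1 := by simp [wt]
      have w0 : wt 1 x = x := by simp [wt]
      rw [w1, w0]
      exact bd1 he1 hxe hr1
    · intro _ hx0
      have he2 : 0 < e := hepos hx0
      linarith
    · right; right; left
      refine ⟨by norm_num, ?_, ?_⟩
      · rw [hu', h1, h2]; ring
      · rw [hv, h1, h2]; ring
  · -- shape 2 to shape 3
    obtain ⟨d, hd⟩ : ∃ d, d = e * (1 + r) / 2 := ⟨_, rfl⟩
    have hd0 : 0 ≤ d := by rw [hd]; apply div_nonneg (mul_nonneg he0 (by linarith)) (by norm_num)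
    have hde : d ≤ e := by
      rw [hd]
      have := mul_nonneg he0 (by linarith : (0 : ℝ) ≤ 1 - r)
      linarith
    have hd1 : 0 < 1 - d := by linarith
    refine ⟨c * (1 - d), (r + d) / (1 - d), mul_ne_zero hc hd1.ne', ?_, ?_, by simp, by simp, ?_⟩
    · rw [le_div_iff₀ hd1]; nlinarith
    · have w1 : wt ((2 + 1) % 4) (x + 1) = 0 := by simp [wt]
      have w0 : wt 2 x = x := by simp [wt]
      rw [w1, w0]
      exact bd2 hB hx he0 he1 hxe hr hr1 hd
    · right; right; right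
      refine ⟨by norm_num, ?_, ?_⟩
      · rw [hu', h1, h2, mul_assoc, mul_sub (1 - d), mul_div_cancel₀ _ hd1.ne', hd]; ring
      · rw [hv, h1, h2, mul_assoc, mul_add (1 - d), mul_div_cancel₀ _ hd1.ne', hd]; ring
  · -- shape 3 to shape 0
    have her : e * r ≤ e := by
      have := mul_nonneg he0 (by linarith : (0 : ℝ) ≤ 1 - r)
      linarith
    have hd1 : 0 < 1 - e * r := by linarith
    refine ⟨-2 * c * (1 - e * r), r / (1 - e * r), ?_, ?_, ?_, by simp, by simp, ?_⟩
    · exact mul_ne_zero (mul_ne_zero (by norm_num) hc) hd1.ne'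
    · rw [le_div_iff₀ hd1]
      have := mul_nonneg (mul_nonneg he0 hr) hr
      linarith
    · have w1 : wt ((3 + 1) % 4) (x + 1) = 0 := by simp [wt]
      have w0 : wt 3 x = 0 := by simp [wt]
      rw [w1, w0]
      exact bd3 hB hx he0 he1 hxe hr hr1
    · left
      refine ⟨by norm_num, ?_, ?_⟩
      · rw [hu', h1, h2]; ring
      · rw [hv, h1, h2, mul_assoc, mul_div_cancel₀ _ hd1.ne']; ring

theorem slope_lt {B x r : ℝ} {j : ℕ} (hB : 0 ≤ B) (hx : 0 ≤ x) (hr : 0 ≤ r)
    (h : r * (B + 1 + wt j x) ≤ x * (x + 3) / 2) (h2 : x * (x + 3) < 2 * (B + 1)) : r < 1 := by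
  have h1 := mul_nonneg hr (wt_nonneg j hx)
  have h3 : r * (B + 1) < 1 * (B + 1) := by nlinarith
  exact lt_of_mul_lt_mul_right h3 (by linarith)

/-- The state after `x` steps. -/
theorem shape_all (B : ℕ) (x : ℕ) (hx : x * (x + 3) < 2 * (B + 1)) :
    ∃ (j : ℕ) (c r : ℝ), j = (x + if Even B then 0 else 2) % 4 ∧ c ≠ 0 ∧ 0 ≤ r ∧
      r * ((B : ℝ) + 1 + wt j x) ≤ (x : ℝ) * ((x : ℝ) + 3) / 2 ∧ (3 ≤ x → 0 < r) ∧
      (2 ≤ x → Even B → 0 < r) ∧
      Shape j c r ((S1 (B + x) B : ℤ) : ℝ) ((S2 (B + x) B : ℤ) : ℝ) := by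
  induction x with
  | zero =>
    rcases Nat.even_or_odd B with hB | hB
    · have h1 := S2_diag hB
      have h2 : S1 B B ≠ 0 := by
        rcases S_ne B B with h | h
        · exact h
        · exact absurd h1 h
      refine ⟨0, ((S1 B B : ℤ) : ℝ), 0, by simp [hB], by exact_mod_cast h2, le_rfl, by simp,
        by omega, by omega, ?_⟩
      left
      simp [h1]
    · have h1 := S1_diag hB
      have h2 : S2 B B ≠ 0 := by
        rcases S_ne B B with h | h
        · exact absurd h1 h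
        · exact h
      have hB' : ¬ Even B := Nat.not_even_iff_odd.2 hB
      refine ⟨2, ((S2 B B : ℤ) : ℝ), 0, by simp [hB'], by exact_mod_cast h2, le_rfl, by simp,
        by omega, by omega, ?_⟩
      right; right; left
      simp [h1]
  | succ x ih =>
    have hx' : x * (x + 3) < 2 * (B + 1) := by
      refine lt_of_le_of_lt ?_ hx
      exact Nat.mul_le_mul (by omega) (by omega)
    obtain ⟨j, c, r, hj, hc, hr, hrb, hr3, hr2, hS⟩ := ih hx'
    have hB0 : (0 : ℝ) ≤ B := Nat.cast_nonneg B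
    have hx0 : (0 : ℝ) ≤ x := Nat.cast_nonneg x
    have hxr : (x : ℝ) * ((x : ℝ) + 3) < 2 * ((B : ℝ) + 1) := by exact_mod_cast hx'
    have hr1 : r < 1 := slope_lt hB0 hx0 hr hrb hxr
    have hu := S1_rec (B + x) B
    have hv := S2_succ (B + x) B
    have hu' : ((B : ℝ) + x + 1) * ((S1 (B + (x + 1)) B : ℤ) : ℝ) =
        ((B : ℝ) + 2 * x + 1) * ((S1 (B + x) B : ℤ) : ℝ) -
          ((B : ℝ) + 1) * ((S2 (B + x) B : ℤ) : ℝ) := by
      have h4 : (((B + x : ℕ) : ℝ) + 1) * ((S1 (B + x + 1) B : ℤ) : ℝ) =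
          (2 * ((B + x : ℕ) : ℝ) + 1 - B) * ((S1 (B + x) B : ℤ) : ℝ) -
          ((B : ℝ) + 1) * ((S2 (B + x) B : ℤ) : ℝ) := by exact_mod_cast hu
      push_cast at h4
      rw [← add_assoc]
      linear_combination h4
    have hv' : ((S2 (B + (x + 1)) B : ℤ) : ℝ) =
        ((S1 (B + x) B : ℤ) : ℝ) + ((S2 (B + x) B : ℤ) : ℝ) := by
      rw [← add_assoc, hv]; push_cast; ring
    obtain ⟨c', r', hc', hrr, hrb', hst1, hst0, hS'⟩ :=
      shape_step hB0 hx0 hc hr hr1 hS hu' hv'
    refine ⟨(j + 1) % 4, c', r', ?_, hc', hr.trans hrr, ?_, ?_, ?_, hS'⟩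
    · rw [hj]; omega
    · push_cast
      linarith
    · intro h3
      rcases Nat.lt_or_ge x 3 with h4 | h4
      · have h5 : x = 2 := by omega
        subst h5
        by_cases hB : Even B
        · exact (hr2 (by norm_num) hB).trans_le hrr
        · have h6 : j = 0 := by rw [hj]; simp [hB]
          exact hr.trans_lt (hst0 h6 (by norm_num))
      · exact (hr3 h4).trans_le hrr
    · intro h3 hB
      rcases Nat.lt_or_ge x 2 with h4 | h4
      · have h5 : x = 1 := by omega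
        subst h5
        have h6 : j = 1 := by rw [hj]; simp [hB]
        exact hr.trans_lt (hst1 h6 (by norm_num))
      · exact (hr2 h4 hB).trans_le hrr

/-- Nonvanishing in the parabolic region. -/
theorem S_parabola {B x : ℕ} (hx1 : 1 ≤ x) (hx : x * (x + 3) < 2 * (B + 1)) :
    S1 (B + x) B ≠ 0 ∧ (x ≠ 2 → S2 (B + x) B ≠ 0) := by
  obtain ⟨j, c, r, hj, hc, hr, hrb, hr3, hr2, hS⟩ := shape_all B x hx
  have hB0 : (0 : ℝ) ≤ B := Nat.cast_nonneg B
  have hxr : (x : ℝ) * ((x : ℝ) + 3) < 2 * ((B : ℝ) + 1) := by exact_mod_cast hx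
  have hr1 : r < 1 := slope_lt hB0 (Nat.cast_nonneg x) hr hrb hxr
  rcases hS with ⟨rfl, h1, h2⟩ | ⟨rfl, h1, h2⟩ | ⟨rfl, h1, h2⟩ | ⟨rfl, h1, h2⟩
  · refine ⟨?_, ?_⟩
    · intro h
      rw [h] at h1
      exact hc (by simpa using h1.symm)
    · intro hx2 h
      rw [h] at h2
      have h3 : 3 ≤ x := by
        by_contra h4
        have h5 : x = 1 := by omega
        subst h5
        split_ifs at hj
      have h4 : c * r = 0 := by
        have : (0 : ℝ) = -(c * r) := by simpa using h2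
        linarith
      exact (mul_ne_zero hc (hr3 h3).ne') h4
  · refine ⟨?_, fun _ => ?_⟩
    · intro h
      rw [h] at h1
      have h4 : c * (1 + r) = 0 := by simpa using h1.symm
      exact (mul_ne_zero hc (by linarith)) h4
    · intro h
      rw [h] at h2
      have h4 : c * (1 - r) = 0 := by simpa using h2.symm
      exact (mul_ne_zero hc (by linarith)) h4
  · have hrpos : 0 < r := by
      rcases Nat.lt_or_ge x 3 with h4 | h4
      · by_cases hB : Even B
        · rw [if_pos hB] at hj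
          exact hr2 (by omega) hB
        · rw [if_neg hB] at hj
          omega
      · exact hr3 h4
    refine ⟨?_, fun _ => ?_⟩
    · intro h
      rw [h] at h1
      have h4 : c * r = 0 := by simpa using h1.symm
      exact (mul_ne_zero hc hrpos.ne') h4
    · intro h
      rw [h] at h2
      exact hc (by simpa using h2.symm)
  · refine ⟨?_, fun _ => ?_⟩
    · intro h
      rw [h] at h1
      have h4 : c * (r - 1) = 0 := by simpa using h1.symm
      exact (mul_ne_zero hc (by linarith)) h4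
    · intro h
      rw [h] at h2
      have h4 : c * (1 + r) = 0 := by simpa using h2.symm
      exact (mul_ne_zero hc (by linarith)) h4

end Pool.Agent.Lib.MP_0d3661_nt
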