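import Pool.Agent.Lib.MP_0d3661_nt.Rotation

/-!
Feynman checkers: the same rotation argument with the mean speed of the lag, up to the first nodal
curve `x² = π t / 2`.
-/

namespace Pool.Agent.Lib.MP_0d3661_nt

open Finset Real

/-- how the slope changes in one step -/
def Rel (j : ℕ) (e r r' : ℝ) : Prop :=
  (j = 0 ∧ r' = (r + e * (1 - r) / 2) / (1 + e * (1 - r) / 2)) ∨ (j = 1 ∧ r' = r + e) ∨
  (j = 2 ∧ r' = (r + e * (1 + r) / 2) / (1 - e * (1 + r) / 2)) ∨ (j = 3 ∧ r' = r / (1 - e * r))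

/-- One step, with the exact change of the slope. -/
theorem shape_step2 {B x : ℝ} (hB : 0 ≤ B) (hx : 0 ≤ x) {j : ℕ} {c r u v u' v' : ℝ} (hc : c ≠ 0)
    (hr : 0 ≤ r) (hr1 : r < 1) (h : Shape j c r u v)
    (hu : (B + x + 1) * u' = (B + 2 * x + 1) * u - (B + 1) * v) (hv : v' = u + v) :
    ∃ e c' r' : ℝ, 0 ≤ e ∧ e < 1 ∧ x = e * (B + x + 1) ∧ c' ≠ 0 ∧ r ≤ r' ∧ Rel j e r r' ∧
      (j = 1 → 0 < x → r < r') ∧ (j = 0 → 0 < x → r < r') ∧ Shape ((j + 1) % 4) c' r' u' v' := by
  obtain ⟨e, he0, he1, hxe, hepos⟩ : ∃ e : ℝ, 0 ≤ e ∧ e < 1 ∧ x = e * (B + x + 1) ∧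
      (0 < x → 0 < e) := by
    have hDpos : 0 < B + x + 1 := by positivity
    refine ⟨x / (B + x + 1), div_nonneg hx hDpos.le, ?_, ?_, fun h => div_pos h hDpos⟩
    · rw [div_lt_one hDpos]; linarith
    · field_simp
  have hu' : u' = u - v + e * (u + v) := by
    have hDpos : 0 < B + x + 1 := by positivity
    have h1 : (B + x + 1) * u' = (B + x + 1) * (u - v + e * (u + v)) := by
      rw [hu]
      linear_combination (u + v) * hxe
    exact mul_left_cancel₀ hDpos.ne' h1
  have he1' : 0 < 1 - e := by linarith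
  rcases h with ⟨rfl, h1, h2⟩ | ⟨rfl, h1, h2⟩ | ⟨rfl, h1, h2⟩ | ⟨rfl, h1, h2⟩
  · -- shape 0 to shape 1
    obtain ⟨d, hd⟩ : ∃ d, d = e * (1 - r) / 2 := ⟨_, rfl⟩
    have hd0 : 0 ≤ d := by rw [hd]; apply div_nonneg (mul_nonneg he0 (by linarith)) (by norm_num)
    have hd1 : 0 < 1 + d := by linarith
    refine ⟨e, c * (1 + d), (r + d) / (1 + d), he0, he1, hxe, mul_ne_zero hc hd1.ne', ?_, ?_,
      by simp, ?_, ?_⟩
    · rw [le_div_iff₀ hd1]; nlinarith
    · left; exact ⟨rfl, by rw [hd]⟩
    · intro _ hx0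
      have he2 : 0 < e := hepos hx0
      have hd2 : 0 < d := by rw [hd]; apply div_pos (mul_pos he2 (by linarith)) (by norm_num)
      rw [lt_div_iff₀ hd1]; nlinarith
    · right; left
      refine ⟨by norm_num, ?_, ?_⟩
      · rw [hu', h1, h2, mul_assoc, mul_add (1 + d), mul_div_cancel₀ _ hd1.ne', hd]; ring
      · rw [hv, h1, h2, mul_assoc, mul_sub (1 + d), mul_div_cancel₀ _ hd1.ne', hd]; ring
  · -- shape 1 to shape 2
    refine ⟨e, 2 * c, r + e, he0, he1, hxe, by simpa using hc, by linarith, ?_, ?_, by simp, ?_⟩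
    · right; left; exact ⟨rfl, rfl⟩
    · intro _ hx0
      have he2 : 0 < e := hepos hx0
      linarith
    · right; right; left
      refine ⟨by norm_num, ?_, ?_⟩
      · rw [hu', h1, h2]; ring
      · rw [hv, h1, h2]; ring
  · -- shape 2 to shape 3
    obtain ⟨d, hd⟩ : ∃ d, d = e * (1 + r) / 2 := ⟨_, rfl⟩
    have hd0 : 0 ≤ d := by rw [hd]; apply div_nonneg (mul_nonneg he0 (by linarith)) (by norm_num)
    have hde : d ≤ e := by
      rw [hd]
      have := mul_nonneg he0 (by linarith : (0 : ℝ) ≤ 1 - r)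
      linarith
    have hd1 : 0 < 1 - d := by linarith
    refine ⟨e, c * (1 - d), (r + d) / (1 - d), he0, he1, hxe, mul_ne_zero hc hd1.ne', ?_, ?_,
      by simp, by simp, ?_⟩
    · rw [le_div_iff₀ hd1]; nlinarith
    · right; right; left; exact ⟨rfl, by rw [hd]⟩
    · right; right; right
      refine ⟨by norm_num, ?_, ?_⟩
      · rw [hu', h1, h2, mul_assoc, mul_sub (1 - d), mul_div_cancel₀ _ hd1.ne', hd]; ring
      · rw [hv, h1, h2, mul_assoc, mul_add (1 - d), mul_div_cancel₀ _ hd1.ne', hd]; ring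
  · -- shape 3 to shape 0
    have her : e * r ≤ e := by
      have := mul_nonneg he0 (by linarith : (0 : ℝ) ≤ 1 - r)
      linarith
    have hd1 : 0 < 1 - e * r := by linarith
    refine ⟨e, -2 * c * (1 - e * r), r / (1 - e * r), he0, he1, hxe, ?_, ?_, ?_, by simp, by simp,
      ?_⟩
    · exact mul_ne_zero (mul_ne_zero (by norm_num) hc) hd1.ne'
    · rw [le_div_iff₀ hd1]
      have := mul_nonneg (mul_nonneg he0 hr) hr
      linarith
    · right; right; right; exact ⟨rfl, rfl⟩
    · left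
      refine ⟨by norm_num, ?_, ?_⟩
      · rw [hu', h1, h2]; ring
      · rw [hv, h1, h2, mul_assoc, mul_div_cancel₀ _ hd1.ne']; ring

/-- the weighted slope whose growth has no large periodic part -/
noncomputable def WW (j : ℕ) (N x r : ℝ) : ℝ :=
  if j = 0 then N * r else if j = 1 then (N + x) * r
  else if j = 2 then N * r + x * (r - (1 - r * r) / 2) else N * r - x * (1 - r * r) / 2

theorem WW_step {N x e r r' : ℝ} {j : ℕ} (hN : 1 ≤ N) (hx : 0 ≤ x) (he0 : 0 ≤ e) (he1 : e < 1)
    (hxe : x = e * (N + x)) (hx40 : 40 * x ≤ N) (hx2 : x * (x + 1) ≤ 3.2 * N)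
    (hr : 0 ≤ r) (hr1 : r < 1) (h : Rel j e r r') :
    WW ((j + 1) % 4) N (x + 1) r' ≤ WW j N x r + x * (1 + r * r) / 2 + 7 := by
  have hN0 : 0 < N := by linarith
  have h1r : 0 ≤ 1 - r := by linarith
  have hrr : r * r ≤ 1 := mul_le_one₀ hr1.le hr hr1.le
  have hrr0 : 0 ≤ r * r := mul_nonneg hr hr
  have heN : e * N ≤ x := by
    have h1 : e * (N + x) = e * N + e * x := by ring
    have h2 := mul_nonneg he0 hx
    linarith
  have he40 : e ≤ 1 / 40 := by
    by_contra hcon
    push Not at hcon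
    have h1 : 1 / 40 * N < e * N := mul_lt_mul_of_pos_right hcon hN0
    linarith
  have hxe2 : (x + 1) * e ≤ 3.2 := by
    have h1 : (x + 1) * e * N ≤ 3.2 * N := by
      calc (x + 1) * e * N = (x + 1) * (e * N) := by ring
        _ ≤ (x + 1) * x := mul_le_mul_of_nonneg_left heN (by linarith)
        _ = x * (x + 1) := by ring
        _ ≤ 3.2 * N := hx2
    exact le_of_mul_le_mul_right h1 hN0
  rcases h with ⟨rfl, h⟩ | ⟨rfl, h⟩ | ⟨rfl, h⟩ | ⟨rfl, h⟩
  · -- shape 0
    have w1 : WW ((0 + 1) % 4) N (x + 1) r' = (N + (x + 1)) * r' := by simp [WW]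
    have w0 : WW 0 N x r = N * r := by simp [WW]
    rw [w1, w0]
    obtain ⟨d, hd⟩ : ∃ d, d = e * (1 - r) / 2 := ⟨_, rfl⟩
    rw [← hd] at h
    have hd0 : 0 ≤ d := by rw [hd]; apply div_nonneg (mul_nonneg he0 h1r) (by norm_num)
    have hd1 : 0 < 1 + d := by linarith
    have h3 : r' ≤ r + d * (1 - r) := by
      rw [h, div_le_iff₀ hd1]
      have h7 : (r + d * (1 - r)) * (1 + d) = r + d + d * d * (1 - r) := by ring
      rw [h7]
      have := mul_nonneg (mul_nonneg hd0 hd0) h1r
      linarith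
    have h4 : (N + (x + 1)) * r' ≤ (N + (x + 1)) * (r + d * (1 - r)) :=
      mul_le_mul_of_nonneg_left h3 (by linarith)
    have h8 : (N + (x + 1)) * (r + d * (1 - r)) = N * r + r * x + r +
        (e * (N + x)) * ((1 - r) * (1 - r)) / 2 + e * ((1 - r) * (1 - r)) / 2 := by
      rw [hd]; ring
    rw [h8, ← hxe] at h4
    have h9 : (1 - r) * (1 - r) ≤ 1 := mul_le_one₀ (by linarith) h1r (by linarith)
    have h10 : e * ((1 - r) * (1 - r)) ≤ 1 * 1 :=
      mul_le_mul he1.le h9 (mul_nonneg h1r h1r) (by norm_num)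
    have h12 : r * x + x * ((1 - r) * (1 - r)) / 2 = x * (1 + r * r) / 2 := by ring
    linarith
  · -- shape 1
    have w1 : WW ((1 + 1) % 4) N (x + 1) r' =
        N * r' + (x + 1) * (r' - (1 - r' * r') / 2) := by simp [WW]
    have w0 : WW 1 N x r = (N + x) * r := by simp [WW]
    rw [w1, w0, h]
    have h1 : N * (r + e) + (x + 1) * (r + e - (1 - (r + e) * (r + e)) / 2) =
        (N + x) * r + (e * (N + x)) - x / 2 - 1 / 2 + e + r + x * (r * r) / 2 + r * r / 2 +
          (x + 1) * e * r + (x + 1) * e * e / 2 := by ring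
    rw [h1, ← hxe]
    have h2 : (x + 1) * e * r ≤ 3.2 * 1 := mul_le_mul hxe2 hr1.le hr (by norm_num)
    have h3 : (x + 1) * e * e ≤ 3.2 * 1 := mul_le_mul hxe2 he1.le he0 (by norm_num)
    have h4 : x * (1 + r * r) / 2 = x / 2 + x * (r * r) / 2 := by ring
    rw [h4]
    linarith
  · -- shape 2
    have w1 : WW ((2 + 1) % 4) N (x + 1) r' = N * r' - (x + 1) * (1 - r' * r') / 2 := by
      simp [WW]
    have w0 : WW 2 N x r = N * r + x * (r - (1 - r * r) / 2) := by simp [WW]
    rw [w1, w0]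
    obtain ⟨d, hd⟩ : ∃ d, d = e * (1 + r) / 2 := ⟨_, rfl⟩
    rw [← hd] at h
    have hd0 : 0 ≤ d := by rw [hd]; apply div_nonneg (mul_nonneg he0 (by linarith)) (by norm_num)
    have he1' : 0 < 1 - e := by linarith
    have hde : d ≤ e := by
      rw [hd]
      have := mul_nonneg he0 h1r
      linarith
    have hd1 : 0 < 1 - d := by linarith
    obtain ⟨g, hg⟩ : ∃ g, g = d * (1 + r) / (1 - d) := ⟨_, rfl⟩
    have hg0 : 0 ≤ g := by
      rw [hg]; exact div_nonneg (mul_nonneg hd0 (by linarith)) hd1.le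
    have h3 : r' = r + g := by
      rw [h, hg, div_eq_iff hd1.ne', add_mul, div_mul_cancel₀ _ hd1.ne']; ring
    have h6 : g * N ≤ x * ((1 + r) * (1 + r) / 2) := by
      have h4 : g ≤ e * ((1 + r) * (1 + r) / 2) / (1 - e) := by
        rw [hg]
        apply div_le_div₀ (by positivity) (le_of_eq (by rw [hd]; ring)) he1' (by linarith)
      have hB1 : N = (1 - e) * (N + x) := by
        have : (1 - e) * (N + x) = N + x - e * (N + x) := by ring
        rw [this, ← hxe]; ring
      calc g * N ≤ e * ((1 + r) * (1 + r) / 2) / (1 - e) * N :=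
            mul_le_mul_of_nonneg_right h4 hN0.le
        _ = (e * (N + x)) * ((1 + r) * (1 + r) / 2) := by
            conv_lhs => rw [hB1]
            field_simp
        _ = x * ((1 + r) * (1 + r) / 2) := by rw [← hxe]
    have h11 : (1 + r) * (1 + r) / 2 ≤ 2 := by nlinarith
    have h12 : g * N ≤ 2 * x := by
      have := mul_le_mul_of_nonneg_left h11 hx
      linarith
    have hg1 : g ≤ 1 / 20 := by
      by_contra hcon
      push Not at hcon
      have h1 : 1 / 20 * N < g * N := mul_lt_mul_of_pos_right hcon hN0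
      linarith
    have hxg : (x + 1) * g ≤ 6.4 := by
      have h1 : (x + 1) * g * N ≤ 6.4 * N := by
        calc (x + 1) * g * N = (x + 1) * (g * N) := by ring
          _ ≤ (x + 1) * (2 * x) := mul_le_mul_of_nonneg_left h12 (by linarith)
          _ = 2 * (x * (x + 1)) := by ring
          _ ≤ 6.4 * N := by linarith
      exact le_of_mul_le_mul_right h1 hN0
    rw [h3]
    have h14 : N * (r + g) - (x + 1) * (1 - (r + g) * (r + g)) / 2 =
        N * r + g * N - x / 2 - 1 / 2 + x * (r * r) / 2 + r * r / 2 + (x + 1) * g * r +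
          (x + 1) * g * g / 2 := by ring
    have h15 : (x + 1) * g * r ≤ 6.4 * 1 := mul_le_mul hxg hr1.le hr (by norm_num)
    have h16 : (x + 1) * g * g ≤ 6.4 * (1 / 20) := mul_le_mul hxg hg1 hg0 (by norm_num)
    have h17 : x * ((1 + r) * (1 + r) / 2) = x / 2 + x * r + x * (r * r) / 2 := by ring
    have h18 : x * (r - (1 - r * r) / 2) + x * (1 + r * r) / 2 = x * r + x * (r * r) := by ring
    rw [h14]
    linarith
  · -- shape 3
    have w1 : WW ((3 + 1) % 4) N (x + 1) r' = N * r' := by simp [WW]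
    have w0 : WW 3 N x r = N * r - x * (1 - r * r) / 2 := by simp [WW]
    rw [w1, w0]
    have he1' : 0 < 1 - e := by linarith
    have her : e * r ≤ e := by
      have := mul_nonneg he0 h1r
      linarith
    have hd1 : 0 < 1 - e * r := by linarith
    have h3 : r' = r + e * (r * r) / (1 - e * r) := by
      rw [h, div_eq_iff hd1.ne', add_mul, div_mul_cancel₀ _ hd1.ne']
      ring
    have h4 : e * (r * r) / (1 - e * r) ≤ e * (r * r) / (1 - e) := by
      apply div_le_div_of_nonneg_left (mul_nonneg he0 hrr0) he1' (by linarith)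
    have h6 : e * (r * r) / (1 - e * r) * N ≤ x * (r * r) := by
      have hB1 : N = (1 - e) * (N + x) := by
        have : (1 - e) * (N + x) = N + x - e * (N + x) := by ring
        rw [this, ← hxe]; ring
      calc e * (r * r) / (1 - e * r) * N ≤ e * (r * r) / (1 - e) * N :=
            mul_le_mul_of_nonneg_right h4 hN0.le
        _ = e * (N + x) * (r * r) := by
            conv_lhs => rw [hB1]
            field_simp
        _ = x * (r * r) := by rw [← hxe]
    have h13 : N * (r + e * (r * r) / (1 - e * r)) =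
        N * r + e * (r * r) / (1 - e * r) * N := by ring
    rw [h3, h13]
    have h14 : x * (r * r) = - (x * (1 - r * r) / 2) + x * (1 + r * r) / 2 := by ring
    linarith

/-- the weighted slope controls the slope -/
theorem slope_of_WW {N x r T : ℝ} {j : ℕ} (hN : 1 ≤ N) (hx : 0 ≤ x) (hr : 0 ≤ r) (hT : T < 1)
    (h : WW j N x r ≤ N * T) : r < 1 ∧ N * r ≤ N * T + x / 2 := by
  have hN0 : 0 < N := by linarith
  have hrr0 : 0 ≤ r * r := mul_nonneg hr hr
  have hNT : N * T < N := by
    have := mul_lt_mul_of_pos_left hT hN0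
    linarith
  have hxr := mul_nonneg hx hr
  have hxrr := mul_nonneg hx hrr0
  constructor
  · by_contra hcon
    push Not at hcon
    have h1 : N ≤ N * r := by
      have := mul_le_mul_of_nonneg_left hcon hN0.le
      linarith
    have h2 : 1 ≤ r * r := by nlinarith
    have h3 : x ≤ x * (r * r) := by
      have := mul_le_mul_of_nonneg_left h2 hx
      linarith
    unfold WW at h
    split_ifs at h
    · linarith
    · linarith
    · have h4 : x * (r - (1 - r * r) / 2) = x * r - x / 2 + x * (r * r) / 2 := by ring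
      linarith
    · have h4 : x * (1 - r * r) / 2 = x / 2 - x * (r * r) / 2 := by ring
      linarith
  · unfold WW at h
    split_ifs at h
    · linarith
    · linarith
    · have h4 : x * (r - (1 - r * r) / 2) = x * r - x / 2 + x * (r * r) / 2 := by ring
      linarith
    · have h4 : x * (1 - r * r) / 2 = x / 2 - x * (r * r) / 2 := by ring
      linarith

theorem tan_step {a b : ℝ} (ha : 0 ≤ a) (hb : 0 ≤ b) (hab : a + b < π / 2) :
    tan a + b * (1 + tan a * tan a) ≤ tan (a + b) := by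
  have hca : 0 < cos a := cos_pos_of_mem_Ioo ⟨by linarith [pi_pos], by linarith⟩
  have hcb : 0 < cos b := cos_pos_of_mem_Ioo ⟨by linarith [pi_pos], by linarith⟩
  have hcab : 0 < cos (a + b) := cos_pos_of_mem_Ioo ⟨by linarith [pi_pos], hab⟩
  have hb' : b ≤ tan b := le_tan hb (by linarith)
  have hta : 0 ≤ tan a := tan_nonneg_of_nonneg_of_le_pi_div_two ha (by linarith)
  have h1 : sin a = tan a * cos a := by rw [tan_mul_cos hca.ne']
  have h2 : sin b = tan b * cos b := by rw [tan_mul_cos hcb.ne']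
  have h3 : cos (a + b) = cos a * cos b * (1 - tan a * tan b) := by
    rw [cos_add, h1, h2]; ring
  have h4 : 0 < 1 - tan a * tan b := by
    rw [h3] at hcab
    exact (pos_iff_pos_of_mul_pos hcab).1 (mul_pos hca hcb)
  have h5 : tan (a + b) = (tan a + tan b) / (1 - tan a * tan b) := by
    rw [tan_eq_sin_div_cos, h3, sin_add, h1, h2]
    field_simp
  have htb : 0 ≤ tan b := hb.trans hb'
  rw [h5, le_div_iff₀ h4]
  have h6 : 0 ≤ 1 + tan a * tan a := by positivity
  have h7 : b * (1 + tan a * tan a) ≤ tan b * (1 + tan a * tan a) :=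
    mul_le_mul_of_nonneg_right hb' h6
  have h8 : (tan a + b * (1 + tan a * tan a)) * (1 - tan a * tan b) ≤
      (tan a + tan b * (1 + tan a * tan a)) * (1 - tan a * tan b) :=
    mul_le_mul_of_nonneg_right (by linarith) h4.le
  have h9 : (tan a + tan b * (1 + tan a * tan a)) * (1 - tan a * tan b) =
      tan a + tan b - tan a * (tan b * tan b) * (1 + tan a * tan a) := by ring
  have h10 : 0 ≤ tan a * (tan b * tan b) * (1 + tan a * tan a) :=
    mul_nonneg (mul_nonneg hta (mul_nonneg htb htb)) h6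
  linarith

end Pool.Agent.Lib.MP_0d3661_nt
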