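import Pool.Agent.Lib.MP_0d3661_nt.Sharp

/-!
Feynman checkers: no zero below the first nodal curve.
-/

namespace Pool.Agent.Lib.MP_0d3661_nt

open Finset Real

theorem tan_lt_one' {N y : ℝ} (hN : 1 ≤ N) (hy : 0 ≤ y) (h : y < π * N) :
    0 ≤ y / (4 * N) ∧ y / (4 * N) < π / 4 ∧ 0 ≤ tan (y / (4 * N)) ∧ tan (y / (4 * N)) < 1 := by
  have hN0 : 0 < 4 * N := by linarith
  have h1 : 0 ≤ y / (4 * N) := div_nonneg hy hN0.le
  have h2 : y / (4 * N) < π / 4 := by
    rw [div_lt_iff₀ hN0]; linarith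
  refine ⟨h1, h2, ?_, ?_⟩
  · exact tan_nonneg_of_nonneg_of_le_pi_div_two h1 (by linarith [pi_pos])
  · rw [← tan_pi_div_four]
    exact tan_lt_tan_of_lt_of_lt_pi_div_two (by linarith [pi_pos]) (by linarith [pi_pos]) h2

/-- the induction step for the bound -/
theorem WW_tan {N x e r r' : ℝ} {j : ℕ} (hN : 1 ≤ N) (hx : 0 ≤ x) (he0 : 0 ≤ e) (he1 : e < 1)
    (hxe : x = e * (N + x)) (hx40 : 40 * x ≤ N)
    (hx1 : (x + 1) ^ 2 + 34 * (x + 1) < π * N)
    (hr : 0 ≤ r) (h : Rel j e r r')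
    (hW : WW j N x r ≤ N * tan ((x ^ 2 + 34 * x) / (4 * N))) (hr1 : r < 1) :
    WW ((j + 1) % 4) N (x + 1) r' ≤ N * tan (((x + 1) ^ 2 + 34 * (x + 1)) / (4 * N)) := by
  have hN0 : 0 < N := by linarith
  have hpi : π < 3.15 := pi_lt_d2
  have hx0 : x ^ 2 + 34 * x < π * N := by nlinarith
  have hpN : π * N < 3.15 * N := mul_lt_mul_of_pos_right hpi hN0
  have hx2 : x * (x + 1) ≤ 3.2 * N := by nlinarith
  have hxx : x * x ≤ 3.2 * N := by nlinarith
  obtain ⟨t0, t1, t2, t3⟩ := tan_lt_one' hN (by positivity : (0 : ℝ) ≤ x ^ 2 + 34 * x) hx0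
  obtain ⟨T, hT⟩ : ∃ T, T = tan ((x ^ 2 + 34 * x) / (4 * N)) := ⟨_, rfl⟩
  rw [← hT] at hW t2 t3
  have hs := WW_step hN hx he0 he1 hxe hx40 hx2 hr hr1 h
  have hsl := (slope_of_WW hN hx hr t3 hW).2
  have e1 : ((x + 1) ^ 2 + 34 * (x + 1)) / (4 * N) =
      (x ^ 2 + 34 * x) / (4 * N) + (2 * x + 35) / (4 * N) := by
    rw [← add_div]; congr 1; ring
  have t4 : ((x + 1) ^ 2 + 34 * (x + 1)) / (4 * N) < π / 4 := by
    rw [div_lt_iff₀ (by linarith)]; linarith
  have ht := tan_step (a := (x ^ 2 + 34 * x) / (4 * N)) (b := (2 * x + 35) / (4 * N)) t0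
    (div_nonneg (by linarith) (by linarith)) (by rw [← e1]; linarith [pi_pos])
  rw [← e1, ← hT] at ht
  have h3 : N * (T + (2 * x + 35) / (4 * N) * (1 + T * T)) ≤
      N * tan (((x + 1) ^ 2 + 34 * (x + 1)) / (4 * N)) := mul_le_mul_of_nonneg_left ht hN0.le
  have h4 : N * (T + (2 * x + 35) / (4 * N) * (1 + T * T)) =
      N * T + (2 * x + 35) / 4 * (1 + T * T) := by
    field_simp
  rw [h4] at h3
  have h5 : x * (r * r) ≤ x * (T * T) + 3.2 := by
    rcases le_total r T with h6 | h6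
    · have h7 : r * r ≤ T * T := mul_le_mul h6 h6 hr t2
      have := mul_le_mul_of_nonneg_left h7 hx
      linarith
    · have h7 : x * (r * r) - x * (T * T) ≤ 2 * (x * (r - T)) := by
        have h8 : x * (r * r) - x * (T * T) = x * (r - T) * (r + T) := by ring
        rw [h8]
        have h9 : 0 ≤ x * (r - T) := mul_nonneg hx (by linarith)
        have h10 : x * (r - T) * (r + T) ≤ x * (r - T) * 2 :=
          mul_le_mul_of_nonneg_left (by linarith) h9
        linarith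
      have h8 : 2 * (x * (r - T)) ≤ 3.2 := by
        have h9 : 2 * (x * (r - T)) * N ≤ 3.2 * N := by
          have h10 : 2 * (x * (r - T)) * N = 2 * (x * (N * r - N * T)) := by ring
          rw [h10]
          have h11 : x * (N * r - N * T) ≤ x * (x / 2) :=
            mul_le_mul_of_nonneg_left (by linarith) hx
          linarith
        exact le_of_mul_le_mul_right h9 hN0
      linarith
  have h6 : (2 * x + 35) / 4 * (1 + T * T) = x / 2 + x * (T * T) / 2 + 35 / 4 +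
      35 / 4 * (T * T) := by ring
  have h7 : 0 ≤ T * T := mul_nonneg t2 t2
  have h8 : x * (1 + r * r) / 2 = x / 2 + x * (r * r) / 2 := by ring
  rw [h6] at h3
  rw [h8] at hs
  linarith

/-- The state after `x` steps. -/
theorem shape_all2 (B X : ℕ) (hX : 100 ≤ X) (hXN : (X : ℝ) ^ 2 + 34 * X < π * ((B : ℝ) + 1))
    (x : ℕ) (hxX : x ≤ X) :
    ∃ (j : ℕ) (c r : ℝ), j = (x + if Even B then 0 else 2) % 4 ∧ c ≠ 0 ∧ 0 ≤ r ∧
      WW j ((B : ℝ) + 1) x r ≤
        ((B : ℝ) + 1) * tan (((x : ℝ) ^ 2 + 34 * x) / (4 * ((B : ℝ) + 1))) ∧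
      (3 ≤ x → 0 < r) ∧ (2 ≤ x → Even B → 0 < r) ∧
      Shape j c r ((S1 (B + x) B : ℤ) : ℝ) ((S2 (B + x) B : ℤ) : ℝ) := by
  have hB0 : (0 : ℝ) ≤ B := Nat.cast_nonneg B
  have hN : (1 : ℝ) ≤ (B : ℝ) + 1 := by linarith
  induction x with
  | zero =>
    rcases Nat.even_or_odd B with hB | hB
    · have h1 := S2_diag hB
      have h2 : S1 B B ≠ 0 := by
        rcases S_ne B B with h | h
        · exact h
        · exact absurd h1 h
      refine ⟨0, ((S1 B B : ℤ) : ℝ), 0, by simp [hB], by exact_mod_cast h2, le_rfl,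
        by simp [WW], by omega, by omega, ?_⟩
      left
      simp [h1]
    · have h1 := S1_diag hB
      have h2 : S2 B B ≠ 0 := by
        rcases S_ne B B with h | h
        · exact absurd h1 h
        · exact h
      have hB' : ¬ Even B := Nat.not_even_iff_odd.2 hB
      refine ⟨2, ((S2 B B : ℤ) : ℝ), 0, by simp [hB'], by exact_mod_cast h2, le_rfl,
        by simp [WW], by omega, by omega, ?_⟩
      right; right; left
      simp [h1]
  | succ x ih =>
    obtain ⟨j, c, r, hj, hc, hr, hrb, hr3, hr2, hS⟩ := ih (by omega)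
    have hx0 : (0 : ℝ) ≤ x := Nat.cast_nonneg x
    have hxX' : (x : ℝ) + 1 ≤ X := by exact_mod_cast hxX
    have hX' : (100 : ℝ) ≤ X := by exact_mod_cast hX
    have hx1 : ((x : ℝ) + 1) ^ 2 + 34 * ((x : ℝ) + 1) < π * ((B : ℝ) + 1) := by nlinarith
    have hx0' : (x : ℝ) ^ 2 + 34 * x < π * ((B : ℝ) + 1) := by nlinarith
    have hN0 : (0 : ℝ) < (B : ℝ) + 1 := by linarith
    have hpN : π * ((B : ℝ) + 1) < 3.15 * ((B : ℝ) + 1) := mul_lt_mul_of_pos_right pi_lt_d2 hN0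
    have hx40 : 40 * (x : ℝ) ≤ (B : ℝ) + 1 := by nlinarith
    obtain ⟨t0, t1, t2, t3⟩ := tan_lt_one' hN (by positivity : (0 : ℝ) ≤ (x : ℝ) ^ 2 + 34 * x) hx0'
    have hr1 : r < 1 := (slope_of_WW hN hx0 hr t3 hrb).1
    have hu := S1_rec (B + x) B
    have hv := S2_succ (B + x) B
    have hu' : ((B : ℝ) + x + 1) * ((S1 (B + (x + 1)) B : ℤ) : ℝ) =
        ((B : ℝ) + 2 * x + 1) * ((S1 (B + x) B : ℤ) : ℝ) -
          ((B : ℝ) + 1) * ((S2 (B + x) B : ℤ) : ℝ) := by
      have h4 : (((B + x : ℕ) : ℝ) + 1) * ((S1 (B + x + 1) B : ℤ) : ℝ) =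
          (2 * ((B + x : ℕ) : ℝ) + 1 - B) * ((S1 (B + x) B : ℤ) : ℝ) -
          ((B : ℝ) + 1) * ((S2 (B + x) B : ℤ) : ℝ) := by exact_mod_cast hu
      push_cast at h4
      rw [← add_assoc]
      linear_combination h4
    have hv' : ((S2 (B + (x + 1)) B : ℤ) : ℝ) =
        ((S1 (B + x) B : ℤ) : ℝ) + ((S2 (B + x) B : ℤ) : ℝ) := by
      rw [← add_assoc, hv]; push_cast; ring
    obtain ⟨e, c', r', he0, he1, hxe, hc', hrr, hrel, hst1, hst0, hS'⟩ :=
      shape_step2 hB0 hx0 hc hr hr1 hS hu' hv'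
    have hxe' : (x : ℝ) = e * ((B : ℝ) + 1 + x) := by
      rw [show (B : ℝ) + 1 + x = (B : ℝ) + x + 1 by ring]; exact hxe
    have hfin := WW_tan hN hx0 he0 he1 hxe' hx40 hx1 hr hrel hrb hr1
    refine ⟨(j + 1) % 4, c', r', ?_, hc', hr.trans hrr, ?_, ?_, ?_, hS'⟩
    · rw [hj]; omega
    · push_cast
      exact hfin
    · intro h3
      rcases Nat.lt_or_ge x 3 with h4 | h4
      · have h5 : x = 2 := by omega
        subst h5
        by_cases hB : Even B
        · exact (hr2 (by norm_num) hB).trans_le hrr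
        · have h6 : j = 0 := by rw [hj]; simp [hB]
          exact hr.trans_lt (hst0 h6 (by norm_num))
      · exact (hr3 h4).trans_le hrr
    · intro h3 hB
      rcases Nat.lt_or_ge x 2 with h4 | h4
      · have h5 : x = 1 := by omega
        subst h5
        have h6 : j = 1 := by rw [hj]; simp [hB]
        exact hr.trans_lt (hst1 h6 (by norm_num))
      · exact (hr2 h4 hB).trans_le hrr

/-- Nonvanishing below the first nodal curve. -/
theorem S_sharp {B x : ℕ} (hx : 100 ≤ x) (h : (x : ℝ) ^ 2 + 34 * x < π * ((B : ℝ) + 1)) :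
    S1 (B + x) B ≠ 0 ∧ S2 (B + x) B ≠ 0 := by
  obtain ⟨j, c, r, hj, hc, hr, hrb, hr3, hr2, hS⟩ := shape_all2 B x hx h x le_rfl
  have hB0 : (0 : ℝ) ≤ B := Nat.cast_nonneg B
  have hN : (1 : ℝ) ≤ (B : ℝ) + 1 := by linarith
  obtain ⟨t0, t1, t2, t3⟩ := tan_lt_one' hN (by positivity : (0 : ℝ) ≤ (x : ℝ) ^ 2 + 34 * x) h
  have hr1 : r < 1 := (slope_of_WW hN (Nat.cast_nonneg x) hr t3 hrb).1
  have hrpos : 0 < r := hr3 (by omega)
  rcases hS with ⟨rfl, h1, h2⟩ | ⟨rfl, h1, h2⟩ | ⟨rfl, h1, h2⟩ | ⟨rfl, h1, h2⟩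
  · refine ⟨fun h => ?_, fun h => ?_⟩
    · rw [h] at h1
      exact hc (by simpa using h1.symm)
    · rw [h] at h2
      have h4 : c * r = 0 := by
        have : (0 : ℝ) = -(c * r) := by simpa using h2
        linarith
      exact (mul_ne_zero hc hrpos.ne') h4
  · refine ⟨fun h => ?_, fun h => ?_⟩
    · rw [h] at h1
      have h4 : c * (1 + r) = 0 := by simpa using h1.symm
      exact (mul_ne_zero hc (by linarith)) h4
    · rw [h] at h2
      have h4 : c * (1 - r) = 0 := by simpa using h2.symm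
      exact (mul_ne_zero hc (by linarith)) h4
  · refine ⟨fun h => ?_, fun h => ?_⟩
    · rw [h] at h1
      have h4 : c * r = 0 := by simpa using h1.symm
      exact (mul_ne_zero hc hrpos.ne') h4
    · rw [h] at h2
      exact hc (by simpa using h2.symm)
  · refine ⟨fun h => ?_, fun h => ?_⟩
    · rw [h] at h1
      have h4 : c * (r - 1) = 0 := by simpa using h1.symm
      exact (mul_ne_zero hc (by linarith)) h4
    · rw [h] at h2
      have h4 : c * (1 + r) = 0 := by simpa using h2.symm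
      exact (mul_ne_zero hc (by linarith)) h4

end Pool.Agent.Lib.MP_0d3661_nt
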