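import Pool.Agent.Lib.MP_0d3661_nt.Rotation

/-!
Feynman checkers: the finite check for the strip, by running the recurrence along the lines
`(t - x) / 2 = B + 1` modulo a large number.
-/

namespace Pool.Agent.Lib.MP_0d3661_nt

def stepU (B x u v : ℕ) : ℕ :=
  Nat.mod (Nat.add (Nat.mul (Nat.succ (Nat.add B (Nat.mul 2 x))) u)
    (Nat.mul (Nat.sub 2305843009213693951 (Nat.succ B)) v)) 2305843009213693951

def stepV (B x u v : ℕ) : ℕ :=
  Nat.mod (Nat.mul (Nat.succ (Nat.add B x)) (Nat.add u v)) 2305843009213693951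

/-- run `n` steps from the state `(u, v)` at `x`, checking that nothing vanishes except at the two
listed places -/
def run (B n : ℕ) : ℕ → ℕ → ℕ → Bool :=
  Nat.rec (motive := fun _ => ℕ → ℕ → ℕ → Bool) (fun _ _ _ => true)
    (fun _ ih x u v =>
      Nat.rec (motive := fun _ => Bool) false
        (fun u1 _ =>
          Nat.rec (motive := fun _ => Bool)
            (and (or (Nat.beq x 1) (and (Nat.beq B 2) (Nat.beq x 4)))
              (ih (Nat.succ x) (Nat.succ u1) 0))
            (fun v1 _ => ih (Nat.succ x) (Nat.succ u1) (Nat.succ v1))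
            (Nat.mod (Nat.mul (Nat.succ (Nat.add B x)) (Nat.add u v)) 2305843009213693951))
        (Nat.mod (Nat.add (Nat.mul (Nat.succ (Nat.add B (Nat.mul 2 x))) u)
          (Nat.mul (Nat.sub 2305843009213693951 (Nat.succ B)) v)) 2305843009213693951)) n

/-- all lines `lo ≤ B < lo + k` -/
def runAll (X lo : ℕ) (k : ℕ) : Bool :=
  Nat.rec (motive := fun _ => Bool) true (fun k ih =>
    and (Nat.rec (motive := fun _ => Bool) (run (Nat.add lo k) X 0 1 0)
      (fun _ _ => run (Nat.add lo k) X 0 0 1) (Nat.mod (Nat.add lo k) 2)) ih) k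

theorem run_step {B n x u v : ℕ} (h : run B (n + 1) x u v = true) :
    ∃ u1, stepU B x u v = u1 + 1 ∧
      ((stepV B x u v = 0 ∧ (x = 1 ∨ (B = 2 ∧ x = 4)) ∧ run B n (x + 1) (u1 + 1) 0 = true) ∨
        ∃ v1, stepV B x u v = v1 + 1 ∧ run B n (x + 1) (u1 + 1) (v1 + 1) = true) := by
  change (Nat.rec (motive := fun _ => Bool) false
        (fun u1 _ =>
          Nat.rec (motive := fun _ => Bool)
            (and (or (Nat.beq x 1) (and (Nat.beq B 2) (Nat.beq x 4)))
              (run B n (Nat.succ x) (Nat.succ u1) 0))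
            (fun v1 _ => run B n (Nat.succ x) (Nat.succ u1) (Nat.succ v1))
            (stepV B x u v)) (stepU B x u v) : Bool) = true at h
  cases hu : stepU B x u v with
  | zero => rw [hu] at h; simp at h
  | succ u1 =>
    rw [hu] at h
    refine ⟨u1, rfl, ?_⟩
    cases hv : stepV B x u v with
    | zero =>
      rw [hv] at h
      left
      have h' : ((x.beq 1 || (B.beq 2 && x.beq 4)) && run B n (x + 1) (u1 + 1) 0) = true := h
      rw [Bool.and_eq_true, Bool.or_eq_true, Bool.and_eq_true] at h'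
      refine ⟨rfl, ?_, h'.2⟩
      rcases h'.1 with h1 | ⟨h1, h2⟩
      · left; exact Nat.eq_of_beq_eq_true h1
      · right; exact ⟨Nat.eq_of_beq_eq_true h1, Nat.eq_of_beq_eq_true h2⟩
    | succ v1 =>
      rw [hv] at h
      right
      exact ⟨v1, rfl, h⟩

/-- The state `(u, v)` at `x` describes the two sums on the line `B` up to a common factor. -/
def Inv (B x u v : ℕ) : Prop :=
  ∃ q base U V : ℤ, base ≠ 0 ∧ q * S1 (B + x) B = base * U ∧ q * S2 (B + x) B = base * V ∧
    U ≡ (u : ℤ) [ZMOD 2305843009213693951] ∧ V ≡ (v : ℤ) [ZMOD 2305843009213693951]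

theorem inv_step {B x u v : ℕ} (hB : B < 2305843009213693951) (h : Inv B x u v) :
    Inv B (x + 1) (stepU B x u v) (stepV B x u v) := by
  obtain ⟨q, base, U, V, hb, h1, h2, hU, hV⟩ := h
  refine ⟨q * ((B : ℤ) + x + 1), base, (B + 2 * x + 1) * U - (B + 1) * V, (B + x + 1) * (U + V),
    hb, ?_, ?_, ?_, ?_⟩
  · have h3 := S1_rec (B + x) B
    rw [← add_assoc]
    push_cast at h3
    linear_combination q * h3 + ((B : ℤ) + 2 * x + 1) * h1 - ((B : ℤ) + 1) * h2
  · rw [← add_assoc, S2_succ]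
    linear_combination ((B : ℤ) + x + 1) * h1 + ((B : ℤ) + x + 1) * h2
  · have e : (stepU B x u v : ℕ) = ((B + 2 * x + 1) * u +
        (2305843009213693951 - (B + 1)) * v) % 2305843009213693951 := rfl
    obtain ⟨C, hC⟩ : ∃ C : ℕ, C = 2305843009213693951 - (B + 1) := ⟨_, rfl⟩
    have hC' : (C : ℤ) = 2305843009213693951 - ((B : ℤ) + 1) := by omega
    rw [e, ← hC]
    push_cast
    rw [hC']
    refine Int.ModEq.trans ?_ (Int.mod_modEq _ _).symm
    have h4 := ((hU.mul_left ((B : ℤ) + 2 * x + 1)).sub (hV.mul_left ((B : ℤ) + 1)))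
    refine h4.trans ?_
    rw [Int.modEq_iff_dvd]
    exact ⟨v, by ring⟩
  · have e : (stepV B x u v : ℕ) = ((B + x + 1) * (u + v)) % 2305843009213693951 := rfl
    rw [e]
    push_cast
    refine Int.ModEq.trans ?_ (Int.mod_modEq _ _).symm
    exact (hU.add hV).mul_left ((B : ℤ) + x + 1)

theorem ne_of_inv {B x u v : ℕ} (h : Inv B x u v) :
    (0 < u → u < 2305843009213693951 → S1 (B + x) B ≠ 0) ∧
    (0 < v → v < 2305843009213693951 → S2 (B + x) B ≠ 0) := by
  obtain ⟨q, base, U, V, hb, h1, h2, hU, hV⟩ := h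
  constructor
  · intro h3 h4 h5
    rw [h5, mul_zero] at h1
    have h6 : U = 0 := (mul_eq_zero.1 h1.symm).resolve_left hb
    rw [h6] at hU
    have h7 := (Int.modEq_zero_iff_dvd.1 hU.symm)
    have h8 := Int.le_of_dvd (by exact_mod_cast h3) h7
    omega
  · intro h3 h4 h5
    rw [h5, mul_zero] at h2
    have h6 : V = 0 := (mul_eq_zero.1 h2.symm).resolve_left hb
    rw [h6] at hV
    have h7 := (Int.modEq_zero_iff_dvd.1 hV.symm)
    have h8 := Int.le_of_dvd (by exact_mod_cast h3) h7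
    omega

theorem stepU_lt (B x u v : ℕ) : stepU B x u v < 2305843009213693951 :=
  Nat.mod_lt _ (by norm_num)

theorem stepV_lt (B x u v : ℕ) : stepV B x u v < 2305843009213693951 :=
  Nat.mod_lt _ (by norm_num)

theorem run_sound {B : ℕ} (hB : B < 2305843009213693951) : ∀ (n x u v : ℕ),
    run B n x u v = true → Inv B x u v → ∀ y, x < y → y ≤ x + n →
      S1 (B + y) B ≠ 0 ∧ (y ≠ 2 → ¬ (B = 2 ∧ y = 5) → S2 (B + y) B ≠ 0) := by
  intro n
  induction n with
  | zero => intro x u v _ _ y h1 h2; omega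
  | succ n ih =>
    intro x u v h hI y h1 h2
    obtain ⟨u1, hu, h3⟩ := run_step h
    have hI' := inv_step hB hI
    have hu0 := stepU_lt B x u v
    have hv0 := stepV_lt B x u v
    rcases Nat.lt_or_ge (x + 1) y with h4 | h4
    · rcases h3 with ⟨hv, _, h5⟩ | ⟨v1, hv, h5⟩
      · rw [hu, hv] at hI'
        exact ih (x + 1) (u1 + 1) 0 h5 hI' y h4 (by omega)
      · rw [hu, hv] at hI'
        exact ih (x + 1) (u1 + 1) (v1 + 1) h5 hI' y h4 (by omega)
    · have h5 : y = x + 1 := by omega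
      subst h5
      have h6 := ne_of_inv hI'
      refine ⟨h6.1 (by omega) hu0, fun h7 h8 => ?_⟩
      rcases h3 with ⟨hv, h9, _⟩ | ⟨v1, hv, _⟩
      · exfalso
        rcases h9 with h9 | ⟨h9, h10⟩
        · omega
        · exact h8 ⟨h9, by omega⟩
      · exact h6.2 (by omega) hv0

theorem inv_even {B : ℕ} (hB : B % 2 = 0) : Inv B 0 1 0 := by
  have h1 : S2 B B = 0 := S2_diag (Nat.even_iff.2 hB)
  have h2 : S1 B B ≠ 0 := by
    rcases S_ne B B with h | h
    · exact h
    · exact absurd h1 h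
  exact ⟨1, S1 B B, 1, 0, h2, by simp, by simp [h1], Int.ModEq.refl _, Int.ModEq.refl _⟩

theorem inv_odd {B : ℕ} (hB : B % 2 = 1) : Inv B 0 0 1 := by
  have h1 : S1 B B = 0 := S1_diag (Nat.odd_iff.2 hB)
  have h2 : S2 B B ≠ 0 := by
    rcases S_ne B B with h | h
    · exact absurd h1 h
    · exact h
  exact ⟨1, S2 B B, 0, 1, h2, by simp [h1], by simp, Int.ModEq.refl _, Int.ModEq.refl _⟩

theorem runAll_sound {X lo : ℕ} : ∀ k : ℕ, lo + k ≤ 2305843009213693951 → runAll X lo k = true →
    ∀ B, lo ≤ B → B < lo + k → ∀ y, 0 < y → y ≤ X →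
      S1 (B + y) B ≠ 0 ∧ (y ≠ 2 → ¬ (B = 2 ∧ y = 5) → S2 (B + y) B ≠ 0) := by
  intro k
  induction k with
  | zero => intro _ _ B h1 h2; omega
  | succ k ih =>
    intro hk h B h1 h2 y hy hyX
    have h' : ((Nat.rec (motive := fun _ => Bool) (run (lo + k) X 0 1 0)
      (fun _ _ => run (lo + k) X 0 0 1) ((lo + k) % 2) : Bool) && runAll X lo k) = true := h
    rw [Bool.and_eq_true] at h'
    rcases Nat.lt_or_ge B (lo + k) with h3 | h3
    · exact ih (by omega) h'.2 B h1 h3 y hy hyX
    · have h4 : B = lo + k := by omega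
      subst h4
      rcases Nat.mod_two_eq_zero_or_one (lo + k) with h5 | h5
      · have h6 := h'.1
        rw [h5] at h6
        exact run_sound (by omega) X 0 1 0 h6 (inv_even h5) y hy (by omega)
      · have h6 := h'.1
        rw [h5] at h6
        exact run_sound (by omega) X 0 0 1 h6 (inv_odd h5) y hy (by omega)

end Pool.Agent.Lib.MP_0d3661_nt
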