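import Pool.Agent.Lib.MP_0d3661_nt.Strip

/-!
Feynman checkers: kernel evaluation of the finite check for `1 ≤ x ≤ 102` and the positive case.
-/

namespace Pool.Agent.Lib.MP_0d3661_nt

set_option maxRecDepth 100000 in
theorem chk0 : runAll 102 0 595 = true := by decide +kernel

set_option maxRecDepth 100000 in
theorem chk1 : runAll 102 595 595 = true := by decide +kernel

set_option maxRecDepth 100000 in
theorem chk2 : runAll 102 1190 595 = true := by decide +kernel

set_option maxRecDepth 100000 in
theorem chk3 : runAll 102 1785 595 = true := by decide +kernel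

set_option maxRecDepth 100000 in
theorem chk4 : runAll 102 2380 595 = true := by decide +kernel

set_option maxRecDepth 100000 in
theorem chk5 : runAll 102 2975 595 = true := by decide +kernel

set_option maxRecDepth 100000 in
theorem chk6 : runAll 102 3570 595 = true := by decide +kernel

set_option maxRecDepth 100000 in
theorem chk7 : runAll 102 4165 595 = true := by decide +kernel

set_option maxRecDepth 100000 in
theorem chk8 : runAll 102 4760 595 = true := by decide +kernel

theorem strip {B y : ℕ} (hB : B < 5355) (h1 : 0 < y) (h2 : y ≤ 102) :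
    S1 (B + y) B ≠ 0 ∧ (y ≠ 2 → ¬ (B = 2 ∧ y = 5) → S2 (B + y) B ≠ 0) := by
  rcases Nat.lt_or_ge B 595 with h | h
  · exact runAll_sound 595 (by norm_num) chk0 B (by omega) (by omega) y h1 h2
  rcases Nat.lt_or_ge B 1190 with h | h
  · exact runAll_sound 595 (by norm_num) chk1 B (by omega) (by omega) y h1 h2
  rcases Nat.lt_or_ge B 1785 with h | h
  · exact runAll_sound 595 (by norm_num) chk2 B (by omega) (by omega) y h1 h2
  rcases Nat.lt_or_ge B 2380 with h | h
  · exact runAll_sound 595 (by norm_num) chk3 B (by omega) (by omega) y h1 h2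
  rcases Nat.lt_or_ge B 2975 with h | h
  · exact runAll_sound 595 (by norm_num) chk4 B (by omega) (by omega) y h1 h2
  rcases Nat.lt_or_ge B 3570 with h | h
  · exact runAll_sound 595 (by norm_num) chk5 B (by omega) (by omega) y h1 h2
  rcases Nat.lt_or_ge B 4165 with h | h
  · exact runAll_sound 595 (by norm_num) chk6 B (by omega) (by omega) y h1 h2
  rcases Nat.lt_or_ge B 4760 with h | h
  · exact runAll_sound 595 (by norm_num) chk7 B (by omega) (by omega) y h1 h2
  exact runAll_sound 595 (by norm_num) chk8 B (by omega) (by omega) y h1 h2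

/-- both sums are nonzero in the strip and in the parabolic region, first argument larger -/
theorem S_pos {B y : ℕ} (h1 : 1 ≤ y) (h2 : y ≤ 102 ∨ y * (y + 3) < 2 * (B + 1)) :
    S1 (B + y) B ≠ 0 ∧ (y ≠ 2 → ¬ (B = 2 ∧ y = 5) → S2 (B + y) B ≠ 0) := by
  rcases Nat.lt_or_ge (y * (y + 3)) (2 * (B + 1)) with h | h
  · have h3 := S_parabola h1 h
    exact ⟨h3.1, fun h4 _ => h3.2 h4⟩
  · rcases h2 with h2 | h2
    · refine strip ?_ (by omega) h2
      have h3 : y * (y + 3) ≤ 102 * 105 := Nat.mul_le_mul h2 (by omega)
      omega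
    · omega

end Pool.Agent.Lib.MP_0d3661_nt
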