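import Pool.Agent.Lib.MP_0d3661_nt.Amp

/-!
Feynman checkers: the two alternating sums of products of binomial coefficients behind the real and
the imaginary part, their recurrences and their relation to the arrays of `Amp`.
-/

namespace Pool.Agent.Lib.MP_0d3661_nt

open Finset

/-- `∑ (-1)^r C(A,r) C(B,r)` over `r < N` -/
def P1 (N A B : ℕ) : ℤ := ∑ r ∈ range N, (-1) ^ r * ((A.choose r : ℕ) : ℤ) * ((B.choose r : ℕ) : ℤ)

/-- `∑ (-1)^r C(A,r+1) C(B,r)` over `r < N` -/
def P2 (N A B : ℕ) : ℤ :=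
  ∑ r ∈ range N, (-1) ^ r * ((A.choose (r + 1) : ℕ) : ℤ) * ((B.choose r : ℕ) : ℤ)

/-- the full sum `∑ (-1)^r C(A,r) C(B,r)` -/
def S1 (A B : ℕ) : ℤ := P1 (B + 1) A B

/-- the full sum `∑ (-1)^r C(A,r+1) C(B,r)` -/
def S2 (A B : ℕ) : ℤ := P2 (B + 1) A B

theorem P1_eq {N B : ℕ} (h : B < N) (A : ℕ) : P1 N A B = S1 A B := by
  unfold S1 P1
  obtain ⟨d, rfl⟩ : ∃ d, N = B + 1 + d := ⟨N - (B + 1), by omega⟩
  rw [Finset.sum_range_add]
  rw [Finset.sum_eq_zero (s := range d), add_zero]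
  intro r _
  rw [Nat.choose_eq_zero_of_lt (show B < B + 1 + r by omega)]
  simp

theorem P2_eq {N B : ℕ} (h : B < N) (A : ℕ) : P2 N A B = S2 A B := by
  unfold S2 P2
  obtain ⟨d, rfl⟩ : ∃ d, N = B + 1 + d := ⟨N - (B + 1), by omega⟩
  rw [Finset.sum_range_add]
  rw [Finset.sum_eq_zero (s := range d), add_zero]
  intro r _
  rw [Nat.choose_eq_zero_of_lt (show B < B + 1 + r by omega)]
  simp

theorem S1_comm (A B : ℕ) : S1 A B = S1 B A := by
  rw [← P1_eq (N := A + B + 1) (by omega) A, ← P1_eq (N := A + B + 1) (by omega) B]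
  unfold P1
  exact Finset.sum_congr rfl fun r _ => by ring

/-- Pascal for the first argument of `S2` -/
theorem S2_succ (A B : ℕ) : S2 (A + 1) B = S2 A B + S1 A B := by
  unfold S2 S1 P2 P1
  rw [← Finset.sum_add_distrib]
  refine Finset.sum_congr rfl fun r _ => ?_
  rw [Nat.choose_succ_succ]
  push_cast
  ring

/-- Pascal for the first argument of `S1` -/
theorem S1_succ (A B : ℕ) : S1 (A + 1) B = S1 A B - S2 B A := by
  rw [← P1_eq (N := A + B + 1 + 1) (by omega) (A + 1), ← P1_eq (N := A + B + 1 + 1) (by omega) A,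
    ← P2_eq (N := A + B + 1) (by omega) B]
  unfold P1 P2
  rw [Finset.sum_range_succ' _ (A + B + 1), Finset.sum_range_succ' _ (A + B + 1)]
  have h : ∀ r ∈ range (A + B + 1), (-1 : ℤ) ^ (r + 1) * (((A + 1).choose (r + 1) : ℕ) : ℤ) *
      ((B.choose (r + 1) : ℕ) : ℤ) = (-1 : ℤ) ^ (r + 1) * ((A.choose (r + 1) : ℕ) : ℤ) *
      ((B.choose (r + 1) : ℕ) : ℤ) - (-1 : ℤ) ^ r * ((B.choose (r + 1) : ℕ) : ℤ) *
      ((A.choose r : ℕ) : ℤ) := by
    intro r _
    rw [Nat.choose_succ_succ]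
    push_cast
    ring
  rw [Finset.sum_congr rfl h, Finset.sum_sub_distrib]
  simp
  ring

theorem S1_succ_right (A B : ℕ) : S1 A (B + 1) = S1 A B - S2 A B := by
  rw [S1_comm, S1_succ, S1_comm]

/-- the skew symmetry -/
theorem S2_skew (A B : ℕ) : ((B : ℤ) + 1) * S2 (A + 1) B = ((A : ℤ) + 1) * S2 (B + 1) A := by
  rw [← P2_eq (N := A + B + 1) (by omega) (A + 1), ← P2_eq (N := A + B + 1) (by omega) (B + 1)]
  unfold P2
  rw [Finset.mul_sum, Finset.mul_sum]
  refine Finset.sum_congr rfl fun r _ => ?_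
  have h1 : ((B : ℤ) + 1) * ((B.choose r : ℕ) : ℤ) = (((B + 1).choose (r + 1) : ℕ) : ℤ) * (r + 1) := by
    exact_mod_cast Nat.add_one_mul_choose_eq B r
  have h2 : ((A : ℤ) + 1) * ((A.choose r : ℕ) : ℤ) = (((A + 1).choose (r + 1) : ℕ) : ℤ) * (r + 1) := by
    exact_mod_cast Nat.add_one_mul_choose_eq A r
  linear_combination ((-1 : ℤ) ^ r * (((A + 1).choose (r + 1) : ℕ) : ℤ)) * h1 -
    ((-1 : ℤ) ^ r * (((B + 1).choose (r + 1) : ℕ) : ℤ)) * h2

/-- the recurrence for `S1` with the second argument fixed -/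
theorem S1_rec (A B : ℕ) : ((A : ℤ) + 1) * S1 (A + 1) B =
    (2 * A + 1 - B) * S1 A B - (B + 1) * S2 A B := by
  have h1 := S2_skew A B
  rw [S2_succ A B, S2_succ B A, S1_comm B A] at h1
  rw [S1_succ]
  linear_combination h1

theorem S1_zero (B : ℕ) : S1 0 B = 1 := by
  rw [S1_comm]
  simp [S1, P1]

theorem S2_zero (B : ℕ) : S2 0 B = 0 := by
  unfold S2 P2
  refine Finset.sum_eq_zero fun r _ => ?_
  simp

theorem S1_diag {B : ℕ} (hB : Odd B) : S1 B B = 0 := by
  have h : S1 B B = - S1 B B := by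
    conv_lhs => unfold S1 P1
    rw [← Finset.sum_range_reflect]
    unfold S1 P1
    rw [← Finset.sum_neg_distrib]
    refine Finset.sum_congr rfl fun r hr => ?_
    rw [Finset.mem_range] at hr
    have e : B + 1 - 1 - r = B - r := by omega
    rw [e, Nat.choose_symm (by omega)]
    have h1 : (-1 : ℤ) ^ (B - r) = - (-1) ^ r := by
      have h2 : (-1 : ℤ) ^ (B - r) * (-1) ^ r = -1 := by
        rw [← pow_add, Nat.sub_add_cancel (by omega)]
        exact hB.neg_one_pow
      have h3 : ((-1 : ℤ) ^ r) * (-1) ^ r = 1 := by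
        rw [← pow_add]; exact (Even.add_self r).neg_one_pow
      linear_combination ((-1 : ℤ) ^ r) * h2 - ((-1 : ℤ) ^ (B - r)) * h3
    rw [h1]
    ring
  omega

theorem S2_diag {B : ℕ} (hB : Even B) : S2 B B = 0 := by
  have hp : S2 B B = P2 B B B := by
    unfold S2 P2
    rw [Finset.sum_range_succ]
    simp
  have h : P2 B B B = - P2 B B B := by
    conv_lhs => unfold P2
    rw [← Finset.sum_range_reflect]
    unfold P2
    rw [← Finset.sum_neg_distrib]
    refine Finset.sum_congr rfl fun r hr => ?_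
    rw [Finset.mem_range] at hr
    have e : B - 1 - r + 1 = B - r := by omega
    have e2 : B - 1 - r = B - (r + 1) := by omega
    rw [e, e2, Nat.choose_symm (by omega), Nat.choose_symm (by omega)]
    have h1 : (-1 : ℤ) ^ (B - (r + 1)) = - (-1) ^ r := by
      have h2 : (-1 : ℤ) ^ (B - (r + 1)) * (-1) ^ (r + 1) = 1 := by
        rw [← pow_add, Nat.sub_add_cancel (by omega)]
        exact hB.neg_one_pow
      have h3 : ((-1 : ℤ) ^ r) * (-1) ^ r = 1 := by
        rw [← pow_add]; exact (Even.add_self r).neg_one_pow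
      rw [pow_succ] at h2
      linear_combination -((-1 : ℤ) ^ r) * h2 - ((-1 : ℤ) ^ (B - (r + 1))) * h3
    rw [h1]
    ring
  rw [hp]
  omega

/-- the two sums never vanish together -/
theorem S_ne (A B : ℕ) : S1 A B ≠ 0 ∨ S2 A B ≠ 0 := by
  induction A with
  | zero => left; rw [S1_zero]; norm_num
  | succ A ih =>
    by_contra hcon
    push Not at hcon
    obtain ⟨h1, h2⟩ := hcon
    have h3 := S1_rec A B
    have h4 := S2_succ A B
    rw [h1] at h3
    rw [h2] at h4
    have h5 : (2 * (A : ℤ) + 2) * S1 A B = 0 := by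
      linear_combination -h3 - ((B : ℤ) + 1) * h4
    have h6 : S1 A B = 0 := by
      rcases mul_eq_zero.1 h5 with h | h
      · omega
      · exact h
    have h7 : S2 A B = 0 := by rw [h6] at h4; omega
    rcases ih with h | h
    · exact h h6
    · exact h h7

theorem rl_gt (m : ℕ) : ∀ k, m < k → rl m k = (0, 0) := by
  induction m with
  | zero =>
    intro k hk
    have : k ≠ 0 := by omega
    simp [rl, this]
  | succ m ih =>
    intro k hk
    obtain ⟨j, rfl⟩ : ∃ j, k = j + 1 := ⟨k - 1, by omega⟩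
    simp only [rl]
    rw [ih (j + 1) (by omega), ih j (by omega)]
    simp

theorem rl_zero_right (m : ℕ) : rl m 0 = (1, 0) := by
  induction m with
  | zero => simp [rl]
  | succ m ih => simp [rl, ih]

/-- The arrays of `Amp` are the sums above. -/
theorem rl_sums (n : ℕ) : ∀ A B : ℕ, A + B = n → rl (n + 1) (B + 1) = (-S2 A B, S1 A B) := by
  induction n with
  | zero =>
    intro A B h
    obtain ⟨rfl, rfl⟩ : A = 0 ∧ B = 0 := by omega
    rw [S1_zero, S2_zero]
    simp [rl]
  | succ n ih =>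
    intro A B h
    refine Prod.ext ?_ ?_
    · change (rl (n + 1 + 1) (B + 1)).1 = -S2 A B
      rw [rl_fst_succ]
      rcases Nat.eq_zero_or_pos A with h0 | h0
      · subst h0
        rw [rl_gt (n + 1) (B + 1) (by omega), S2_zero]
        simp
      · obtain ⟨C, rfl⟩ : ∃ C, A = C + 1 := ⟨A - 1, by omega⟩
        rw [ih C B (by omega), S2_succ]
        ring
    · change (rl (n + 1 + 1) (B + 1)).2 = S1 A B
      have e : (rl (n + 1 + 1) (B + 1)).2 = (rl (n + 1) B).1 + (rl (n + 1) B).2 := by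
        simp [rl]
      rw [e]
      rcases Nat.eq_zero_or_pos B with h0 | h0
      · subst h0
        rw [rl_zero_right, S1_comm, S1_zero]
        simp
      · obtain ⟨C, rfl⟩ : ∃ C, B = C + 1 := ⟨B - 1, by omega⟩
        rw [ih A C (by omega), S1_succ_right]
        ring

end Pool.Agent.Lib.MP_0d3661_nt
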