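import Pool.Agent.Lib.MP_0d3661_nt.Coeff

/-!
Counting zeros in one residue class modulo four: 2-adic Jensen type bound.
-/

namespace Pool.Agent.Lib.MP_0d3661_nt

open Finset Polynomial

/-- the primitive part of `c + 2 X` -/
noncomputable def ell (c : ℤ) : ℤ[X] := if Even c then C (c / 2) + X else C c + C 2 * X

/-- the content exponent of `c + 2 X` -/
def ee (c : ℤ) : ℕ := if Even c then 1 else 0

theorem ell_eval (c z : ℤ) : 2 ^ ee c * (ell c).eval z = c + 2 * z := by
  unfold ell ee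
  by_cases h : Even c
  · obtain ⟨d, rfl⟩ := h
    have : (d + d) / 2 = d := by omega
    simp [← two_mul]
    ring
  · simp [h]

noncomputable def NN (c : ℤ) (j : ℕ) : ℤ[X] := ∏ l ∈ range j, ell (c - l)

def EE (c : ℤ) (j : ℕ) : ℕ := ∑ l ∈ range j, ee (c - l)

theorem NN_eval (c z : ℤ) (j : ℕ) :
    2 ^ EE c j * (NN c j).eval z = ∏ l ∈ range j, (c + 2 * z - l) := by
  unfold NN EE
  rw [eval_prod, ← Finset.prod_pow_eq_pow_sum, ← Finset.prod_mul_distrib]
  refine Finset.prod_congr rfl fun l _ => ?_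
  rw [ell_eval]; ring

theorem EE_ge (c : ℤ) : ∀ j : ℕ, j ≤ 2 * EE c j + 1 := by
  have hstep : ∀ j, EE c (j + 2) = EE c j + 1 := by
    intro j
    unfold EE
    rw [Finset.sum_range_succ, Finset.sum_range_succ, add_assoc]
    congr 1
    unfold ee
    push_cast
    rcases Int.even_or_odd (c - j) with h | h
    · have h' : ¬ Even (c - (j + 1)) := by
        rw [Int.not_even_iff_odd]
        have : c - (j + 1) = (c - j) - 1 := by ring
        rw [this]; exact h.sub_odd odd_one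
      rw [if_pos h, if_neg h']
    · have h' : Even (c - (j + 1)) := by
        have : c - (j + 1) = (c - j) - 1 := by ring
        rw [this]; exact h.sub_odd odd_one
      rw [if_neg (Int.not_even_iff_odd.2 h), if_pos h']
  intro j
  induction j using Nat.strong_induction_on with
  | _ j ih =>
    match j with
    | 0 => omega
    | 1 => omega
    | (j + 2) =>
      have := ih j (by omega)
      rw [hstep]
      omega

theorem prod_range_sub (r j : ℕ) : ∏ l ∈ range j, ((r : ℤ) - l) = (j.factorial : ℤ) * r.choose j := by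
  have h : ∏ l ∈ range j, ((r : ℤ) - l) = (r.descFactorial j : ℤ) := by
    induction j with
    | zero => simp
    | succ j ih =>
      rw [Finset.prod_range_succ, ih, Nat.descFactorial_succ]
      rcases Nat.lt_or_ge r j with h | h
      · rw [Nat.descFactorial_eq_zero_iff_lt.2 h]; simp
      · push_cast [h]
        ring
  rw [h, Nat.descFactorial_eq_factorial_mul_choose]
  push_cast
  ring

/-- denominators -/
def den (n j : ℕ) : ℕ := n.choose j * (j.factorial * j.factorial)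

theorem den_pos {n j : ℕ} (h : j ≤ n) : 0 < den n j := by
  unfold den
  have := Nat.choose_pos h
  positivity

/-- 2-part exponent and odd part of the denominator -/
noncomputable def aa (n j : ℕ) : ℕ := (den n j).factorization 2

noncomputable def oo (n j : ℕ) : ℕ := den n j / 2 ^ aa n j

theorem two_pow_mul_oo (n j : ℕ) : 2 ^ aa n j * oo n j = den n j :=
  Nat.ordProj_mul_ordCompl_eq_self _ _

theorem oo_odd {n j : ℕ} (h : j ≤ n) : Nat.Coprime 2 (oo n j) :=
  Nat.coprime_ordCompl Nat.prime_two (den_pos h).ne'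

theorem factorization_factorial_lt {j : ℕ} (hj : j ≠ 0) : (j.factorial).factorization 2 < j := by
  rw [Nat.factorization_def _ Nat.prime_two]
  exact padicValNat_factorial_lt_of_ne_zero 2 hj

theorem aa_le {n j : ℕ} (h : j ≤ n) (c c' : ℤ) :
    aa n j ≤ Nat.log 2 n + j + EE c j + EE c' j := by
  unfold aa den
  have hc : n.choose j ≠ 0 := (Nat.choose_pos h).ne'
  have hf : j.factorial ≠ 0 := Nat.factorial_ne_zero j
  rw [Nat.factorization_mul hc (mul_ne_zero hf hf), Nat.factorization_mul hf hf]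
  simp only [Finsupp.add_apply]
  have h1 : (n.choose j).factorization 2 ≤ Nat.log 2 n := Nat.factorization_choose_le_log
  have h2 := EE_ge c j
  have h3 := EE_ge c' j
  rcases Nat.eq_zero_or_pos j with rfl | hj
  · simp at *
  · have h4 := factorization_factorial_lt (j := j) (by omega)
    omega

/-- common odd denominator -/
noncomputable def Dn (n : ℕ) : ℕ := ∏ j ∈ range (n + 1), oo n j

theorem Dn_odd (n : ℕ) : Nat.Coprime 2 (Dn n) :=
  Nat.Coprime.prod_right fun _ hj => oo_odd (Nat.lt_succ_iff.1 (Finset.mem_range.1 hj))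

/-- the polynomial whose values are `D 2^K f(n, c + 2z, c' + 2z)` -/
noncomputable def FF (n : ℕ) (c c' : ℤ) : ℤ[X] :=
  ∑ j ∈ range (n + 1), C ((-1) ^ j * ((Dn n / oo n j : ℕ) : ℤ) *
    2 ^ (Nat.log 2 n + j + EE c j + EE c' j - aa n j)) * (NN c j * NN c' j)

theorem FF_eval (n : ℕ) (c c' z : ℤ) (r r' : ℕ) (hr : (r : ℤ) = c + 2 * z) (hr' : (r' : ℤ) = c' + 2 * z) :
    (((FF n c c').eval z : ℤ) : ℚ) = (Dn n : ℚ) * 2 ^ Nat.log 2 n * f n r r' := by
  unfold FF f
  rw [eval_finsetSum, Int.cast_sum, Finset.mul_sum]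
  refine Finset.sum_congr rfl fun j hj => ?_
  have hjn : j ≤ n := Nat.lt_succ_iff.1 (Finset.mem_range.1 hj)
  rw [eval_mul, eval_mul, eval_C]
  have h1 : (2 : ℤ) ^ EE c j * (NN c j).eval z = j.factorial * r.choose j := by
    rw [NN_eval, ← prod_range_sub, hr]
  have h2 : (2 : ℤ) ^ EE c' j * (NN c' j).eval z = j.factorial * r'.choose j := by
    rw [NN_eval, ← prod_range_sub, hr']
  have h1' : (2 : ℚ) ^ EE c j * (((NN c j).eval z : ℤ) : ℚ) = j.factorial * r.choose j := by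
    exact_mod_cast congrArg (Int.cast : ℤ → ℚ) h1
  have h2' : (2 : ℚ) ^ EE c' j * (((NN c' j).eval z : ℤ) : ℚ) = j.factorial * r'.choose j := by
    exact_mod_cast congrArg (Int.cast : ℤ → ℚ) h2
  have ho : (oo n j : ℚ) ≠ 0 := by
    have := den_pos hjn
    rw [← two_pow_mul_oo] at this
    have h0 : oo n j ≠ 0 := by
      rintro h0
      rw [h0, mul_zero] at this
      exact lt_irrefl _ this
    exact_mod_cast h0
  have hD : (((Dn n / oo n j : ℕ) : ℤ) : ℚ) = (Dn n : ℚ) / oo n j := by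
    rw [Int.cast_natCast, Nat.cast_div _ ho]
    exact Finset.dvd_prod_of_mem _ hj
  have hp : (2 : ℚ) ^ (Nat.log 2 n + j + EE c j + EE c' j - aa n j) * 2 ^ aa n j =
      2 ^ Nat.log 2 n * 2 ^ j * 2 ^ EE c j * 2 ^ EE c' j := by
    rw [← pow_add, Nat.sub_add_cancel (aa_le hjn c c'), pow_add, pow_add, pow_add]
  have hden : (2 : ℚ) ^ aa n j * oo n j = n.choose j * (j.factorial * j.factorial) := by
    have := two_pow_mul_oo n j
    unfold den at this
    exact_mod_cast this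
  have hch : (n.choose j : ℚ) ≠ 0 := by exact_mod_cast (Nat.choose_pos hjn).ne'
  have hfac : (j.factorial : ℚ) ≠ 0 := by exact_mod_cast Nat.factorial_ne_zero j
  have h2a : (2 : ℚ) ^ aa n j ≠ 0 := by positivity
  rw [Int.cast_mul, Int.cast_mul, Int.cast_mul, Int.cast_mul, Int.cast_pow, Int.cast_pow,
    Int.cast_neg, Int.cast_one, Int.cast_ofNat, hD]
  have e : (2 : ℚ) ^ (Nat.log 2 n + j + EE c j + EE c' j - aa n j) =
      2 ^ Nat.log 2 n * 2 ^ j * 2 ^ EE c j * 2 ^ EE c' j / 2 ^ aa n j := by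
    rw [eq_div_iff h2a, hp]
  rw [e]
  have e3 : (-1 : ℚ) ^ j * (Dn n / oo n j) *
      (2 ^ Nat.log 2 n * 2 ^ j * 2 ^ EE c j * 2 ^ EE c' j / 2 ^ aa n j) *
      ((((NN c j).eval z : ℤ) : ℚ) * (((NN c' j).eval z : ℤ) : ℚ)) =
      (-1) ^ j * 2 ^ j * Dn n * 2 ^ Nat.log 2 n / (2 ^ aa n j * oo n j) *
      ((2 ^ EE c j * (((NN c j).eval z : ℤ) : ℚ)) * (2 ^ EE c' j * (((NN c' j).eval z : ℤ) : ℚ))) := by
    field_simp
  rw [e3, h1', h2', hden, show (-2 : ℚ) = (-1) * 2 by norm_num, mul_pow]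
  field_simp

/-- the bound for one residue class -/
theorem class_bound {n r₀ δ : ℕ} (A : ℤ) (B : ℕ) (hA : A ≠ 0)
    (hf : (B : ℚ) * f n r₀ (r₀ + δ) = A) (S : Finset ℕ)
    (hS : ∀ r ∈ S, (r : ℤ) ≡ r₀ [ZMOD 4] ∧ f n r (r + δ) = 0) :
    (2 : ℤ) ^ S.card ≤ 2 ^ Nat.log 2 n * |A| := by
  set F := FF n r₀ (r₀ + δ) with hF
  set z : ℕ → ℤ := fun r => ((r : ℤ) - r₀) / 2 with hz
  have hz2 : ∀ r ∈ S, (2 : ℤ) ∣ z r ∧ (r : ℤ) = r₀ + 2 * z r := by
    intro r hr
    have h := (hS r hr).1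
    have h4 : (4 : ℤ) ∣ (r : ℤ) - r₀ := (Int.modEq_iff_dvd.1 h.symm)
    obtain ⟨w, hw⟩ := h4
    have : z r = 2 * w := by
      simp only [hz]; rw [hw]; omega
    exact ⟨⟨w, this⟩, by rw [this]; linarith⟩
  have hroot : ∀ r ∈ S, F.eval (z r) = 0 := by
    intro r hr
    have h1 := FF_eval n r₀ (r₀ + δ) (z r) r (r + δ) (hz2 r hr).2
      (by push_cast; rw [(hz2 r hr).2]; ring)
    rw [(hS r hr).2, mul_zero] at h1
    exact_mod_cast h1
  have h0 : ((F.eval 0 : ℤ) : ℚ) = (Dn n : ℚ) * 2 ^ Nat.log 2 n * f n r₀ (r₀ + δ) :=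
    FF_eval n r₀ (r₀ + δ) 0 r₀ (r₀ + δ) (by simp) (by simp)
  have hBF : (B : ℤ) * F.eval 0 = (Dn n : ℤ) * 2 ^ Nat.log 2 n * A := by
    have : ((B : ℤ) * F.eval 0 : ℚ) = (Dn n : ℚ) * 2 ^ Nat.log 2 n * A := by
      rw [h0, ← hf]; push_cast; ring
    exact_mod_cast this
  have hDpos : Dn n ≠ 0 := by
    intro h
    have := Dn_odd n
    rw [h] at this
    simp at this
  have hF0 : F.eval 0 ≠ 0 := by
    intro h
    rw [h, mul_zero] at hBF
    have : (Dn n : ℤ) * 2 ^ Nat.log 2 n * A ≠ 0 := by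
      have h1 : (Dn n : ℤ) ≠ 0 := by exact_mod_cast hDpos
      positivity
    exact this hBF.symm
  have hFne : F ≠ 0 := by
    intro h; rw [h] at hF0; simp at hF0
  have hinj : Set.InjOn z S := by
    intro a ha b hb hab
    have h1 := (hz2 a ha).2
    have h2 := (hz2 b hb).2
    rw [hab, ← h2] at h1
    exact_mod_cast h1
  have hdvd : ∏ r ∈ S, (X - C (z r)) ∣ F := by
    have h1 : ((S.image z).val.map fun a => X - C a).prod ∣ F := by
      rw [Multiset.prod_X_sub_C_dvd_iff_le_roots hFne, Multiset.le_iff_subset (S.image z).nodup]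
      intro a ha
      rw [Finset.mem_val, Finset.mem_image] at ha
      obtain ⟨r, hr, rfl⟩ := ha
      rw [mem_roots hFne]
      exact hroot r hr
    have h2 : ∏ a ∈ S.image z, (X - C a) = ∏ r ∈ S, (X - C (z r)) :=
      Finset.prod_image (fun a ha b hb h => hinj ha hb h)
    rw [← h2]
    exact h1
  have hdvd0 : (2 : ℤ) ^ S.card ∣ F.eval 0 := by
    obtain ⟨H, hH⟩ := hdvd
    rw [hH, eval_mul, eval_prod]
    refine Dvd.dvd.mul_right ?_ _
    rw [← Finset.prod_const]
    refine Finset.prod_dvd_prod_of_dvd _ _ fun r hr => ?_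
    simp only [eval_sub, eval_X, eval_C, zero_sub, dvd_neg]
    exact (hz2 r hr).1
  have h3 : (2 : ℤ) ^ S.card ∣ (Dn n : ℤ) * (2 ^ Nat.log 2 n * A) := by
    rw [← mul_assoc, ← hBF]
    exact hdvd0.mul_left _
  have hcop : IsCoprime ((2 : ℤ) ^ S.card) (Dn n : ℤ) := by
    refine IsCoprime.pow_left ?_
    have := Nat.isCoprime_iff_coprime.2 (Dn_odd n)
    exact_mod_cast this
  have h4 : (2 : ℤ) ^ S.card ∣ 2 ^ Nat.log 2 n * A := hcop.dvd_of_dvd_mul_left h3
  have h5 := Int.le_of_dvd (by positivity) ((dvd_abs _ _).2 h4)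
  rwa [abs_mul, abs_of_pos (by positivity : (0 : ℤ) < 2 ^ Nat.log 2 n)] at h5

end Pool.Agent.Lib.MP_0d3661_nt
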